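import Pool.Agent.H728R2.FA.Base

open Set Filter Topology MeasureTheory
open scoped ComplexConjugate

namespace Pool.Agent.H728R2.FA

open Pool.Agent.H728R2.OS


theorem BREL_norm_e (y : Circ) : ‖e y‖ = 1 := by
  unfold e
  exact Circle.norm_coe _

theorem BREL_lim_den {B : Type*} [MeasurableSpace B] {m : Measure B} (D : Coc B m) (x : B)
    {w : ℕ → ℂ} {W : ℂ} (h : Tendsto w atTop (𝓝 W)) :
    Tendsto (fun j => D.den x (w j)) atTop (𝓝 (D.den x W)) := by
  unfold Coc.den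
  exact (h.const_mul _).add_const _

theorem BREL_lim_dem {B : Type*} [MeasurableSpace B] {m : Measure B} (D : Coc B m) (x : B)
    {w : ℕ → ℂ} {W : ℂ} (h : Tendsto w atTop (𝓝 W)) :
    Tendsto (fun j => D.dem x (w j)) atTop (𝓝 (D.dem x W)) := by
  unfold Coc.dem
  exact (h.const_mul _).const_add _

theorem BREL_log {M t : ℝ} (hM : 1 ≤ M) (h1 : (2 * M)⁻¹ ≤ t) (h2 : t ≤ 2 * M) :
    ‖Real.log t‖ ≤ Real.log (2 * M) := by
  have h0 : 0 < (2 * M)⁻¹ := by positivity
  have ht : 0 < t := h0.trans_le h1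
  rw [Real.norm_eq_abs, abs_le]
  constructor
  · rw [← Real.log_inv]
    exact Real.log_le_log h0 h1
  · exact Real.log_le_log ht h2

theorem BREL_dom {B : Type*} [MeasurableSpace B] {m : Measure B} [IsProbabilityMeasure m]
    {M : ℝ} (hM : 1 ≤ M) (g : ℕ → B → ℂ) (g0 : B → ℂ) (hg : ∀ j, Measurable (g j))
    (hb : ∀ j x, (2 * M)⁻¹ ≤ ‖g j x‖ ∧ ‖g j x‖ ≤ 2 * M)
    (hb0 : ∀ x, (2 * M)⁻¹ ≤ ‖g0 x‖)
    (hlim : ∀ᵐ x ∂m, Tendsto (fun j => g j x) atTop (𝓝 (g0 x))) :
    Tendsto (fun j => ∫ x, Real.log ‖g j x‖ ∂m) atTop (𝓝 (∫ x, Real.log ‖g0 x‖ ∂m)) := by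
  refine tendsto_integral_of_dominated_convergence (fun _ => Real.log (2 * M)) ?_
    (integrable_const _) ?_ ?_
  · intro j
    exact (Real.measurable_log.comp (hg j).norm).aestronglyMeasurable
  · intro j
    exact Filter.Eventually.of_forall fun x => BREL_log hM (hb j x).1 (hb j x).2
  · filter_upwards [hlim] with x hx
    have h0 : 0 < (2 * M)⁻¹ := by positivity
    have h1 : ‖g0 x‖ ≠ 0 := (h0.trans_le (hb0 x)).ne'
    exact hx.norm.log h1

/-- The relations for the boundary sections. -/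
theorem boundary_rel {B : Type*} [MeasurableSpace B] {m : Measure B} [IsProbabilityMeasure m]
    (D : Coc B m) {u v : ℂ → B → ℂ} (hu : D.IsSec u) (hv : D.IsCosec v) (r : ℕ → ℝ) (hr : ∀ j, 0 < r j ∧ r j < 1)
    (hr1 : Tendsto r atTop (𝓝 1)) (U : Circ → B → ℂ) (mU : Measurable (Function.uncurry U))
    (bU : ∀ θ x, ‖U θ x‖ ≤ 1)
    (hU : ∀ᵐ p : Circ × B ∂(volume.prod m),
      Tendsto (fun j => u (r j * e p.1) p.2) atTop (𝓝 (U p.1 p.2)))
    (V : Circ → B → ℂ) (mV : Measurable (Function.uncurry V)) (bV : ∀ θ x, ‖V θ x‖ ≤ 1)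
    (hV : ∀ᵐ p : Circ × B ∂(volume.prod m),
      Tendsto (fun j => v (r j * e p.1) p.2) atTop (𝓝 (V p.1 p.2)))
    (hden : ∀ x w, ‖w‖ ≤ 1 → 1 ≤ D.M ∧ (2 * D.M)⁻¹ ≤ ‖D.den x w‖ ∧ ‖D.den x w‖ ≤ 2 * D.M)
    (hdem : ∀ x w, ‖w‖ ≤ 1 → (2 * D.M)⁻¹ ≤ ‖D.dem x w‖ ∧ ‖D.dem x w‖ ≤ 2 * D.M)
    (hrel : ∀ (l : ℂ) (t : ℝ), 1 ≤ t → ‖(t : ℂ) * l‖ < 1 → ∀ x : B,
      1 - u l x * v (t * l) x = D.den x (u l x) * D.dem x (v (t * l) x) *
        (1 - t * u l (D.T x) * v (t * l) (D.T x)))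
    (hsum : ∀ l : ℂ, ‖l‖ < 1 → D.LL (u l) + ∫ x, Real.log ‖D.dem x (v l x)‖ ∂m = 0) :
    ∀ᵐ θ : Circ, (∀ᵐ x ∂m, U θ (D.T x) = D.G (e θ) x (U θ x)) ∧
      (∀ᵐ x ∂m, e θ * V θ (D.T x) * D.dem x (V θ x) =
        conj (D.a x) * V θ x + conj (D.b x)) ∧
      (∀ᵐ x ∂m, 1 - U θ x * V θ x = D.den x (U θ x) * D.dem x (V θ x) *
        (1 - U θ (D.T x) * V θ (D.T x))) ∧
      D.LL (U θ) + ∫ x, Real.log ‖D.dem x (V θ x)‖ ∂m = 0 := by
  have hU' := Measure.ae_ae_of_ae_prod hU
  have hV' := Measure.ae_ae_of_ae_prod hV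
  filter_upwards [hU', hV'] with θ hUθ hVθ
  have hT : Measure.QuasiMeasurePreserving D.T m m :=
    D.erg.toMeasurePreserving.quasiMeasurePreserving
  have hUT := hT.ae hUθ
  have hVT := hT.ae hVθ
  set L : ℕ → ℂ := fun j => (r j : ℂ) * e θ with hL
  have hLn : ∀ j, ‖L j‖ = r j := by
    intro j
    rw [hL]
    simp only [norm_mul, BREL_norm_e, mul_one, Complex.norm_real, Real.norm_eq_abs]
    exact abs_of_pos (hr j).1
  have hL1 : ∀ j, ‖L j‖ < 1 := fun j => by rw [hLn]; exact (hr j).2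
  have hLlim : Tendsto L atTop (𝓝 (e θ)) := by
    have h1 : Tendsto (fun j => (r j : ℂ)) atTop (𝓝 ((1 : ℝ) : ℂ)) :=
      (Complex.continuous_ofReal.tendsto 1).comp hr1
    have h2 := h1.mul_const (e θ)
    rwa [Complex.ofReal_one, one_mul] at h2
  have hu1 : ∀ j x, ‖u (L j) x‖ ≤ 1 := fun j x => (hu.le _ x (hL1 j)).trans (hL1 j).le
  have hv1 : ∀ j x, ‖v (L j) x‖ ≤ 1 := by
    intro j x
    obtain ⟨c, hc, h⟩ := hv.le (r j) (hr j).1.le (hr j).2
    exact (h _ x (hLn j).le).trans hc.le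
  have hM : ∀ x : B, 1 ≤ D.M := fun x => (hden x 0 (by simp)).1
  have hpos : ∀ x : B, 0 < (2 * D.M)⁻¹ := fun x => by
    have := hM x
    positivity
  have hab : ∀ x, ‖D.b x‖ < ‖D.a x‖ := by
    intro x
    have h1 := D.det x
    nlinarith [norm_nonneg (D.a x), norm_nonneg (D.b x)]
  refine ⟨?_, ?_, ?_, ?_⟩
  · filter_upwards [hUθ, hUT] with x h1 h2
    have h3 : D.den x (U θ x) ≠ 0 := by
      rw [← norm_pos_iff]
      exact (hpos x).trans_le (hden x _ (bU θ x)).2.1
    have h4 : Tendsto (fun j => D.G (L j) x (u (L j) x)) atTop (𝓝 (D.G (e θ) x (U θ x))) := by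
      unfold Coc.G
      exact (hLlim.mul ((h1.const_mul _).add_const _)).div (BREL_lim_den D x h1) h3
    have h5 : Tendsto (fun j => D.G (L j) x (u (L j) x)) atTop (𝓝 (U θ (D.T x))) := by
      refine h2.congr fun j => ?_
      exact hu.inv (L j) x (hL1 j)
    exact tendsto_nhds_unique h5 h4
  · filter_upwards [hVθ, hVT] with x h1 h2
    have key : ∀ j, L j * v (L j) (D.T x) * D.dem x (v (L j) x) =
        conj (D.a x) * v (L j) x + conj (D.b x) := by
      intro j
      have h3 := hv.inv (L j) x (hL1 j)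
      have h4 : -(D.b x * (L j * v (L j) (D.T x))) + conj (D.a x) ≠ 0 := by
        intro h0
        have h5 : conj (D.a x) = D.b x * (L j * v (L j) (D.T x)) := by
          linear_combination h0
        have h6 : ‖D.a x‖ ≤ ‖D.b x‖ := by
          calc ‖D.a x‖ = ‖conj (D.a x)‖ := (RCLike.norm_conj _).symm
            _ = ‖D.b x‖ * (‖L j‖ * ‖v (L j) (D.T x)‖) := by rw [h5, norm_mul, norm_mul]
            _ ≤ ‖D.b x‖ * (1 * 1) := by
                refine mul_le_mul_of_nonneg_left ?_ (norm_nonneg _)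
                exact mul_le_mul (hL1 j).le (hv1 j _) (norm_nonneg _) zero_le_one
            _ = ‖D.b x‖ := by ring
        exact absurd (hab x) (not_lt.mpr h6)
      rw [eq_div_iff h4] at h3
      unfold Coc.dem
      linear_combination -h3
    have h3 : Tendsto (fun j => L j * v (L j) (D.T x) * D.dem x (v (L j) x)) atTop
        (𝓝 (e θ * V θ (D.T x) * D.dem x (V θ x))) :=
      (hLlim.mul h2).mul (BREL_lim_dem D x h1)
    have h4 : Tendsto (fun j => L j * v (L j) (D.T x) * D.dem x (v (L j) x)) atTop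
        (𝓝 (conj (D.a x) * V θ x + conj (D.b x))) := by
      refine Tendsto.congr (fun j => (key j).symm) ?_
      exact (h1.const_mul _).add_const _
    exact tendsto_nhds_unique h3 h4
  · filter_upwards [hUθ, hVθ, hUT, hVT] with x h1 h2 h3 h4
    have key : ∀ j, 1 - u (L j) x * v (L j) x = D.den x (u (L j) x) * D.dem x (v (L j) x) *
        (1 - u (L j) (D.T x) * v (L j) (D.T x)) := by
      intro j
      have h5 := hrel (L j) 1 le_rfl (by rw [Complex.ofReal_one, one_mul]; exact hL1 j) x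
      simpa only [Complex.ofReal_one, one_mul] using h5
    have h5 : Tendsto (fun j => 1 - u (L j) x * v (L j) x) atTop (𝓝 (1 - U θ x * V θ x)) :=
      (h1.mul h2).const_sub 1
    have h6 : Tendsto (fun j => D.den x (u (L j) x) * D.dem x (v (L j) x) *
        (1 - u (L j) (D.T x) * v (L j) (D.T x))) atTop
        (𝓝 (D.den x (U θ x) * D.dem x (V θ x) * (1 - U θ (D.T x) * V θ (D.T x)))) :=
      ((BREL_lim_den D x h1).mul (BREL_lim_dem D x h2)).mul ((h3.mul h4).const_sub 1)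
    exact tendsto_nhds_unique h5 (h6.congr fun j => (key j).symm)
  · have hne : Nonempty B := by
      by_contra h
      rw [not_nonempty_iff] at h
      have h1 : m Set.univ = 1 := measure_univ
      rw [Set.eq_empty_of_isEmpty (Set.univ : Set B), measure_empty] at h1
      exact zero_ne_one h1
    obtain ⟨x₀⟩ := hne
    have h1 : Tendsto (fun j => D.LL (u (L j))) atTop (𝓝 (D.LL (U θ))) := by
      unfold Coc.LL
      refine BREL_dom (hM x₀) (fun j x => D.den x (u (L j) x)) (fun x => D.den x (U θ x)) ?_ ?_ ?_ ?_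
      · intro j
        unfold Coc.den
        exact ((Complex.continuous_conj.measurable.comp D.mb).mul (hu.meas _ (hL1 j))).add
          (Complex.continuous_conj.measurable.comp D.ma)
      · intro j x
        exact (hden x _ (hu1 j x)).2
      · intro x
        exact (hden x _ (bU θ x)).2.1
      · filter_upwards [hUθ] with x hx
        exact BREL_lim_den D x hx
    have h2 : Tendsto (fun j => ∫ x, Real.log ‖D.dem x (v (L j) x)‖ ∂m) atTop
        (𝓝 (∫ x, Real.log ‖D.dem x (V θ x)‖ ∂m)) := by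
      refine BREL_dom (hM x₀) (fun j x => D.dem x (v (L j) x)) (fun x => D.dem x (V θ x)) ?_ ?_ ?_ ?_
      · intro j
        unfold Coc.dem
        exact D.ma.add (D.mb.mul (hv.meas _ (hL1 j)))
      · intro j x
        exact hdem x _ (hv1 j x)
      · intro x
        exact (hdem x _ (bV θ x)).1
      · filter_upwards [hVθ] with x hx
        exact BREL_lim_dem D x hx
    have h3 := h1.add h2
    have h4 : Tendsto (fun j => D.LL (u (L j)) + ∫ x, Real.log ‖D.dem x (v (L j) x)‖ ∂m) atTop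
        (𝓝 0) := by
      refine Tendsto.congr (fun j => (hsum (L j) (hL1 j)).symm) tendsto_const_nhds
    exact tendsto_nhds_unique h3 h4

end Pool.Agent.H728R2.FA
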