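import Pool.Agent.H728R2.FA.Base

open Set Filter Topology MeasureTheory
open scoped ComplexConjugate

namespace Pool.Agent.H728R2.FA

open Pool.Agent.H728R2.OS

namespace BVaux

instance probCirc : IsProbabilityMeasure (volume : Measure Circ) :=
  ⟨by rw [AddCircle.measure_univ]; simp⟩

lemma norm_e (y : Circ) : ‖e y‖ = 1 := by
  unfold e
  exact Circle.norm_coe _

lemma e_ne (y : Circ) : e y ≠ 0 := by
  intro h
  have := norm_e y
  rw [h] at this
  simp at this

lemma conj_e (y : Circ) : conj (e y) = (e y)⁻¹ := by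
  unfold e
  rw [← Circle.coe_inv, Circle.coe_inv_eq_conj]

lemma cont_e : Continuous e := by
  unfold e
  have := AddCircle.continuous_toCircle (T := 1)
  fun_prop

lemma zpow_e (n : ℤ) (y : Circ) : e y ^ n = fourier n y := by
  rw [fourier_apply, AddCircle.toCircle_zsmul]
  unfold e
  rw [Circle.coe_zpow]

lemma int_zpow {n : ℤ} (hn : n ≠ 0) : ∫ y : Circ, e y ^ n = 0 := by
  refine integral_eq_zero_of_add_right_eq_neg (g := (((1 : ℝ) / 2 / (n : ℝ) : ℝ) : Circ)) fun y => ?_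
  rw [zpow_e, zpow_e]
  exact fourier_add_half_inv_index hn one_pos y

lemma integrable_cont {F : Circ → ℂ} (hF : Continuous F) : Integrable F :=
  hF.integrable_of_hasCompactSupport (HasCompactSupport.of_compactSpace F)

lemma int_coeff (j k : ℕ) : ∫ y : Circ, conj (e y) ^ j * e y ^ k = if k = j then 1 else 0 := by
  have h : ∀ y : Circ, conj (e y) ^ j * e y ^ k = e y ^ ((k : ℤ) - (j : ℤ)) := by
    intro y
    rw [conj_e, zpow_sub₀ (e_ne y), zpow_natCast, zpow_natCast, inv_pow, div_eq_mul_inv, mul_comm]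
  rw [integral_congr_ae (Eventually.of_forall h)]
  split_ifs with hjk
  · subst hjk
    simp
  · exact int_zpow (by omega)

/-- the coefficients of an absolutely convergent series -/
lemma coeff_eq {b : ℕ → ℂ} (hb : Summable fun k => ‖b k‖) {F : Circ → ℂ}
    (hF : ∀ y, HasSum (fun k => b k * e y ^ k) (F y)) (j : ℕ) :
    ∫ y : Circ, conj (e y) ^ j * F y = b j := by
  have h1 : ∀ k, Integrable (fun y : Circ => conj (e y) ^ j * (b k * e y ^ k)) := fun k =>
    integrable_cont (((Complex.continuous_conj.comp cont_e).pow j).mul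
      (continuous_const.mul (cont_e.pow k)))
  have h2 : ∀ k, ∫ y : Circ, ‖conj (e y) ^ j * (b k * e y ^ k)‖ = ‖b k‖ := by
    intro k
    have : ∀ y : Circ, ‖conj (e y) ^ j * (b k * e y ^ k)‖ = ‖b k‖ := fun y => by
      rw [norm_mul, norm_mul, norm_pow, norm_pow, RCLike.norm_conj, norm_e]; simp
    rw [integral_congr_ae (Eventually.of_forall this)]
    simp
  have h3 := hasSum_integral_of_summable_integral_norm h1 (by simpa only [h2] using hb)
  have h4 : ∀ k, ∫ y : Circ, conj (e y) ^ j * (b k * e y ^ k) = if k = j then b k else 0 := by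
    intro k
    have : ∀ y : Circ, conj (e y) ^ j * (b k * e y ^ k) = b k * (conj (e y) ^ j * e y ^ k) :=
      fun y => by ring
    rw [integral_congr_ae (Eventually.of_forall this), integral_const_mul, int_coeff]
    split_ifs <;> simp
  have h5 : (∫ y : Circ, ∑' k, conj (e y) ^ j * (b k * e y ^ k)) =
      ∫ y : Circ, conj (e y) ^ j * F y := by
    refine integral_congr_ae (Eventually.of_forall fun y => ?_)
    simp only
    rw [tsum_mul_left, (hF y).tsum_eq]
  rw [h5] at h3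
  simp only [h4] at h3
  have h6 : HasSum (fun k => if k = j then b k else 0) (b j) := by
    have := hasSum_single (f := fun k => if k = j then b k else 0) j (fun k hk => if_neg hk)
    simpa using this
  exact h3.unique h6

/-- Parseval's identity for absolutely convergent series -/
lemma parseval {b : ℕ → ℂ} (hb : Summable fun k => ‖b k‖) {F : Circ → ℂ} (hFc : Continuous F)
    (hF : ∀ y, HasSum (fun k => b k * e y ^ k) (F y)) :
    HasSum (fun k => ‖b k‖ ^ 2) (∫ y : Circ, ‖F y‖ ^ 2) := by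
  have h1 : ∀ j, Integrable (fun y : Circ => conj (b j) * (conj (e y) ^ j * F y)) := fun j =>
    integrable_cont (continuous_const.mul (((Complex.continuous_conj.comp cont_e).pow j).mul hFc))
  have h2 : ∀ j, ∫ y : Circ, ‖conj (b j) * (conj (e y) ^ j * F y)‖ =
      ‖b j‖ * ∫ y : Circ, ‖F y‖ := by
    intro j
    rw [← integral_const_mul]
    refine integral_congr_ae (Eventually.of_forall fun y => ?_)
    simp only
    rw [norm_mul, norm_mul, norm_pow, RCLike.norm_conj, RCLike.norm_conj, norm_e]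
    simp
  have h3 := hasSum_integral_of_summable_integral_norm h1 (by
    simp only [h2]
    exact hb.mul_right _)
  have h4 : ∀ j, ∫ y : Circ, conj (b j) * (conj (e y) ^ j * F y) = ((‖b j‖ ^ 2 : ℝ) : ℂ) := by
    intro j
    rw [integral_const_mul, coeff_eq hb hF, Complex.conj_mul']
    push_cast
    rfl
  have h5 : (∫ y : Circ, ∑' j, conj (b j) * (conj (e y) ^ j * F y)) =
      ((∫ y : Circ, ‖F y‖ ^ 2 : ℝ) : ℂ) := by
    rw [← integral_complex_ofReal]
    refine integral_congr_ae (Eventually.of_forall fun y => ?_)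
    simp only
    have h6 : HasSum (fun j => conj (b j) * conj (e y) ^ j) (conj (F y)) := by
      have := Complex.conjCLE.toContinuousLinearMap.hasSum (hF y)
      simpa using this
    have h7 : HasSum (fun j => conj (b j) * (conj (e y) ^ j * F y)) (conj (F y) * F y) := by
      have := h6.mul_right (F y)
      simpa only [mul_assoc] using this
    rw [h7.tsum_eq, Complex.conj_mul']
    push_cast
    rfl
  rw [h5] at h3
  simp only [h4] at h3
  have h8 := Complex.reCLM.hasSum h3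
  exact h8

/-! ### one holomorphic function -/

/-- Taylor coefficients -/
noncomputable def cf (g : ℂ → ℂ) (k : ℕ) : ℂ := (k.factorial : ℂ)⁻¹ * iteratedDeriv k g 0

lemma hs {g : ℂ → ℂ} (hg : DifferentiableOn ℂ g (Metric.ball 0 1)) {z : ℂ} (hz : ‖z‖ < 1) :
    HasSum (fun k => cf g k * z ^ k) (g z) := by
  have h := Complex.hasSum_taylorSeries_on_ball hg (z := z) (by simpa using hz)
  have e1 : (fun k : ℕ => cf g k * z ^ k) =
      fun n : ℕ => ((n.factorial : ℂ))⁻¹ • (z - 0) ^ n • iteratedDeriv n g 0 := by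
    funext k
    simp only [cf, sub_zero, smul_eq_mul]
    ring
  rw [e1]
  exact h

lemma summ {g : ℂ → ℂ} (hg : DifferentiableOn ℂ g (Metric.ball 0 1)) {r : ℝ} (h0 : 0 ≤ r)
    (h1 : r < 1) : Summable fun k => ‖cf g k‖ * r ^ k := by
  have h := (hs hg (z := (r : ℂ)) (by
    rw [Complex.norm_real, Real.norm_eq_abs, abs_of_nonneg h0]; exact h1)).summable.norm
  refine h.congr fun k => ?_
  rw [norm_mul, norm_pow, Complex.norm_real, Real.norm_eq_abs, abs_of_nonneg h0]

lemma norm_re {r : ℝ} (h0 : 0 ≤ r) (y : Circ) : ‖(r : ℂ) * e y‖ = r := by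
  rw [norm_mul, norm_e, Complex.norm_real, Real.norm_eq_abs, abs_of_nonneg h0, mul_one]

lemma cont_g {g : ℂ → ℂ} (hg : DifferentiableOn ℂ g (Metric.ball 0 1)) {r : ℝ} (h0 : 0 ≤ r)
    (h1 : r < 1) : Continuous fun y : Circ => g ((r : ℂ) * e y) := by
  refine hg.continuousOn.comp_continuous (continuous_const.mul cont_e) fun y => ?_
  rw [mem_ball_zero_iff, norm_re h0]
  exact h1

lemma sq_sum {g : ℂ → ℂ} (hg : DifferentiableOn ℂ g (Metric.ball 0 1)) {r s : ℝ} (h0 : 0 ≤ r)
    (h1 : r < 1) (h2 : 0 ≤ s) (h3 : s < 1) (t : ℝ) :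
    HasSum (fun k => ‖cf g k‖ ^ 2 * (r ^ k - t * s ^ k) ^ 2)
      (∫ y : Circ, ‖g ((r : ℂ) * e y) - t * g ((s : ℂ) * e y)‖ ^ 2) := by
  have hb : Summable fun k => ‖cf g k * ((r ^ k - t * s ^ k : ℝ) : ℂ)‖ := by
    refine Summable.of_nonneg_of_le (fun _ => norm_nonneg _) (fun k => ?_)
      ((summ hg h0 h1).add ((summ hg h2 h3).mul_left |t|))
    rw [norm_mul, Complex.norm_real, Real.norm_eq_abs]
    have : |r ^ k - t * s ^ k| ≤ r ^ k + |t| * s ^ k := by
      refine (abs_sub _ _).trans ?_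
      rw [abs_of_nonneg (pow_nonneg h0 k), abs_mul, abs_of_nonneg (pow_nonneg h2 k)]
    calc ‖cf g k‖ * |r ^ k - t * s ^ k| ≤ ‖cf g k‖ * (r ^ k + |t| * s ^ k) :=
        mul_le_mul_of_nonneg_left this (norm_nonneg _)
      _ = _ := by ring
  have hF : ∀ y : Circ, HasSum (fun k => cf g k * ((r ^ k - t * s ^ k : ℝ) : ℂ) * e y ^ k)
      (g ((r : ℂ) * e y) - t * g ((s : ℂ) * e y)) := by
    intro y
    have a1 := hs hg (z := (r : ℂ) * e y) (by rw [norm_re h0]; exact h1)
    have a2 := (hs hg (z := (s : ℂ) * e y) (by rw [norm_re h2]; exact h3)).mul_left (t : ℂ)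
    have a3 := a1.sub a2
    have e1 : (fun k => cf g k * ((r ^ k - t * s ^ k : ℝ) : ℂ) * e y ^ k) =
        fun k => cf g k * ((r : ℂ) * e y) ^ k - (t : ℂ) * (cf g k * ((s : ℂ) * e y) ^ k) := by
      funext k
      push_cast
      ring
    rw [e1]
    exact a3
  have h := parseval hb ((cont_g hg h0 h1).sub (continuous_const.mul (cont_g hg h2 h3))) hF
  have e2 : (fun k => ‖cf g k‖ ^ 2 * (r ^ k - t * s ^ k) ^ 2) =
      fun k => ‖cf g k * ((r ^ k - t * s ^ k : ℝ) : ℂ)‖ ^ 2 := by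
    funext k
    rw [norm_mul, Complex.norm_real, Real.norm_eq_abs, mul_pow, sq_abs]
  rw [e2]
  exact h

lemma coef_bound {g : ℂ → ℂ} (hg : DifferentiableOn ℂ g (Metric.ball 0 1))
    (hb : ∀ l, ‖l‖ < 1 → ‖g l‖ ≤ 1) (N : ℕ) : ∑ k ∈ Finset.range N, ‖cf g k‖ ^ 2 ≤ 1 := by
  have h1 : ∀ r : ℝ, 0 ≤ r → r < 1 →
      ∑ k ∈ Finset.range N, ‖cf g k‖ ^ 2 * (r ^ k - 0 * r ^ k) ^ 2 ≤ 1 := by
    intro r h0 h1
    have h := sq_sum hg h0 h1 h0 h1 0
    refine (sum_le_hasSum _ (fun _ _ => by positivity) h).trans ?_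
    have h2 : ∀ y : Circ, ‖g ((r : ℂ) * e y) - ((0 : ℝ) : ℂ) * g ((r : ℂ) * e y)‖ ^ 2 ≤ 1 := by
      intro y
      have := hb ((r : ℂ) * e y) (by rw [norm_re h0]; exact h1)
      simp only [Complex.ofReal_zero, zero_mul, sub_zero]
      exact pow_le_one₀ (norm_nonneg _) this
    calc ∫ y : Circ, ‖g ((r : ℂ) * e y) - ((0 : ℝ) : ℂ) * g ((r : ℂ) * e y)‖ ^ 2
        ≤ ∫ _y : Circ, (1 : ℝ) := by
          refine integral_mono_of_nonneg (Eventually.of_forall fun y => by positivity)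
            (integrable_const _) (Eventually.of_forall h2)
      _ = 1 := by simp
  have h2 : Tendsto (fun r : ℝ => ∑ k ∈ Finset.range N, ‖cf g k‖ ^ 2 * (r ^ k - 0 * r ^ k) ^ 2)
      (𝓝[<] 1) (𝓝 (∑ k ∈ Finset.range N, ‖cf g k‖ ^ 2 * ((1 : ℝ) ^ k - 0 * 1 ^ k) ^ 2)) := by
    refine Tendsto.mono_left ?_ nhdsWithin_le_nhds
    have : Continuous fun r : ℝ =>
      ∑ k ∈ Finset.range N, ‖cf g k‖ ^ 2 * (r ^ k - 0 * r ^ k) ^ 2 := by fun_prop
    exact this.tendsto 1
  have h3 := le_of_tendsto h2 (by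
    filter_upwards [Ioo_mem_nhdsLT (show (0 : ℝ) < 1 by norm_num)] with r hr
    exact h1 r hr.1.le hr.2)
  simpa using h3

lemma coef_summable {g : ℂ → ℂ} (hg : DifferentiableOn ℂ g (Metric.ball 0 1))
    (hb : ∀ l, ‖l‖ < 1 → ‖g l‖ ≤ 1) : Summable fun k => ‖cf g k‖ ^ 2 :=
  summable_of_sum_range_le (fun _ => by positivity) (coef_bound hg hb)

/-- the traces on the circles of radius `r j` form a Cauchy sequence -/
lemma tendsto_one {g : ℂ → ℂ} (hg : DifferentiableOn ℂ g (Metric.ball 0 1))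
    (hb : ∀ l, ‖l‖ < 1 → ‖g l‖ ≤ 1) {r : ℕ → ℝ} (hr : ∀ j, 0 < r j ∧ r j < 1)
    (hr1 : Tendsto r atTop (𝓝 1)) :
    Tendsto (fun p : ℕ × ℕ => ∫ y : Circ, ‖g ((r p.1 : ℂ) * e y) - g ((r p.2 : ℂ) * e y)‖ ^ 2)
      atTop (𝓝 0) := by
  have h1 : ∀ p : ℕ × ℕ, ∫ y : Circ, ‖g ((r p.1 : ℂ) * e y) - g ((r p.2 : ℂ) * e y)‖ ^ 2 =
      ∑' k, ‖cf g k‖ ^ 2 * (r p.1 ^ k - 1 * r p.2 ^ k) ^ 2 := by
    intro p
    have := sq_sum hg (hr p.1).1.le (hr p.1).2 (hr p.2).1.le (hr p.2).2 1
    rw [this.tsum_eq]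
    simp
  simp only [h1]
  have h2 : (0 : ℝ) = ∑' k, ‖cf g k‖ ^ 2 * ((1 : ℝ) ^ k - 1 * 1 ^ k) ^ 2 := by simp
  rw [h2]
  have t1 : Tendsto (fun p : ℕ × ℕ => r p.1) atTop (𝓝 1) :=
    hr1.comp (by rw [← prod_atTop_atTop_eq]; exact tendsto_fst)
  have t2 : Tendsto (fun p : ℕ × ℕ => r p.2) atTop (𝓝 1) :=
    hr1.comp (by rw [← prod_atTop_atTop_eq]; exact tendsto_snd)
  refine tendsto_tsum_of_dominated_convergence (coef_summable hg hb) (fun k => ?_)
    (Eventually.of_forall fun p k => ?_)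
  · exact (((t1.pow k).sub ((t2.pow k).const_mul 1)).pow 2).const_mul _
  · rw [Real.norm_eq_abs, abs_of_nonneg (by positivity)]
    refine mul_le_of_le_one_right (by positivity) ?_
    have a1 := pow_nonneg (hr p.1).1.le k
    have a2 := pow_nonneg (hr p.2).1.le k
    have a3 := pow_le_one₀ (n := k) (hr p.1).1.le (hr p.1).2.le
    have a4 := pow_le_one₀ (n := k) (hr p.2).1.le (hr p.2).2.le
    nlinarith

end BVaux

open BVaux in
/-- Boundary values of a bounded holomorphic function depending measurably on a parameter. -/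
theorem boundary_values {B : Type*} [MeasurableSpace B] (m : Measure B) [IsProbabilityMeasure m]
    (w : ℂ → B → ℂ) (hol : ∀ x, DifferentiableOn ℂ (fun l => w l x) (Metric.ball 0 1))
    (meas : ∀ l, ‖l‖ < 1 → Measurable (w l)) (bd : ∀ l x, ‖l‖ < 1 → ‖w l x‖ ≤ 1)
    (r : ℕ → ℝ) (hr : ∀ j, 0 < r j ∧ r j < 1) (hr1 : Tendsto r atTop (𝓝 1)) :
    ∃ (φ : ℕ → ℕ) (W : Circ → B → ℂ), StrictMono φ ∧ Measurable (Function.uncurry W) ∧
      (∀ θ x, ‖W θ x‖ ≤ 1) ∧ ∀ᵐ p : Circ × B ∂(volume.prod m),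
        Tendsto (fun j => w (r (φ j) * e p.1) p.2) atTop (𝓝 (W p.1 p.2)) := by
  classical
  set f : ℕ → Circ × B → ℂ := fun j p => w (r j * e p.1) p.2 with hf
  have hlt : ∀ j (y : Circ), ‖(r j : ℂ) * e y‖ < 1 := fun j y => by
    rw [norm_re (hr j).1.le]; exact (hr j).2
  have hfm : ∀ j, Measurable (f j) := fun j => by
    have h1 : Measurable (Function.uncurry fun (y : Circ) (x : B) => w ((r j : ℂ) * e y) x) :=
      measurable_uncurry_of_continuous_of_measurable
        (fun x => cont_g (hol x) (hr j).1.le (hr j).2) (fun y => meas _ (hlt j y))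
    exact h1
  have hfb : ∀ j p, ‖f j p‖ ≤ 1 := fun j p => bd _ _ (hlt j p.1)
  have hmem : ∀ j, MemLp (f j) 2 (volume.prod m) := fun j =>
    MemLp.of_bound (hfm j).aestronglyMeasurable 1 (Eventually.of_forall (hfb j))
  have hsqb : ∀ i j p, ‖f i p - f j p‖ ^ 2 ≤ 4 := by
    intro i j p
    have h1 : ‖f i p - f j p‖ ≤ 2 := (norm_sub_le _ _).trans (by linarith [hfb i p, hfb j p])
    nlinarith [norm_nonneg (f i p - f j p)]
  have hsqm : ∀ i j, Measurable fun p => ‖f i p - f j p‖ ^ 2 := fun i j =>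
    ((hfm i).sub (hfm j)).norm.pow_const 2
  have hint : ∀ i j, Integrable (fun p => ‖f i p - f j p‖ ^ 2) (volume.prod m) := fun i j =>
    Integrable.of_bound (hsqm i j).aestronglyMeasurable 4 (Eventually.of_forall fun p => by
      rw [Real.norm_eq_abs, abs_of_nonneg (by positivity)]
      exact hsqb i j p)
  -- Cauchy in mean square
  have hE : Tendsto (fun p : ℕ × ℕ => ∫ q, ‖f p.1 q - f p.2 q‖ ^ 2 ∂(volume.prod m)) atTop
      (𝓝 0) := by
    have h1 : ∀ p : ℕ × ℕ, ∫ q, ‖f p.1 q - f p.2 q‖ ^ 2 ∂(volume.prod m) =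
        ∫ x, (∫ y : Circ, ‖f p.1 (y, x) - f p.2 (y, x)‖ ^ 2) ∂m := fun p =>
      integral_prod_symm _ (hint p.1 p.2)
    simp only [h1]
    have h2 : (0 : ℝ) = ∫ _x, (0 : ℝ) ∂m := by simp
    rw [h2]
    refine tendsto_integral_filter_of_dominated_convergence (fun _ => 4)
      (Eventually.of_forall fun p => ?_) (Eventually.of_forall fun p => ?_)
      (integrable_const _) (Eventually.of_forall fun x => ?_)
    · have := (hsqm p.1 p.2).stronglyMeasurable
      exact (this.integral_prod_left' (μ := (volume : Measure Circ))).aestronglyMeasurable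
    · refine Eventually.of_forall fun x => ?_
      rw [Real.norm_eq_abs, abs_of_nonneg (integral_nonneg fun y => by positivity)]
      calc ∫ y : Circ, ‖f p.1 (y, x) - f p.2 (y, x)‖ ^ 2 ≤ ∫ _y : Circ, (4 : ℝ) :=
          integral_mono_of_nonneg (Eventually.of_forall fun y => by positivity)
            (integrable_const _) (Eventually.of_forall fun y => hsqb _ _ _)
        _ = 4 := by simp
    · exact tendsto_one (hol x) (fun l hl => bd l x hl) hr hr1
  have hL : Tendsto (fun p : ℕ × ℕ => eLpNorm (f p.1 - f p.2) 2 (volume.prod m)) atTop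
      (𝓝 0) := by
    have h1 : ∀ p : ℕ × ℕ, eLpNorm (f p.1 - f p.2) 2 (volume.prod m) = ENNReal.ofReal
        ((∫ q, ‖f p.1 q - f p.2 q‖ ^ 2 ∂(volume.prod m)) ^ ((2 : ℝ)⁻¹)) := by
      intro p
      rw [((hmem p.1).sub (hmem p.2)).eLpNorm_eq_integral_rpow_norm (by norm_num) (by norm_num)]
      simp
    simp only [h1]
    have h2 : (0 : ENNReal) = ENNReal.ofReal ((0 : ℝ) ^ ((2 : ℝ)⁻¹)) := by simp
    rw [h2]
    exact ENNReal.tendsto_ofReal
      ((Real.continuousAt_rpow_const 0 _ (Or.inr (by norm_num))).tendsto.comp hE)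
  -- the limit
  have hC : CauchySeq fun j => (hmem j).toLp (f j) := by
    rw [Lp.cauchySeq_Lp_iff_cauchySeq_eLpNorm]
    refine hL.congr fun p => ?_
    refine eLpNorm_congr_ae ?_
    filter_upwards [(hmem p.1).coeFn_toLp, (hmem p.2).coeFn_toLp] with q h1 h2
    rw [Pi.sub_apply, Pi.sub_apply, h1, h2]
  obtain ⟨g, hg⟩ := cauchySeq_tendsto_of_complete hC
  obtain ⟨φ, hφ, hae⟩ := (tendstoInMeasure_of_tendsto_Lp hg).exists_seq_tendsto_ae
  have hae2 : ∀ᵐ q ∂(volume.prod m), ∀ j, ((hmem j).toLp (f j) : Circ × B → ℂ) q = f j q := by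
    rw [ae_all_iff]
    exact fun j => (hmem j).coeFn_toLp
  set W0 : Circ × B → ℂ := (Lp.aestronglyMeasurable g).mk g with hW0
  have hW0m : Measurable W0 := (Lp.aestronglyMeasurable g).stronglyMeasurable_mk.measurable
  refine ⟨φ, fun y x => if ‖W0 (y, x)‖ ≤ 1 then W0 (y, x) else 0, hφ, ?_, ?_, ?_⟩
  · exact Measurable.ite (measurableSet_le hW0m.norm measurable_const) hW0m measurable_const
  · intro y x
    simp only
    split_ifs with h
    · exact h
    · simp
  · filter_upwards [hae, hae2, (Lp.aestronglyMeasurable g).ae_eq_mk] with q h1 h2 h3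
    have h4 : Tendsto (fun j => f (φ j) q) atTop (𝓝 (W0 q)) := by
      rw [hW0, ← h3]
      refine h1.congr fun j => h2 (φ j)
    have h5 : ‖W0 q‖ ≤ 1 := le_of_tendsto h4.norm (Eventually.of_forall fun j => hfb _ _)
    have h6 : (if ‖W0 (q.1, q.2)‖ ≤ 1 then W0 (q.1, q.2) else 0) = W0 q := if_pos h5
    rw [h6]
    exact h4

end Pool.Agent.H728R2.FA
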