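import Pool.Agent.H728R2.FA.Base

open Set Filter Topology MeasureTheory
open scoped ComplexConjugate

namespace Pool.Agent.H728R2.FA

open Pool.Agent.H728R2.OS

namespace CONTR

variable {B : Type*} [MeasurableSpace B] {m : Measure B}

lemma all_orbit (D : Coc B m) {P : B → Prop} (h : ∀ᵐ x ∂m, P x) :
    ∀ᵐ x ∂m, ∀ k : ℕ, P (D.T^[k] x) := by
  rw [ae_all_iff]
  intro k
  exact (D.erg.toMeasurePreserving.iterate k).quasiMeasurePreserving.ae h

lemma norm_id (a b w : ℂ) :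
    ‖conj b * w + conj a‖ ^ 2 - ‖a * w + b‖ ^ 2 = (‖a‖ ^ 2 - ‖b‖ ^ 2) * (1 - ‖w‖ ^ 2) := by
  simp only [← Complex.normSq_eq_norm_sq, Complex.normSq_apply, Complex.add_re, Complex.add_im,
    Complex.mul_re, Complex.mul_im, Complex.conj_re, Complex.conj_im]
  ring

/-- The circle is invariant. -/
lemma norm_G (D : Coc B m) (l : ℂ) (hl : ‖l‖ = 1) (x : B) (w : ℂ) (hw : ‖w‖ = 1)
    (hd : D.den x w ≠ 0) : ‖D.G l x w‖ = 1 := by
  have h1 := norm_id (D.a x) (D.b x) w
  rw [hw, one_pow, sub_self, mul_zero, sub_eq_zero] at h1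
  have h2 : ‖conj (D.b x) * w + conj (D.a x)‖ = ‖D.a x * w + D.b x‖ := by
    have := congrArg Real.sqrt h1
    rwa [Real.sqrt_sq (norm_nonneg _), Real.sqrt_sq (norm_nonneg _)] at this
  unfold Coc.G
  rw [norm_div, norm_mul, hl, one_mul, ← h2]
  unfold Coc.den at *
  exact div_self (norm_ne_zero_iff.2 hd)

lemma norm_it (D : Coc B m) (l : ℂ) (hl : ‖l‖ = 1) (x : B) (w : ℂ) (hw : ‖w‖ = 1)
    (hd : ∀ x w, ‖w‖ ≤ 1 → D.den x w ≠ 0) (n : ℕ) : ‖D.it l n x w‖ = 1 := by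
  induction n with
  | zero => exact hw
  | succ n ih => exact norm_G D l hl _ _ ih (hd _ _ ih.le)

end CONTR

/-- Contraction towards the boundary section if the exponent is positive. -/
theorem contraction {B : Type*} [MeasurableSpace B] {m : Measure B} [IsProbabilityMeasure m]
    (D : Coc B m) (l : ℂ) (hl : ‖l‖ = 1) (U V : B → ℂ) (mU : Measurable U) (mV : Measurable V)
    (bU : ∀ x, ‖U x‖ ≤ 1) (bV : ∀ x, ‖V x‖ ≤ 1)
    (hden : ∀ x w, ‖w‖ ≤ 1 → 1 ≤ D.M ∧ (2 * D.M)⁻¹ ≤ ‖D.den x w‖ ∧ ‖D.den x w‖ ≤ 2 * D.M)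
    (hdem : ∀ x w, ‖w‖ ≤ 1 → (2 * D.M)⁻¹ ≤ ‖D.dem x w‖ ∧ ‖D.dem x w‖ ≤ 2 * D.M)
    (hU : ∀ᵐ x ∂m, U (D.T x) = D.G l x (U x))
    (hV : ∀ᵐ x ∂m, l * V (D.T x) * D.dem x (V x) = conj (D.a x) * V x + conj (D.b x))
    (hrel : ∀ᵐ x ∂m, 1 - U x * V x = D.den x (U x) * D.dem x (V x) *
      (1 - U (D.T x) * V (D.T x)))
    (hsum : D.LL U + ∫ x, Real.log ‖D.dem x (V x)‖ ∂m = 0) (hpos : 0 < D.LL U)
    (hbirk : ∀ φ : B → ℝ, Measurable φ → (∃ C, ∀ x, |φ x| ≤ C) → ∀ᵐ x ∂m,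
      Tendsto (fun n : ℕ => (n : ℝ)⁻¹ * ∑ k ∈ Finset.range n, φ (D.T^[k] x)) atTop
        (𝓝 (∫ x, φ x ∂m))) :
    ∀ᵐ x ∂m, ∀ w : ℂ, ‖w‖ = 1 → V x * w ≠ 1 →
      Tendsto (fun n => D.it l n x w - U (D.T^[n] x)) atTop (𝓝 0) := by
  have hden0 : ∀ x w, ‖w‖ ≤ 1 → D.den x w ≠ 0 := by
    intro x w hw
    obtain ⟨h1, h2, -⟩ := hden x w hw
    have : 0 < (2 * D.M)⁻¹ := by positivity
    exact norm_pos_iff.1 (this.trans_le h2)
  have hdem0 : ∀ x w, ‖w‖ ≤ 1 → D.dem x w ≠ 0 := by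
    intro x w hw
    obtain ⟨h1, -, -⟩ := hden x w hw
    obtain ⟨h2, -⟩ := hdem x w hw
    have : 0 < (2 * D.M)⁻¹ := by positivity
    exact norm_pos_iff.1 (this.trans_le h2)
  -- step 1
  have hZ : ∀ᵐ x ∂m, 1 - U x * V x ≠ 0 := by
    set Z : Set B := {x | 1 - U x * V x = 0} with hZdef
    have mZ : MeasurableSet Z := (measurable_const.sub (mU.mul mV)) (measurableSet_singleton 0)
    have hinvZ : D.T ⁻¹' Z =ᵐ[m] Z := by
      filter_upwards [hrel] with x hx
      apply propext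
      change (1 - U (D.T x) * V (D.T x) = 0) ↔ (1 - U x * V x = 0)
      rw [hx]
      simp [hden0 x _ (bU x), hdem0 x _ (bV x)]
    rcases D.erg.quasiErgodic.ae_empty_or_univ₀ mZ.nullMeasurableSet hinvZ with h | h
    · filter_upwards [h] with x hx hx0
      have : (x ∈ Z) = (x ∈ (∅ : Set B)) := hx
      have h2 : x ∈ Z := hx0
      rw [this] at h2
      exact h2
    · exfalso
      have hall : ∀ᵐ x ∂m, U x * V x = 1 := by
        filter_upwards [h] with x hx
        have : (x ∈ Z) = (x ∈ (univ : Set B)) := hx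
        have h2 : x ∈ Z := by rw [this]; trivial
        exact (sub_eq_zero.1 h2).symm
      have hall' : ∀ᵐ x ∂m, U (D.T x) * V (D.T x) = 1 :=
        D.erg.toMeasurePreserving.quasiMeasurePreserving.ae hall
      have hone : ∀ x, U x * V x = 1 → ‖U x‖ = 1 := by
        intro x hx
        have h1 : ‖U x‖ * ‖V x‖ = 1 := by rw [← norm_mul, hx, norm_one]
        have h2 := bU x
        have h3 := bV x
        nlinarith [norm_nonneg (U x), norm_nonneg (V x)]
      have heq : (fun x => Real.log ‖D.dem x (V x)‖) =ᵐ[m]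
          fun x => Real.log ‖D.den x (U x)‖ := by
        filter_upwards [hall, hall', hU] with x h1 h2 h3
        congr 1
        have h4 := hone x h1
        have h5 := hone _ h2
        have h6 : ‖D.dem x (V x)‖ = ‖D.a x * U x + D.b x‖ := by
          have : D.a x * U x + D.b x = U x * D.dem x (V x) := by
            unfold Coc.dem
            linear_combination (-D.b x) * h1
          rw [this, norm_mul, h4, one_mul]
        have h7 : ‖D.G l x (U x)‖ = 1 := by rw [← h3, h5]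
        unfold Coc.G at h7
        rw [norm_div, norm_mul, hl, one_mul,
          div_eq_one_iff_eq (norm_ne_zero_iff.2 (hden0 x _ (bU x)))] at h7
        rw [h6, h7]
      rw [integral_congr_ae heq] at hsum
      have : D.LL U = ∫ x, Real.log ‖D.den x (U x)‖ ∂m := rfl
      linarith
  -- step 2
  have mden : Measurable fun x => D.den x (U x) := by
    unfold Coc.den
    have h1 : Measurable fun x => (starRingEnd ℂ) (D.b x) :=
      Complex.continuous_conj.measurable.comp D.mb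
    have h2 : Measurable fun x => (starRingEnd ℂ) (D.a x) :=
      Complex.continuous_conj.measurable.comp D.ma
    exact (h1.mul mU).add h2
  have mdem : Measurable fun x => D.dem x (V x) := by
    unfold Coc.dem
    exact D.ma.add (D.mb.mul mV)
  have blog : ∀ t M : ℝ, 1 ≤ M → (2 * M)⁻¹ ≤ t → t ≤ 2 * M → |Real.log t| ≤ Real.log (2 * M) := by
    intro t M hM h1 h2
    have h0 : 0 < (2 * M)⁻¹ := by positivity
    have ht : 0 < t := h0.trans_le h1
    rw [abs_le]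
    constructor
    · rw [← Real.log_inv]
      exact Real.log_le_log h0 h1
    · exact Real.log_le_log ht h2
  have hb1 := hbirk (fun x => Real.log ‖D.den x (U x)‖) (Real.measurable_log.comp mden.norm)
    ⟨Real.log (2 * D.M), fun x => blog _ _ (hden x _ (bU x)).1 (hden x _ (bU x)).2.1
      (hden x _ (bU x)).2.2⟩
  have hb2 := hbirk (fun x => Real.log ‖D.dem x (V x)‖) (Real.measurable_log.comp mdem.norm)
    ⟨Real.log (2 * D.M), fun x => blog _ _ (hden x _ (bU x)).1 (hdem x _ (bV x)).1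
      (hdem x _ (bV x)).2⟩
  filter_upwards [hb1, hb2, CONTR.all_orbit D hU, CONTR.all_orbit D hV, CONTR.all_orbit D hZ]
    with x hx1 hx2 hUx hVx hZx
  intro w hw hVw
  -- the products
  set Un : ℕ → ℂ := fun n => U (D.T^[n] x) with hUn
  set Vn : ℕ → ℂ := fun n => V (D.T^[n] x) with hVn
  set Cn : ℕ → ℂ := fun n => ∏ k ∈ Finset.range n, D.den (D.T^[k] x) (Un k) with hCn
  set Dn : ℕ → ℂ := fun n => l ^ n * ∏ k ∈ Finset.range n, D.dem (D.T^[k] x) (Vn k) with hDn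
  have hC0 : ∀ n, Cn n ≠ 0 := fun n => Finset.prod_ne_zero_iff.2 fun k _ => hden0 _ _ (bU _)
  have hratio : Tendsto (fun n => ‖Dn n‖ / ‖Cn n‖) atTop (𝓝 0) := by
    have h1 : ∀ n, ‖Dn n‖ / ‖Cn n‖ = Real.exp (∑ k ∈ Finset.range n,
        Real.log ‖D.dem (D.T^[k] x) (Vn k)‖ - ∑ k ∈ Finset.range n,
        Real.log ‖D.den (D.T^[k] x) (Un k)‖) := by
      intro n
      rw [Real.exp_sub, Real.exp_sum, Real.exp_sum]
      simp only [hDn, hCn, norm_mul, norm_pow, hl, one_pow, one_mul, norm_prod]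
      congr 1
      · refine Finset.prod_congr rfl fun k _ => ?_
        rw [Real.exp_log (norm_pos_iff.2 (hdem0 _ _ (bV _)))]
      · refine Finset.prod_congr rfl fun k _ => ?_
        rw [Real.exp_log (norm_pos_iff.2 (hden0 _ _ (bU _)))]
    simp_rw [h1]
    apply Real.tendsto_exp_atBot.comp
    have h2 := hx2.sub hx1
    have h3 : (∫ x, Real.log ‖D.dem x (V x)‖ ∂m) - (∫ x, Real.log ‖D.den x (U x)‖ ∂m)
        = -(2 * D.LL U) := by
      have : D.LL U = ∫ x, Real.log ‖D.den x (U x)‖ ∂m := rfl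
      linarith
    rw [h3] at h2
    have h4 : Tendsto (fun n : ℕ => (n : ℝ) * ((n : ℝ)⁻¹ * (∑ k ∈ Finset.range n,
        Real.log ‖D.dem (D.T^[k] x) (Vn k)‖) - (n : ℝ)⁻¹ * ∑ k ∈ Finset.range n,
        Real.log ‖D.den (D.T^[k] x) (Un k)‖)) atTop atBot :=
      Tendsto.atTop_mul_neg (by linarith) tendsto_natCast_atTop_atTop h2
    refine h4.congr' ?_
    filter_upwards [eventually_ge_atTop 1] with n hn
    have : (n : ℝ) ≠ 0 := by positivity
    field_simp
  -- the decomposition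
  have hq0 : 1 - U x * V x ≠ 0 := hZx 0
  set α : ℂ := (1 - V x * w) / (1 - U x * V x) with hα
  set β : ℂ := (w - U x) / (1 - U x * V x) with hβ
  have hα0 : α ≠ 0 := div_ne_zero (sub_ne_zero.2 (Ne.symm hVw)) hq0
  have hdec : ∀ n, α * Cn n + β * Dn n * Vn n ≠ 0 ∧
      D.it l n x w * (α * Cn n + β * Dn n * Vn n) = α * Cn n * Un n + β * Dn n := by
    intro n
    induction n with
    | zero =>
      have e1 : α * Cn 0 + β * Dn 0 * Vn 0 = 1 := by
        simp only [hCn, hDn, hVn, Finset.range_zero, Finset.prod_empty, pow_zero,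
          Function.iterate_zero, id, mul_one, hα, hβ]
        rw [div_mul_eq_mul_div, ← add_div, div_eq_one_iff_eq hq0]
        ring
      have e2 : α * Cn 0 * Un 0 + β * Dn 0 = w := by
        simp only [hCn, hDn, hUn, Finset.range_zero, Finset.prod_empty, pow_zero,
          Function.iterate_zero, id, mul_one, hα, hβ]
        rw [div_mul_eq_mul_div, ← add_div, div_eq_iff hq0]
        ring
      rw [e1, e2]
      exact ⟨one_ne_zero, by simp [Coc.it]⟩
    | succ n ih =>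
      obtain ⟨ih1, ih2⟩ := ih
      have hin : ‖D.it l n x w‖ = 1 := CONTR.norm_it D l hl x w hw hden0 n
      have hd := hden0 (D.T^[n] x) _ hin.le
      have hsT : D.T^[n + 1] x = D.T (D.T^[n] x) := Function.iterate_succ_apply' _ _ _
      have hU' : Un (n + 1) * D.den (D.T^[n] x) (Un n) =
          l * (D.a (D.T^[n] x) * Un n + D.b (D.T^[n] x)) := by
        have := hUx n
        simp only [hUn, hsT]
        rw [this]
        unfold Coc.G
        rw [div_mul_cancel₀ _ (hden0 _ _ (bU _))]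
      have hV' : l * Vn (n + 1) * D.dem (D.T^[n] x) (Vn n) =
          conj (D.a (D.T^[n] x)) * Vn n + conj (D.b (D.T^[n] x)) := by
        have := hVx n
        simp only [hVn, hsT]
        exact this
      have hCs : Cn (n + 1) = Cn n * D.den (D.T^[n] x) (Un n) := by
        simp only [hCn, Finset.prod_range_succ]
      have hDs : Dn (n + 1) = Dn n * (l * D.dem (D.T^[n] x) (Vn n)) := by
        simp only [hDn, Finset.prod_range_succ, pow_succ]
        ring
      have e1 : α * Cn (n + 1) + β * Dn (n + 1) * Vn (n + 1) =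
          D.den (D.T^[n] x) (D.it l n x w) * (α * Cn n + β * Dn n * Vn n) := by
        rw [hCs, hDs]
        have e3 : D.den (D.T^[n] x) (D.it l n x w) * (α * Cn n + β * Dn n * Vn n) =
            conj (D.b (D.T^[n] x)) * (α * Cn n * Un n + β * Dn n) +
              conj (D.a (D.T^[n] x)) * (α * Cn n + β * Dn n * Vn n) := by
          rw [← ih2]
          unfold Coc.den
          ring
        rw [e3]
        have e4 : D.den (D.T^[n] x) (Un n) =
          conj (D.b (D.T^[n] x)) * Un n + conj (D.a (D.T^[n] x)) := rfl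
        rw [e4]
        linear_combination (β * Dn n) * hV'
      refine ⟨by rw [e1]; exact mul_ne_zero hd ih1, ?_⟩
      rw [e1]
      have e5 : D.it l (n + 1) x w * (D.den (D.T^[n] x) (D.it l n x w) *
          (α * Cn n + β * Dn n * Vn n)) =
          l * (D.a (D.T^[n] x) * D.it l n x w + D.b (D.T^[n] x)) *
          (α * Cn n + β * Dn n * Vn n) := by
        change D.G l (D.T^[n] x) (D.it l n x w) * _ = _
        unfold Coc.G
        field_simp
      rw [e5]
      have e6 : l * (D.a (D.T^[n] x) * D.it l n x w + D.b (D.T^[n] x)) *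
          (α * Cn n + β * Dn n * Vn n) =
          l * (D.a (D.T^[n] x) * (α * Cn n * Un n + β * Dn n) +
            D.b (D.T^[n] x) * (α * Cn n + β * Dn n * Vn n)) := by
        rw [← ih2]; ring
      rw [e6, hCs, hDs]
      have e7 : D.dem (D.T^[n] x) (Vn n) = D.a (D.T^[n] x) + D.b (D.T^[n] x) * Vn n := rfl
      rw [e7]
      linear_combination (-(α * Cn n)) * hU'
  -- the estimate
  clear_value Cn Dn
  have hαp : 0 < ‖α‖ := norm_pos_iff.2 hα0
  have hlim : Tendsto (fun n => ‖β‖ * (‖Dn n‖ / ‖Cn n‖) * 2 / (‖α‖ - ‖β‖ * (‖Dn n‖ / ‖Cn n‖)))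
      atTop (𝓝 0) := by
    have h1 : Tendsto (fun n => ‖β‖ * (‖Dn n‖ / ‖Cn n‖)) atTop (𝓝 0) := by
      simpa using hratio.const_mul ‖β‖
    have h2 := (h1.mul_const 2).div (tendsto_const_nhds.sub h1) (by rw [sub_zero]; exact hαp.ne')
    rw [zero_mul, zero_div] at h2
    exact h2
  rw [tendsto_zero_iff_norm_tendsto_zero]
  refine tendsto_of_tendsto_of_tendsto_of_le_of_le' tendsto_const_nhds hlim
    (Eventually.of_forall fun n => norm_nonneg _) ?_
  have hev : ∀ᶠ n in atTop, ‖β‖ * (‖Dn n‖ / ‖Cn n‖) < ‖α‖ := by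
    have h1 : Tendsto (fun n => ‖β‖ * (‖Dn n‖ / ‖Cn n‖)) atTop (𝓝 0) := by
      simpa using hratio.const_mul ‖β‖
    exact h1.eventually (gt_mem_nhds hαp)
  filter_upwards [hev] with n hn
  obtain ⟨hq, hpq⟩ := hdec n
  have hCp : 0 < ‖Cn n‖ := norm_pos_iff.2 (hC0 n)
  have e1 : D.it l n x w - U (D.T^[n] x) =
      β * Dn n * (1 - Un n * Vn n) / (α * Cn n + β * Dn n * Vn n) := by
    rw [eq_div_iff hq, sub_mul, hpq]
    simp only [hUn]
    ring
  rw [e1, norm_div, norm_mul, norm_mul]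
  have hUV : ‖1 - Un n * Vn n‖ ≤ 2 := by
    calc ‖1 - Un n * Vn n‖ ≤ ‖(1 : ℂ)‖ + ‖Un n * Vn n‖ := norm_sub_le _ _
      _ ≤ 1 + 1 * 1 := by
        rw [norm_one, norm_mul]
        gcongr
        · exact bU _
        · exact bV _
      _ = 2 := by norm_num
  have hqn : ‖Cn n‖ * (‖α‖ - ‖β‖ * (‖Dn n‖ / ‖Cn n‖)) ≤ ‖α * Cn n + β * Dn n * Vn n‖ := by
    have h1 : ‖α * Cn n‖ - ‖β * Dn n * Vn n‖ ≤ ‖α * Cn n + β * Dn n * Vn n‖ := by
      have := norm_sub_norm_le (α * Cn n) (-(β * Dn n * Vn n))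
      rwa [norm_neg, sub_neg_eq_add] at this
    have h2 : ‖β * Dn n * Vn n‖ ≤ ‖β‖ * ‖Dn n‖ := by
      rw [norm_mul, norm_mul]
      exact mul_le_of_le_one_right (by positivity) (bV _)
    have h3 : ‖Cn n‖ * (‖α‖ - ‖β‖ * (‖Dn n‖ / ‖Cn n‖)) = ‖α * Cn n‖ - ‖β‖ * ‖Dn n‖ := by
      have h4 : ‖Cn n‖ * (‖Dn n‖ / ‖Cn n‖) = ‖Dn n‖ := mul_div_cancel₀ _ hCp.ne'
      have h5 : ‖α * Cn n‖ = ‖α‖ * ‖Cn n‖ := norm_mul _ _
      rw [h5]
      linear_combination (-‖β‖) * h4
    rw [h3]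
    linarith
  have hposq : 0 < ‖Cn n‖ * (‖α‖ - ‖β‖ * (‖Dn n‖ / ‖Cn n‖)) := mul_pos hCp (by linarith)
  calc ‖β‖ * ‖Dn n‖ * ‖1 - Un n * Vn n‖ / ‖α * Cn n + β * Dn n * Vn n‖
      ≤ ‖β‖ * ‖Dn n‖ * 2 / (‖Cn n‖ * (‖α‖ - ‖β‖ * (‖Dn n‖ / ‖Cn n‖))) := by gcongr
    _ = ‖β‖ * (‖Dn n‖ / ‖Cn n‖) * 2 / (‖α‖ - ‖β‖ * (‖Dn n‖ / ‖Cn n‖)) := by
      rw [div_mul_eq_div_div]
      congr 1
      ring

end Pool.Agent.H728R2.FA
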