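import Pool.Agent.H728R2.FA.Base

open Set Filter Topology MeasureTheory
open scoped ComplexConjugate

namespace Pool.Agent.H728R2.FA

open Pool.Agent.H728R2.OS

private theorem cosec_id (a b w : ℂ) :
    ‖-(b * w) + conj a‖ ^ 2 - ‖a * w - conj b‖ ^ 2 = (‖a‖ ^ 2 - ‖b‖ ^ 2) * (1 - ‖w‖ ^ 2) := by
  simp only [Complex.sq_norm, Complex.normSq_apply]
  simp
  ring

private theorem cosec_ne (a b w : ℂ) (h : ‖a‖ ^ 2 - ‖b‖ ^ 2 = 1) (hw : ‖w‖ < 1) :
    -(b * w) + conj a ≠ 0 := by
  intro h0
  have := cosec_id a b w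
  rw [h0, h] at this
  have h1 : ‖w‖ ^ 2 < 1 := by nlinarith [norm_nonneg w]
  have h2 := sq_nonneg ‖a * w - conj b‖
  simp at this
  linarith

/-- Existence of the repelling section. -/
theorem exists_cosec {B : Type*} [MeasurableSpace B] {m : Measure B} (D : Coc B m)
    (hsec : ∀ D' : Coc B m, ∃ u, D'.IsSec u) : ∃ v, D.IsCosec v := by
  have hmb : Measurable fun x => -(conj (D.b (D.T.symm x))) :=
    ((Complex.continuous_conj.measurable.comp (D.mb.comp D.T.symm.measurable))).neg
  let D' : Coc B m :=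
    { T := D.T.symm
      erg := D.erg.symm
      a := fun x => D.a (D.T.symm x)
      b := fun x => -(conj (D.b (D.T.symm x)))
      ma := D.ma.comp D.T.symm.measurable
      mb := hmb
      det := fun x => by
        simpa using D.det (D.T.symm x)
      M := D.M
      bd := fun x => D.bd _ }
  obtain ⟨u, hu⟩ := hsec D'
  have hinv : ∀ l z, ‖l‖ < 1 → u l z = l * ((D.a z * u l (D.T z) - conj (D.b z)) /
      (-(D.b z * u l (D.T z)) + conj (D.a z))) := by
    intro l z hl
    have h := hu.inv l (D.T z) hl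
    have h1 : D'.T (D.T z) = z := D.T.symm_apply_apply z
    rw [h1] at h
    rw [h]
    simp only [Coc.G, Coc.den]
    have h2 : D'.a (D.T z) = D.a z := by
      show D.a (D.T.symm (D.T z)) = D.a z
      rw [D.T.symm_apply_apply]
    have h3 : D'.b (D.T z) = -(conj (D.b z)) := by
      show -(conj (D.b (D.T.symm (D.T z)))) = -(conj (D.b z))
      rw [D.T.symm_apply_apply]
    rw [h2, h3]
    simp only [map_neg, Complex.conj_conj, neg_mul, mul_div_assoc, sub_eq_add_neg]
  have hlt : ∀ l x, ‖l‖ < 1 → ‖u l x‖ < 1 := fun l x hl => (hu.le l x hl).trans_lt hl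
  refine ⟨fun l x => (D.a x * u l (D.T x) - conj (D.b x)) /
    (-(D.b x * u l (D.T x)) + conj (D.a x)), ?_, ?_, ?_, ?_⟩
  · intro x
    have h1 := hu.hol (D.T x)
    refine DifferentiableOn.div ((h1.const_mul _).sub_const _)
      (((h1.const_mul _).neg).add_const _) ?_
    intro l hl
    exact cosec_ne _ _ _ (D.det x) (hlt l _ (by simpa using hl))
  · intro l hl
    have h1 : Measurable fun x => u l (D.T x) := (hu.meas l hl).comp D.T.measurable
    exact ((D.ma.mul h1).sub (Complex.continuous_conj.measurable.comp D.mb)).div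
      (((D.mb.mul h1).neg).add (Complex.continuous_conj.measurable.comp D.ma))
  · intro r hr hr1
    rcases isEmpty_or_nonempty B with hB | ⟨⟨x0⟩⟩
    · exact ⟨0, by norm_num, fun l x => (hB.false x).elim⟩
    have hM : 1 ≤ D.M := by
      have h1 := D.det x0
      have h2 := D.bd x0
      have h3 := norm_nonneg (D.a x0)
      nlinarith [sq_nonneg ‖D.b x0‖]
    have hr2 : r ^ 2 < 1 := by nlinarith
    have hMp : 0 < 4 * D.M ^ 2 := by positivity
    have hq : 0 < (1 - r ^ 2) / (4 * D.M ^ 2) := div_pos (by linarith) hMp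
    refine ⟨Real.sqrt (1 - (1 - r ^ 2) / (4 * D.M ^ 2)), ?_, ?_⟩
    · rw [Real.sqrt_lt' one_pos]
      linarith
    · intro l x hl
      apply Real.le_sqrt_of_sq_le
      have hl1 : ‖l‖ < 1 := hl.trans_lt hr1
      set w := u l (D.T x) with hw
      have hwr : ‖w‖ ≤ r := (hu.le l _ hl1).trans hl
      have hwn := norm_nonneg w
      have hw2 : ‖w‖ ^ 2 ≤ r ^ 2 := by nlinarith
      have hid := cosec_id (D.a x) (D.b x) w
      rw [D.det x, one_mul] at hid
      have hne := cosec_ne _ _ w (D.det x) (hwr.trans_lt hr1)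
      set d := -(D.b x * w) + conj (D.a x) with hd
      have hdp : 0 < ‖d‖ := norm_pos_iff.mpr hne
      have hbM : ‖D.b x‖ ≤ D.M := by
        have h1 := D.det x
        have h2 := D.bd x
        have h3 := norm_nonneg (D.a x)
        have h4 := norm_nonneg (D.b x)
        nlinarith
      have hdM : ‖d‖ ≤ 2 * D.M := by
        calc ‖d‖ ≤ ‖-(D.b x * w)‖ + ‖conj (D.a x)‖ := norm_add_le _ _
          _ = ‖D.b x‖ * ‖w‖ + ‖D.a x‖ := by rw [norm_neg, norm_mul, RCLike.norm_conj]
          _ ≤ D.M * 1 + D.M := by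
            have h1 := D.bd x
            have h4 := norm_nonneg (D.b x)
            gcongr
            linarith
          _ = 2 * D.M := by ring
      have hd2 : ‖d‖ ^ 2 ≤ 4 * D.M ^ 2 := by nlinarith
      rw [norm_div, div_pow]
      have hdp2 : 0 < ‖d‖ ^ 2 := by positivity
      rw [div_le_iff₀ hdp2]
      have h5 : (1 - r ^ 2) / (4 * D.M ^ 2) * ‖d‖ ^ 2 ≤ 1 - r ^ 2 := by
        rw [div_mul_eq_mul_div, div_le_iff₀ hMp]
        nlinarith
      nlinarith
  · intro l x hl
    have h := hinv l (D.T x) hl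
    show (D.a x * u l (D.T x) - conj (D.b x)) / (-(D.b x * u l (D.T x)) + conj (D.a x)) = _
    rw [← h]

end Pool.Agent.H728R2.FA
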