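import Pool.Agent.H728R2.FA.Base

open Set Filter Topology MeasureTheory
open scoped ComplexConjugate

namespace Pool.Agent.H728R2.FA

open Pool.Agent.H728R2.OS

private theorem diff_ab {B : Type*} [MeasurableSpace B] {m : Measure B} (D : Coc B m) (x : B) :
    ‖D.b x‖ < ‖D.a x‖ := by
  have h := D.det x
  by_contra hcon
  have h1 : ‖D.a x‖ ≤ ‖D.b x‖ := not_lt.mp hcon
  have h2 : ‖D.a x‖ ^ 2 ≤ ‖D.b x‖ ^ 2 := pow_le_pow_left₀ (norm_nonneg _) h1 2
  linarith

private theorem diff_den {B : Type*} [MeasurableSpace B] {m : Measure B} (D : Coc B m) (x : B)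
    {w : ℂ} (hw : ‖w‖ ≤ 1) : D.den x w ≠ 0 := by
  intro h0
  have h1 := diff_ab D x
  have h2 : ‖conj (D.a x)‖ ≤ ‖D.den x w‖ + ‖conj (D.b x) * w‖ := by
    have h3 : conj (D.a x) = D.den x w - conj (D.b x) * w := by
      unfold Coc.den; ring
    calc ‖conj (D.a x)‖ = ‖D.den x w - conj (D.b x) * w‖ := by rw [← h3]
      _ ≤ _ := norm_sub_le _ _
  rw [h0, norm_zero, zero_add, norm_mul, RCLike.norm_conj, RCLike.norm_conj] at h2
  have h4 : ‖D.b x‖ * ‖w‖ ≤ ‖D.b x‖ * 1 := mul_le_mul_of_nonneg_left hw (norm_nonneg _)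
  linarith

private theorem diff_nsq (z : ℂ) : ‖z‖ ^ 2 = z.re ^ 2 + z.im ^ 2 := by
  rw [← Complex.normSq_eq_norm_sq, Complex.normSq_apply]; ring

private theorem diff_G {B : Type*} [MeasurableSpace B] {m : Measure B} (D : Coc B m) (l : ℂ)
    (x : B) {w : ℂ} (hw : ‖w‖ ≤ 1) : ‖D.G l x w‖ ≤ ‖l‖ := by
  have hd := norm_pos_iff.mpr (diff_den D x hw)
  have h1 : ‖D.a x * w + D.b x‖ ≤ ‖D.den x w‖ := by
    refine le_of_sq_le_sq ?_ (norm_nonneg _)
    have h2 : ‖D.den x w‖ ^ 2 - ‖D.a x * w + D.b x‖ ^ 2 =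
        (‖D.a x‖ ^ 2 - ‖D.b x‖ ^ 2) * (1 - ‖w‖ ^ 2) := by
      unfold Coc.den
      simp only [diff_nsq]
      simp
      ring
    rw [D.det x] at h2
    have h3 : ‖w‖ ^ 2 ≤ 1 := pow_le_one₀ (norm_nonneg _) hw
    linarith
  unfold Coc.G
  rw [norm_div, norm_mul, div_le_iff₀ hd]
  exact mul_le_mul_of_nonneg_left h1 (norm_nonneg _)

private theorem diff_sub {B : Type*} [MeasurableSpace B] {m : Measure B} (D : Coc B m) (l : ℂ)
    (x : B) {w w' : ℂ} (hw : ‖w‖ ≤ 1) (hw' : ‖w'‖ ≤ 1) :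
    D.G l x w - D.G l x w' = l * (w - w') / (D.den x w * D.den x w') := by
  have hd := diff_den D x hw
  have hd' := diff_den D x hw'
  have hdet : D.a x * conj (D.a x) - D.b x * conj (D.b x) = 1 := by
    rw [Complex.mul_conj, Complex.mul_conj, Complex.normSq_eq_norm_sq,
      Complex.normSq_eq_norm_sq]
    have := D.det x
    exact_mod_cast this
  unfold Coc.G
  rw [div_sub_div _ _ hd hd']
  congr 1
  have h1 : l * (D.a x * w + D.b x) * D.den x w' - D.den x w * (l * (D.a x * w' + D.b x)) =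
      l * ((D.a x * conj (D.a x) - D.b x * conj (D.b x)) * (w - w')) := by
    unfold Coc.den
    ring
  rw [h1, hdet, one_mul]

private theorem diff_max (n : ℕ) (h : ℂ → ℂ) (hd : DifferentiableOn ℂ h (Metric.ball 0 1))
    (hb : ∀ l, ‖l‖ < 1 → ‖l ^ n * h l‖ ≤ 2) (l : ℂ) (hl : ‖l‖ < 1) : ‖h l‖ ≤ 2 := by
  have h1 : ∀ ρ : ℝ, 0 < ρ → ‖l‖ < ρ → ρ < 1 → ‖h l‖ ≤ 2 / ρ ^ n := by
    intro ρ h0 hlρ hρ
    refine Complex.norm_le_of_forall_mem_frontier_norm_le (U := Metric.ball 0 ρ)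
      Metric.isBounded_ball ?_ ?_ ?_
    · refine DifferentiableOn.diffContOnCl ?_
      rw [closure_ball _ h0.ne']
      exact hd.mono (Metric.closedBall_subset_ball hρ)
    · intro z hz
      rw [frontier_ball _ h0.ne', mem_sphere_zero_iff_norm] at hz
      have h2 := hb z (by rw [hz]; exact hρ)
      rw [norm_mul, norm_pow, hz] at h2
      rw [le_div_iff₀ (by positivity)]
      linarith
    · exact subset_closure (mem_ball_zero_iff.mpr hlρ)
  have h2 : Tendsto (fun ρ : ℝ => 2 / ρ ^ n) (𝓝[<] 1) (𝓝 2) := by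
    have h3 : ContinuousAt (fun ρ : ℝ => 2 / ρ ^ n) 1 := by
      refine ContinuousAt.div continuousAt_const (continuousAt_id.pow n) ?_
      simp
    have h4 := h3.tendsto
    simp only [one_pow, div_one] at h4
    exact h4.mono_left nhdsWithin_le_nhds
  refine ge_of_tendsto h2 ?_
  have h5 : ∀ᶠ ρ : ℝ in 𝓝[<] 1, max 0 ‖l‖ < ρ :=
    (eventually_gt_nhds (max_lt zero_lt_one hl)).filter_mono nhdsWithin_le_nhds
  filter_upwards [h5, self_mem_nhdsWithin] with ρ hρ1 hρ2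
  exact h1 ρ (lt_of_le_of_lt (le_max_left _ _) hρ1) (lt_of_le_of_lt (le_max_right _ _) hρ1) hρ2

private theorem diff_it {B : Type*} [MeasurableSpace B] {m : Measure B} (D : Coc B m) (w : ℂ → ℂ)
    (hw : DifferentiableOn ℂ w (Metric.ball 0 1))
    (bw : ∀ l, ‖l‖ < 1 → ‖w l‖ ≤ 1) (n : ℕ) (x : B) :
    DifferentiableOn ℂ (fun l => D.it l n x (w l)) (Metric.ball 0 1) ∧
      ∀ l, ‖l‖ < 1 → ‖D.it l n x (w l)‖ ≤ 1 := by
  induction n with
  | zero => exact ⟨hw, bw⟩
  | succ n ih =>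
    obtain ⟨h1, h2⟩ := ih
    constructor
    · show DifferentiableOn ℂ (fun l => l * (D.a (D.T^[n] x) * D.it l n x (w l) +
        D.b (D.T^[n] x)) / D.den (D.T^[n] x) (D.it l n x (w l))) (Metric.ball 0 1)
      refine DifferentiableOn.div ?_ ?_ ?_
      · exact differentiableOn_id.mul ((h1.const_mul _).add_const _)
      · unfold Coc.den
        exact (h1.const_mul _).add_const _
      · intro l hl
        exact diff_den D _ (h2 l (mem_ball_zero_iff.mp hl))
    · intro l hl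
      exact (diff_G D l _ (h2 l hl)).trans hl.le

/-- The difference of two orbits is `l ^ n` times a bounded holomorphic function of `l`. -/
theorem it_sub {B : Type*} [MeasurableSpace B] {m : Measure B} (D : Coc B m) (w w' : ℂ → ℂ)
    (hw : DifferentiableOn ℂ w (Metric.ball 0 1)) (hw' : DifferentiableOn ℂ w' (Metric.ball 0 1))
    (bw : ∀ l, ‖l‖ < 1 → ‖w l‖ ≤ 1) (bw' : ∀ l, ‖l‖ < 1 → ‖w' l‖ ≤ 1) (n : ℕ) (x : B) :
    ∃ h : ℂ → ℂ, DifferentiableOn ℂ h (Metric.ball 0 1) ∧ (∀ l, ‖l‖ < 1 → ‖h l‖ ≤ 2) ∧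
      ∀ l, ‖l‖ < 1 → D.it l n x (w l) - D.it l n x (w' l) = l ^ n * h l := by
  have hmain : ∃ h : ℂ → ℂ, DifferentiableOn ℂ h (Metric.ball 0 1) ∧
      ∀ l, ‖l‖ < 1 → D.it l n x (w l) - D.it l n x (w' l) = l ^ n * h l := by
    induction n with
    | zero =>
      refine ⟨fun l => w l - w' l, hw.sub hw', fun l _ => ?_⟩
      show w l - w' l = l ^ 0 * (w l - w' l)
      simp
    | succ n ih =>
      obtain ⟨h, h1, h2⟩ := ih
      obtain ⟨a1, a2⟩ := diff_it D w hw bw n x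
      obtain ⟨b1, b2⟩ := diff_it D w' hw' bw' n x
      refine ⟨fun l => h l / (D.den (D.T^[n] x) (D.it l n x (w l)) *
        D.den (D.T^[n] x) (D.it l n x (w' l))), ?_, ?_⟩
      · refine DifferentiableOn.div h1 ?_ ?_
        · unfold Coc.den
          exact ((a1.const_mul _).add_const _).mul ((b1.const_mul _).add_const _)
        · intro l hl
          have hl' := mem_ball_zero_iff.mp hl
          exact mul_ne_zero (diff_den D _ (a2 l hl')) (diff_den D _ (b2 l hl'))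
      · intro l hl
        show D.G l (D.T^[n] x) (D.it l n x (w l)) - D.G l (D.T^[n] x) (D.it l n x (w' l)) = _
        rw [diff_sub D l _ (a2 l hl) (b2 l hl), h2 l hl]
        ring
  obtain ⟨h, h1, h2⟩ := hmain
  refine ⟨h, h1, ?_, h2⟩
  intro l hl
  refine diff_max n h h1 ?_ l hl
  intro z hz
  rw [← h2 z hz]
  refine (norm_sub_le _ _).trans ?_
  have a2 := (diff_it D w hw bw n x).2 z hz
  have b2 := (diff_it D w' hw' bw' n x).2 z hz
  linarith

end Pool.Agent.H728R2.FA
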