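import Pool.Agent.H728R2.FA.Base

open Set Filter Topology MeasureTheory
open scoped ComplexConjugate

namespace Pool.Agent.H728R2.FA

open Pool.Agent.H728R2.OS

namespace Erg

theorem prob : IsProbabilityMeasure (volume : Measure Circ) := ⟨UnitAddCircle.measure_univ⟩

theorem pk_one (z : ℂ)
    (hz : ∀ j : ℤ, ∫ y : Circ, e y ^ j * (PK z y : ℂ) = HH j z) : ∫ y : Circ, PK z y = 1 := by
  have h1 := hz 0
  simp only [zpow_zero, one_mul, HH, le_refl, if_true, Int.toNat_zero, pow_zero] at h1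
  have h2 : ((∫ y : Circ, PK z y : ℝ) : ℂ) = 1 := by
    rw [← h1]
    exact (integral_ofReal (𝕜 := ℂ)).symm
  exact_mod_cast h2

theorem pk_pos (z : ℂ) (hz : ‖z‖ < 1) (y : Circ) (h : (1 - ‖z‖) / (1 + ‖z‖) ≤ PK z y) :
    0 < PK z y := by
  refine lt_of_lt_of_le ?_ h
  have := norm_nonneg z
  exact div_pos (by linarith) (by linarith)

theorem pk_integrable (z : ℂ) (hz : ‖z‖ < 1)
    (hb : ∀ y : Circ, (1 - ‖z‖) / (1 + ‖z‖) ≤ PK z y ∧ PK z y ≤ (1 + ‖z‖) / (1 - ‖z‖))
    (hPKm : Measurable (fun p : ℂ × Circ => PK p.1 p.2)) (k : Circ → ℝ) (mk : Measurable k)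
    (C : ℝ) (hC : ∀ y, |k y| ≤ C) : Integrable (fun y : Circ => k y * PK z y) := by
  have := prob
  have m1 : Measurable (fun y : Circ => PK z y) := hPKm.comp (measurable_const.prodMk measurable_id)
  have m2 : Measurable (fun y : Circ => k y * PK z y) := mk.mul m1
  refine Integrable.of_bound m2.aestronglyMeasurable (C * ((1 + ‖z‖) / (1 - ‖z‖)))
    (ae_of_all _ fun y => ?_)
  rw [Real.norm_eq_abs, abs_mul, abs_of_pos (pk_pos z hz y (hb y).1)]
  exact mul_le_mul (hC y) (hb y).2 (pk_pos z hz y (hb y).1).le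
    ((abs_nonneg _).trans (hC y))

section

variable {B : Type*} [MeasurableSpace B] {m : Measure B} [IsProbabilityMeasure m]
    (D : Coc B m) (F : Circ → B × Circ → B × Circ)

theorem transport (hF : D.Real F)
    (hPKt : ∀ (l a b : ℂ), ‖l‖ = 1 → ‖a‖ ^ 2 - ‖b‖ ^ 2 = 1 → ∀ (g : Circ → Circ),
      (∀ y, e (g y) = l * (a * e y + b) / (conj b * e y + conj a)) → ∀ z : ℂ, ‖z‖ < 1 →
      ∀ h : Circ → ℝ, Measurable h → (∃ C, ∀ y, |h y| ≤ C) →
      ‖l * (a * z + b) / (conj b * z + conj a)‖ < 1 ∧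
      ∫ y : Circ, h (g y) * PK z y =
        ∫ y : Circ, h y * PK (l * (a * z + b) / (conj b * z + conj a)) y)
    (θ : Circ) (x : B) (z z' : ℂ) (hz : ‖z‖ < 1) (hz' : z' = D.G (e θ) x z)
    (k : B × Circ → ℝ) (mk : Measurable k) (C : ℝ) (hC : ∀ q, |k q| ≤ C) :
    ‖z'‖ < 1 ∧ ∫ y : Circ, k (F θ (x, y)) * PK z y = ∫ y : Circ, k (D.T x, y) * PK z' y := by
  have h1 := hPKt (e θ) (D.a x) (D.b x) (Circle.norm_coe _) (D.det x) (fun y => (F θ (x, y)).2)
    (fun y => hF.snd θ (x, y)) z hz (fun y => k (D.T x, y))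
    (mk.comp (measurable_const.prodMk measurable_id)) ⟨C, fun y => hC _⟩
  have h2 : z' = e θ * (D.a x * z + D.b x) / (conj (D.b x) * z + conj (D.a x)) := hz'
  rw [← h2] at h1
  refine ⟨h1.1, ?_⟩
  rw [← h1.2]
  refine integral_congr_ae (ae_of_all _ fun y => ?_)
  have h3 : F θ (x, y) = (D.T x, (F θ (x, y)).2) := Prod.ext (hF.fst θ (x, y)) rfl
  show k (F θ (x, y)) * PK z y = k (D.T x, (F θ (x, y)).2) * PK z y
  rw [← h3]

theorem meas_it (hF : D.Real F) (n : ℕ) :
    Measurable (fun p : Circ × (B × Circ) => (F p.1)^[n] p.2) := by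
  induction n with
  | zero => exact measurable_snd
  | succ n ih =>
    have h1 : (fun p : Circ × (B × Circ) => (F p.1)^[n + 1] p.2) =
        (fun p : Circ × (B × Circ) => F p.1 p.2) ∘ fun p => (p.1, (F p.1)^[n] p.2) := by
      funext p
      exact Function.iterate_succ_apply' _ _ _
    rw [h1]
    exact hF.meas.comp (measurable_fst.prodMk ih)

end

end Erg

/-- Bounded invariant functions depend only on `θ`, for `θ ∈ Θ`. -/
theorem invariant_const {B : Type*} [MeasurableSpace B] {m : Measure B} [IsProbabilityMeasure m]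
    (D : Coc B m) (F : Circ → B × Circ → B × Circ) (hF : D.Real F)
    (U : Circ → B → ℂ) (mU : Measurable (Function.uncurry U)) (bU : ∀ θ x, ‖U θ x‖ ≤ 1)
    (Θ : Set Circ) (mΘ : MeasurableSet Θ) (hΘ : ∀ θ ∈ Θ, ∀ᵐ x ∂m, ‖U θ x‖ < 1)
    (hinv : ∀ θ ∈ Θ, ∀ᵐ x ∂m, U θ (D.T x) = D.G (e θ) x (U θ x))
    (hPKb : ∀ z : ℂ, ‖z‖ < 1 → ∀ y : Circ,
      (1 - ‖z‖) / (1 + ‖z‖) ≤ PK z y ∧ PK z y ≤ (1 + ‖z‖) / (1 - ‖z‖))
    (hPKm : Measurable (fun p : ℂ × Circ => PK p.1 p.2))
    (hPKj : ∀ z : ℂ, ‖z‖ < 1 → ∀ j : ℤ, ∫ y : Circ, e y ^ j * (PK z y : ℂ) = HH j z)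
    (hPKt : ∀ (l a b : ℂ), ‖l‖ = 1 → ‖a‖ ^ 2 - ‖b‖ ^ 2 = 1 → ∀ (g : Circ → Circ),
      (∀ y, e (g y) = l * (a * e y + b) / (conj b * e y + conj a)) → ∀ z : ℂ, ‖z‖ < 1 →
      ∀ h : Circ → ℝ, Measurable h → (∃ C, ∀ y, |h y| ≤ C) →
      ‖l * (a * z + b) / (conj b * z + conj a)‖ < 1 ∧
      ∫ y : Circ, h (g y) * PK z y =
        ∫ y : Circ, h y * PK (l * (a * z + b) / (conj b * z + conj a)) y)
    (hW : ∀ (h : Circ × (B × Circ) → ℝ), Measurable h → (∃ C, ∀ p, |h p| ≤ C) →
      ∀ (Φ : Circ × (B × Circ) → ℝ), Measurable Φ → (∃ C, ∀ p, |Φ p| ≤ C) → ∀ η : ℝ, 0 < η →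
      (∀ p, Φ p ≠ 0 → p.1 ∈ Θ ∧ ‖U p.1 p.2.1‖ ≤ 1 - η) →
      Tendsto (fun n : ℕ => ∫ p : Circ × (B × Circ), Φ p * (h (p.1, (F p.1)^[n] p.2) -
        ∫ y : Circ, h (p.1, (D.T^[n] p.2.1, y)) * PK (U p.1 (D.T^[n] p.2.1)) y)
          ∂(volume.prod (m.prod volume))) atTop (𝓝 0))
    (h : Circ × (B × Circ) → ℝ) (mh : Measurable h) (bh : ∃ C, ∀ p, |h p| ≤ C)
    (hh : ∀ θ q, h (θ, F θ q) = h (θ, q)) :
    ∀ᵐ θ : Circ, θ ∈ Θ → ∃ c : ℝ, ∀ᵐ q ∂(m.prod (volume : Measure Circ)), h (θ, q) = c := by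
  have := Erg.prob
  obtain ⟨C, hC⟩ := bh
  have hC0 : 0 ≤ C := by
    by_contra hcon
    rcases isEmpty_or_nonempty (Circ × (B × Circ)) with he | ⟨⟨p⟩⟩
    · have h1 : (volume : Measure Circ).prod (m.prod (volume : Measure Circ)) univ = 1 :=
        measure_univ
      rw [Set.univ_eq_empty_iff.2 he, measure_empty] at h1
      exact zero_ne_one h1
    · exact hcon ((abs_nonneg _).trans (hC p))
  set g : Circ → B → ℝ := fun θ x => ∫ y : Circ, h (θ, (x, y)) * PK (U θ x) y with hg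
  have mg : Measurable (Function.uncurry g) := by
    have h1 : Measurable (fun p : (Circ × B) × Circ =>
        h (p.1.1, (p.1.2, p.2)) * PK (U p.1.1 p.1.2) p.2) := by
      have m3 : Measurable (fun p : (Circ × B) × Circ =>
          ((p.1.1, (p.1.2, p.2)) : Circ × (B × Circ))) := by fun_prop
      have m4 : Measurable (fun p : (Circ × B) × Circ =>
          ((Function.uncurry U p.1, p.2) : ℂ × Circ)) :=
        (mU.comp measurable_fst).prodMk measurable_snd
      have m5 : Measurable (fun p : (Circ × B) × Circ => h (p.1.1, (p.1.2, p.2))) := mh.comp m3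
      have m6 : Measurable (fun p : (Circ × B) × Circ => PK (U p.1.1 p.1.2) p.2) := hPKm.comp m4
      exact m5.mul m6
    exact (StronglyMeasurable.integral_prod_right' (ν := (volume : Measure Circ))
      h1.stronglyMeasurable).measurable
  have mg1 : ∀ θ, Measurable (g θ) := fun θ => mg.comp (measurable_const.prodMk measurable_id)
  -- invariance
  have hginv : ∀ θ ∈ Θ, g θ ∘ D.T =ᵐ[m] g θ := by
    intro θ hθ
    filter_upwards [hΘ θ hθ, hinv θ hθ] with x hx1 hx2
    have h1 := Erg.transport D F hF hPKt θ x (U θ x) (U θ (D.T x)) hx1 hx2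
      (fun q => h (θ, q)) (mh.comp (measurable_const.prodMk measurable_id)) C (fun q => hC _)
    show ∫ y : Circ, h (θ, (D.T x, y)) * PK (U θ (D.T x)) y = ∫ y : Circ, h (θ, (x, y)) *
      PK (U θ x) y
    rw [← h1.2]
    simp only [hh]
  set c : Circ → ℝ := fun θ => ∫ x, g θ x ∂m with hc
  have mc : Measurable c :=
    (StronglyMeasurable.integral_prod_right' (ν := m) mg.stronglyMeasurable).measurable
  have hgc : ∀ θ ∈ Θ, ∀ᵐ x ∂m, g θ x = c θ := by
    intro θ hθ
    obtain ⟨c', hc'⟩ := D.erg.ae_eq_const_of_ae_eq_comp_ae (mg1 θ).aestronglyMeasurable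
      (hginv θ hθ)
    have h1 : c θ = c' := by
      show ∫ x, g θ x ∂m = c'
      rw [integral_congr_ae hc']
      simp
    rw [h1]
    exact hc'
  have hgcn : ∀ (n : ℕ), ∀ θ ∈ Θ, ∀ᵐ x ∂m, g θ (D.T^[n] x) = c θ := by
    intro n θ hθ
    exact (D.erg.toMeasurePreserving.iterate n).quasiMeasurePreserving.ae (hgc θ hθ)
  have hgb : ∀ θ ∈ Θ, ∀ᵐ x ∂m, ‖g θ x‖ ≤ C := by
    intro θ hθ
    filter_upwards [hΘ θ hθ] with x hx
    have i1 := Erg.pk_integrable (U θ x) hx (hPKb _ hx) hPKm (fun _ => C) measurable_const C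
      (fun _ => (abs_of_nonneg hC0).le)
    refine (norm_integral_le_of_norm_le i1 (ae_of_all _ fun y => ?_)).trans (le_of_eq ?_)
    · rw [Real.norm_eq_abs, abs_mul, abs_of_pos (Erg.pk_pos _ hx y (hPKb _ hx y).1)]
      exact mul_le_mul_of_nonneg_right (hC _) (Erg.pk_pos _ hx y (hPKb _ hx y).1).le
    · rw [integral_const_mul, Erg.pk_one _ (hPKj _ hx), mul_one]
  have hcb : ∀ θ ∈ Θ, |c θ| ≤ C := by
    intro θ hθ
    have h1 := norm_integral_le_of_norm_le_const (hgb θ hθ)
    simpa using h1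
  have hhn : ∀ (n : ℕ) (θ : Circ) (q : B × Circ), h (θ, (F θ)^[n] q) = h (θ, q) := by
    intro n θ q
    induction n with
    | zero => rfl
    | succ n ih => rw [Function.iterate_succ_apply', hh, ih]
  -- the sets A k
  set A : ℕ → Set (Circ × (B × Circ)) := fun k =>
    {p | p.1 ∈ Θ ∧ ‖U p.1 p.2.1‖ ≤ 1 - 1 / ((k : ℝ) + 1)} with hA
  have mA : ∀ k, MeasurableSet (A k) := by
    intro k
    refine (measurable_fst mΘ).inter ?_
    exact measurableSet_le (mU.comp (measurable_fst.prodMk (measurable_fst.comp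
      measurable_snd))).norm measurable_const
  have mhc : Measurable (fun p : Circ × (B × Circ) => h p - c p.1) :=
    mh.sub (mc.comp measurable_fst)
  set s : Circ × (B × Circ) → ℝ := fun p => if h p - c p.1 < 0 then -1 else 1 with hs
  have ms : Measurable s :=
    Measurable.ite (measurableSet_lt mhc measurable_const) measurable_const measurable_const
  have hs1 : ∀ p, s p * (h p - c p.1) = |h p - c p.1| := by
    intro p
    show (if h p - c p.1 < 0 then (-1 : ℝ) else 1) * (h p - c p.1) = _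
    split_ifs with h1
    · rw [abs_of_neg h1, neg_one_mul]
    · rw [abs_of_nonneg (not_lt.1 h1), one_mul]
  have hs2 : ∀ p, |s p| ≤ 1 := by
    intro p
    show |(if h p - c p.1 < 0 then (-1 : ℝ) else 1)| ≤ 1
    split_ifs <;> simp
  have key : ∀ k : ℕ, ∀ᵐ p ∂((volume : Measure Circ).prod (m.prod (volume : Measure Circ))),
      p ∈ A k → h p = c p.1 := by
    intro k
    have hη : (0 : ℝ) < 1 / ((k : ℝ) + 1) := by positivity
    have h1 := hW h mh ⟨C, hC⟩ ((A k).indicator s) (ms.indicator (mA k))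
      ⟨1, fun p => by
        by_cases hp : p ∈ A k
        · rw [indicator_of_mem hp]
          exact hs2 p
        · rw [indicator_of_notMem hp]
          simp⟩ (1 / ((k : ℝ) + 1)) hη
      (fun p hp => by
        by_contra hcon
        have hcon2 : p ∉ A k := hcon
        exact hp (indicator_of_notMem hcon2 _))
    have h2 : ∀ n : ℕ, ∫ p : Circ × (B × Circ), (A k).indicator s p *
        (h (p.1, (F p.1)^[n] p.2) -
        ∫ y : Circ, h (p.1, (D.T^[n] p.2.1, y)) * PK (U p.1 (D.T^[n] p.2.1)) y)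
          ∂(volume.prod (m.prod volume)) =
        ∫ p : Circ × (B × Circ), (A k).indicator (fun p => |h p - c p.1|) p
          ∂(volume.prod (m.prod volume)) := by
      intro n
      have h3 : ∀ᵐ p ∂((volume : Measure Circ).prod (m.prod (volume : Measure Circ))),
          p.1 ∈ Θ → g p.1 (D.T^[n] p.2.1) = c p.1 := by
        have mset : MeasurableSet {p : Circ × (B × Circ) |
            p.1 ∈ Θ → g p.1 (D.T^[n] p.2.1) = c p.1} := by
          have e1 : {p : Circ × (B × Circ) | p.1 ∈ Θ → g p.1 (D.T^[n] p.2.1) = c p.1} =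
              (Prod.fst ⁻¹' Θ)ᶜ ∪ {p | g p.1 (D.T^[n] p.2.1) = c p.1} := by
            ext p
            simp only [mem_ofPred_eq, mem_union, mem_compl_iff, mem_preimage]
            tauto
          rw [e1]
          refine (measurable_fst mΘ).compl.union (measurableSet_eq_fun ?_ ?_)
          · exact mg.comp (measurable_fst.prodMk ((D.T.measurable.iterate n).comp
              (measurable_fst.comp measurable_snd)))
          · exact mc.comp measurable_fst
        rw [Measure.ae_prod_iff_ae_ae mset]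
        refine ae_of_all _ fun θ => ?_
        by_cases hθ : θ ∈ Θ
        · have h4 : ∀ᵐ q ∂(m.prod (volume : Measure Circ)), g θ (D.T^[n] q.1) = c θ :=
            Measure.quasiMeasurePreserving_fst.ae (hgcn n θ hθ)
          filter_upwards [h4] with q hq _
          exact hq
        · exact ae_of_all _ fun q hq => absurd hq hθ
      refine integral_congr_ae ?_
      filter_upwards [h3] with p hp
      by_cases hpA : p ∈ A k
      · rw [indicator_of_mem hpA, indicator_of_mem hpA, ← hs1, hhn]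
        have h5 := hp hpA.1
        have h6 : ∫ y : Circ, h (p.1, (D.T^[n] p.2.1, y)) * PK (U p.1 (D.T^[n] p.2.1)) y =
          c p.1 := h5
        rw [h6]
      · rw [indicator_of_notMem hpA, indicator_of_notMem hpA, zero_mul]
    simp only [h2] at h1
    have h7 := tendsto_nhds_unique h1 tendsto_const_nhds
    have mind : Measurable ((A k).indicator (fun p => |h p - c p.1|)) :=
      mhc.abs.indicator (mA k)
    have hint : Integrable ((A k).indicator (fun p => |h p - c p.1|))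
        ((volume : Measure Circ).prod (m.prod (volume : Measure Circ))) := by
      refine Integrable.of_bound mind.aestronglyMeasurable (C + C) (ae_of_all _ fun p => ?_)
      by_cases hpA : p ∈ A k
      · rw [indicator_of_mem hpA, Real.norm_eq_abs, abs_abs]
        exact (abs_sub _ _).trans (add_le_add (hC p) (hcb _ hpA.1))
      · rw [indicator_of_notMem hpA, norm_zero]
        linarith
    have h8 := (integral_eq_zero_iff_of_nonneg
      (fun p => indicator_nonneg (fun _ _ => abs_nonneg _) p) hint).1 h7.symm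
    filter_upwards [h8] with p hp hpA
    rw [indicator_of_mem hpA] at hp
    have h9 : h p - c p.1 = 0 := abs_eq_zero.1 hp
    linarith
  have key2 : ∀ᵐ p ∂((volume : Measure Circ).prod (m.prod (volume : Measure Circ))),
      p.1 ∈ Θ → ‖U p.1 p.2.1‖ < 1 → h p = c p.1 := by
    filter_upwards [ae_all_iff.2 key] with p hp h1 h2
    obtain ⟨k, hk⟩ := exists_nat_one_div_lt (sub_pos.2 h2)
    exact hp k ⟨h1, by linarith⟩
  filter_upwards [Measure.ae_ae_of_ae_prod key2] with θ hθ hθ2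
  refine ⟨c θ, ?_⟩
  have h4 : ∀ᵐ q ∂(m.prod (volume : Measure Circ)), ‖U θ q.1‖ < 1 :=
    Measure.quasiMeasurePreserving_fst.ae (hΘ θ hθ2)
  filter_upwards [hθ, h4] with q hq1 hq2
  exact hq1 hθ2 hq2

/-- For `θ ∈ Θ`, almost every point visits every set of positive measure infinitely often. -/
theorem visits {B : Type*} [MeasurableSpace B] {m : Measure B} [IsProbabilityMeasure m]
    (D : Coc B m) (F : Circ → B × Circ → B × Circ) (hF : D.Real F)
    (U : Circ → B → ℂ) (mU : Measurable (Function.uncurry U)) (bU : ∀ θ x, ‖U θ x‖ ≤ 1)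
    (Θ : Set Circ) (mΘ : MeasurableSet Θ) (hΘ : ∀ θ ∈ Θ, ∀ᵐ x ∂m, ‖U θ x‖ < 1)
    (hinv : ∀ θ ∈ Θ, ∀ᵐ x ∂m, U θ (D.T x) = D.G (e θ) x (U θ x))
    (hPKb : ∀ z : ℂ, ‖z‖ < 1 → ∀ y : Circ,
      (1 - ‖z‖) / (1 + ‖z‖) ≤ PK z y ∧ PK z y ≤ (1 + ‖z‖) / (1 - ‖z‖))
    (hPKm : Measurable (fun p : ℂ × Circ => PK p.1 p.2))
    (hPKj : ∀ z : ℂ, ‖z‖ < 1 → ∀ j : ℤ, ∫ y : Circ, e y ^ j * (PK z y : ℂ) = HH j z)
    (hPKt : ∀ (l a b : ℂ), ‖l‖ = 1 → ‖a‖ ^ 2 - ‖b‖ ^ 2 = 1 → ∀ (g : Circ → Circ),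
      (∀ y, e (g y) = l * (a * e y + b) / (conj b * e y + conj a)) → ∀ z : ℂ, ‖z‖ < 1 →
      ∀ h : Circ → ℝ, Measurable h → (∃ C, ∀ y, |h y| ≤ C) →
      ‖l * (a * z + b) / (conj b * z + conj a)‖ < 1 ∧
      ∫ y : Circ, h (g y) * PK z y =
        ∫ y : Circ, h y * PK (l * (a * z + b) / (conj b * z + conj a)) y)
    (hE : ∀ (h : Circ × (B × Circ) → ℝ), Measurable h → (∃ C, ∀ p, |h p| ≤ C) →
      (∀ θ q, h (θ, F θ q) = h (θ, q)) →
      ∀ᵐ θ : Circ, θ ∈ Θ → ∃ c : ℝ, ∀ᵐ q ∂(m.prod (volume : Measure Circ)), h (θ, q) = c)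
    (W : Set (B × Circ)) (mW : MeasurableSet W) (hW : (m.prod (volume : Measure Circ)) W ≠ 0) :
    ∀ᵐ θ : Circ, θ ∈ Θ → ∀ᵐ q ∂(m.prod (volume : Measure Circ)), ∃ᶠ n in atTop,
      (F θ)^[n] q ∈ W := by
  have := Erg.prob
  set V : Set (Circ × (B × Circ)) := {p | ∃ᶠ n in atTop, (F p.1)^[n] p.2 ∈ W} with hV
  have mV : MeasurableSet V := by
    have e1 : V = ⋂ N : ℕ, ⋃ n : ℕ, ⋃ _ : N ≤ n, {p | (F p.1)^[n] p.2 ∈ W} := by
      ext p
      simp only [hV, mem_ofPred_eq, frequently_atTop, mem_iInter, mem_iUnion, exists_prop]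
    rw [e1]
    refine MeasurableSet.iInter fun N => MeasurableSet.iUnion fun n => MeasurableSet.iUnion
      fun _ => Erg.meas_it D F hF n mW
  have hVinv : ∀ θ q, (θ, F θ q) ∈ V ↔ (θ, q) ∈ V := by
    intro θ q
    show (∃ᶠ n in atTop, (F θ)^[n] (F θ q) ∈ W) ↔ ∃ᶠ n in atTop, (F θ)^[n] q ∈ W
    have h1 : (∃ᶠ n in map (fun n : ℕ => n + 1) atTop, (F θ)^[n] q ∈ W) ↔
        ∃ᶠ n in atTop, (F θ)^[n + 1] q ∈ W := frequently_map
    rw [map_add_atTop_eq_nat] at h1
    rw [h1]
    simp only [Function.iterate_succ_apply]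
  have h1 := hE (V.indicator fun _ => 1) (measurable_const.indicator mV)
    ⟨1, fun p => by
      by_cases hp : p ∈ V
      · rw [indicator_of_mem hp]; simp
      · rw [indicator_of_notMem hp]; simp⟩
    (fun θ q => by
      by_cases hp : (θ, q) ∈ V
      · rw [indicator_of_mem hp, indicator_of_mem ((hVinv θ q).2 hp)]
      · rw [indicator_of_notMem hp, indicator_of_notMem (fun hq => hp ((hVinv θ q).1 hq))])
  filter_upwards [h1] with θ hθ hθ2
  obtain ⟨c, hc⟩ := hθ hθ2
  by_cases hc1 : c = 1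
  · filter_upwards [hc] with q hq
    by_contra hcon
    have h2 : (θ, q) ∉ V := hcon
    rw [indicator_of_notMem h2, hc1] at hq
    exact zero_ne_one hq
  exfalso
  have hnot : ∀ᵐ q ∂(m.prod (volume : Measure Circ)), ¬ ∃ᶠ n in atTop, (F θ)^[n] q ∈ W := by
    filter_upwards [hc] with q hq hq2
    have h2 : (θ, q) ∈ V := hq2
    rw [indicator_of_mem h2] at hq
    exact hc1 hq.symm
  -- the invariant measure
  set ρ : B × Circ → ENNReal := fun q => ENNReal.ofReal (PK (U θ q.1) q.2) with hρ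
  have mU1 : Measurable (U θ) := mU.comp (measurable_const.prodMk measurable_id)
  have mρ : Measurable ρ :=
    (hPKm.comp ((mU1.comp measurable_fst).prodMk measurable_snd)).ennreal_ofReal
  have hslice : ∀ (E : Set (B × Circ)), MeasurableSet E → ∀ x, ‖U θ x‖ < 1 → ∀ φ : Circ →
      B × Circ, Measurable φ → ∫⁻ y : Circ, (φ ⁻¹' E).indicator (fun y => ρ (x, y)) y =
      ENNReal.ofReal (∫ y : Circ, E.indicator (fun _ => (1 : ℝ)) (φ y) * PK (U θ x) y) := by
    intro E mE x hx φ mφ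
    have i1 := Erg.pk_integrable (U θ x) hx (hPKb _ hx) hPKm
      (fun y => E.indicator (fun _ => (1 : ℝ)) (φ y)) ((measurable_const.indicator mE).comp mφ) 1
      (fun y => by
        by_cases hp : φ y ∈ E
        · rw [indicator_of_mem hp]; simp
        · rw [indicator_of_notMem hp]; simp)
    rw [ofReal_integral_eq_lintegral_ofReal i1 (ae_of_all _ fun y => by
      have := (Erg.pk_pos _ hx y (hPKb _ hx y).1).le
      by_cases hp : φ y ∈ E
      · simp only [indicator_of_mem hp, one_mul]; exact this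
      · simp only [indicator_of_notMem hp, zero_mul]; exact le_refl _)]
    refine lintegral_congr fun y => ?_
    by_cases hp : φ y ∈ E
    · rw [indicator_of_mem (show y ∈ φ ⁻¹' E from hp), indicator_of_mem hp, one_mul]
    · rw [indicator_of_notMem (show y ∉ φ ⁻¹' E from hp), indicator_of_notMem hp, zero_mul,
        ENNReal.ofReal_zero]
  have mFθ : Measurable (F θ) := hF.meas.comp (measurable_const.prodMk measurable_id)
  set ν : Measure (B × Circ) := (m.prod (volume : Measure Circ)).withDensity ρ with hν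
  have hνap : ∀ E, MeasurableSet E → ν E = ∫⁻ x, (∫⁻ y : Circ,
      ((fun y => (x, y)) ⁻¹' E).indicator (fun y => ρ (x, y)) y) ∂m := by
    intro E mE
    rw [hν, withDensity_apply _ mE, ← lintegral_indicator mE,
      lintegral_prod _ (mρ.indicator mE).aemeasurable]
    rfl
  have hpre : MeasurePreserving (F θ) ν ν := by
    refine ⟨mFθ, ?_⟩
    ext E mE
    rw [Measure.map_apply mFθ mE, hνap _ (mFθ mE), hνap _ mE]
    have m2 : Measurable (fun x => ∫⁻ y : Circ,
        ((fun y => (x, y)) ⁻¹' E).indicator (fun y => ρ (x, y)) y) := by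
      have := (mρ.indicator mE).lintegral_prod_right' (ν := (volume : Measure Circ))
      exact this
    rw [← D.erg.toMeasurePreserving.lintegral_comp m2]
    refine lintegral_congr_ae ?_
    filter_upwards [hΘ θ hθ2, hinv θ hθ2] with x hx1 hx2
    have h2 := Erg.transport D F hF hPKt θ x (U θ x) (U θ (D.T x)) hx1 hx2
      (E.indicator (fun _ => (1 : ℝ))) (measurable_const.indicator mE) 1
      (fun q => by
        by_cases hp : q ∈ E
        · rw [indicator_of_mem hp]; simp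
        · rw [indicator_of_notMem hp]; simp)
    have h3 := hslice E mE x hx1 (fun y => F θ (x, y))
      (mFθ.comp (measurable_const.prodMk measurable_id))
    have h4 := hslice E mE (D.T x) h2.1 (fun y => (D.T x, y))
      (measurable_const.prodMk measurable_id)
    rw [h4, ← h2.2, ← h3]
    rfl
  have hfin : IsFiniteMeasure ν := by
    refine ⟨?_⟩
    rw [hνap _ MeasurableSet.univ]
    have h2 : ∀ᵐ x ∂m, ∫⁻ y : Circ, ((fun y => (x, y)) ⁻¹' (univ : Set (B × Circ))).indicator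
        (fun y => ρ (x, y)) y = 1 := by
      filter_upwards [hΘ θ hθ2] with x hx
      rw [hslice univ MeasurableSet.univ x hx (fun y => (x, y))
        (measurable_const.prodMk measurable_id)]
      simp only [indicator_univ, one_mul]
      rw [Erg.pk_one _ (hPKj _ hx), ENNReal.ofReal_one]
    rw [lintegral_congr_ae h2]
    simp
  have hrec := hpre.conservative.ae_mem_imp_frequently_image_mem mW.nullMeasurableSet
  have hac : ν ≪ m.prod (volume : Measure Circ) := withDensity_absolutelyContinuous _ _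
  have hW0 : ∀ᵐ q ∂ν, q ∉ W := by
    filter_upwards [hrec, hac.ae_le hnot] with q hq1 hq2 hq3
    exact hq2 (hq1 hq3)
  have hW1 : ν W = 0 := by
    have h2 : ν {q | ¬ q ∉ W} = 0 := hW0
    simpa using h2
  rw [hν, withDensity_apply_eq_zero mρ] at hW1
  refine hW ?_
  have hpos : ∀ᵐ q ∂(m.prod (volume : Measure Circ)), ρ q ≠ 0 := by
    have h4 : ∀ᵐ q ∂(m.prod (volume : Measure Circ)), ‖U θ q.1‖ < 1 :=
      Measure.quasiMeasurePreserving_fst.ae (hΘ θ hθ2)
    filter_upwards [h4] with q hq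
    exact (ENNReal.ofReal_pos.2 (Erg.pk_pos _ hq q.2 (hPKb _ hq q.2).1)).ne'
  have h5 : (m.prod (volume : Measure Circ)) {q | ¬ ρ q ≠ 0} = 0 := hpos
  refine measure_mono_null (fun q hq => ?_) (measure_union_null hW1 h5)
  by_cases h6 : ρ q ≠ 0
  · exact Or.inl ⟨h6, hq⟩
  · exact Or.inr h6

end Pool.Agent.H728R2.FA
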