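import Pool.Agent.H728R2.FA.Base

open Set Filter Topology MeasureTheory
open scoped ComplexConjugate

namespace Pool.Agent.H728R2.FA

open Pool.Agent.H728R2.OS

private lemma klow_int {B : Type*} [MeasurableSpace B] {m : Measure B} [IsProbabilityMeasure m]
    {f : B → ℝ} (hf : Measurable f) {c : ℝ} (hc : 0 < c) (h1 : ∀ x, c ≤ f x)
    (h2 : ∀ x, f x ≤ 1) : Integrable (fun x => Real.log (f x)) m := by
  refine Integrable.mono' (integrable_const (- Real.log c))
    (Real.measurable_log.comp hf).aestronglyMeasurable ?_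
  filter_upwards with x
  have h3 : Real.log (f x) ≤ 0 := Real.log_nonpos (hc.le.trans (h1 x)) (h2 x)
  rw [Real.norm_eq_abs, abs_of_nonpos h3]
  have := Real.log_le_log hc (h1 x)
  linarith

/-- Lower bound of the Lyapunov exponent. -/
theorem LL_lower {B : Type*} [MeasurableSpace B] {m : Measure B} [IsProbabilityMeasure m]
    (D : Coc B m) {u : ℂ → B → ℂ} (hu : D.IsSec u)
    (hden : ∀ x w, ‖w‖ ≤ 1 → 1 ≤ D.M ∧ (2 * D.M)⁻¹ ≤ ‖D.den x w‖ ∧ ‖D.den x w‖ ≤ 2 * D.M)
    (hsq : ∀ (l : ℂ), l ≠ 0 → ∀ (x : B) (w : ℂ), ‖w‖ ≤ 1 →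
      ‖D.den x w‖ ^ 2 * (1 - ‖D.G l x w‖ ^ 2 / ‖l‖ ^ 2) = 1 - ‖w‖ ^ 2)
    (l : ℂ) (hl : l ≠ 0) (hl1 : ‖l‖ < 1) :
    ∫ x, Real.log (1 + (1 - ‖l‖) * (‖u l x‖ ^ 2 / (1 - ‖u l x‖ ^ 2))) ∂m ≤
      2 * (D.LL (u l) - Real.log ‖l‖ / 2) := by
  have hT := D.erg.toMeasurePreserving
  set r : ℝ := ‖l‖ with hr
  have hr0 : 0 < r := norm_pos_iff.mpr hl
  set X : B → ℝ := fun x => ‖u l x‖ ^ 2 with hX
  have hXm : Measurable X := ((hu.meas l hl1).norm).pow_const 2
  have hX0 : ∀ x, 0 ≤ X x := fun x => by positivity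
  have hXr : ∀ x, X x ≤ r ^ 2 := fun x => by
    have := hu.le l x hl1
    exact pow_le_pow_left₀ (norm_nonneg _) this 2
  have hule : ∀ x, ‖u l x‖ ≤ 1 := fun x => (hu.le l x hl1).trans hl1.le
  have hr2 : r ^ 2 < 1 := by nlinarith
  have hkey : ∀ x, ‖D.den x (u l x)‖ ^ 2 * (1 - X (D.T x) / r ^ 2) = 1 - X x := by
    intro x
    have := hsq l hl x (u l x) (hule x)
    rw [← hu.inv l x hl1] at this
    exact this
  have hden0 : ∀ x, 0 < ‖D.den x (u l x)‖ := fun x => by
    obtain ⟨h1, h2, h3⟩ := hden x (u l x) (hule x)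
    refine lt_of_lt_of_le ?_ h2
    positivity
  by_cases hne : Nonempty B
  swap
  · have := not_nonempty_iff.mp hne
    have h0 : m = 0 := Measure.eq_zero_of_isEmpty m
    have := IsProbabilityMeasure.ne_zero m
    exact absurd h0 this
  obtain ⟨x₀⟩ := hne
  have hM1 : 1 ≤ D.M := (hden x₀ 0 (by simp)).1
  set c : ℝ := (1 - r ^ 2) / (4 * D.M ^ 2) with hc
  have hM0 : 0 < D.M := by linarith
  have hc0 : 0 < c := by
    rw [hc]
    have : 0 < 1 - r ^ 2 := by linarith
    positivity
  have hlow : ∀ x, c ≤ 1 - X x / r ^ 2 := by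
    intro x
    obtain ⟨y, rfl⟩ := D.T.surjective x
    have h1 := hkey y
    obtain ⟨_, h2, h3⟩ := hden y (u l y) (hule y)
    have h4 : ‖D.den y (u l y)‖ ^ 2 ≤ 4 * D.M ^ 2 := by
      have := pow_le_pow_left₀ (norm_nonneg _) h3 2
      linarith [this]
    have h5 : 1 - X (D.T y) / r ^ 2 = (1 - X y) / ‖D.den y (u l y)‖ ^ 2 := by
      rw [eq_div_iff (by have := hden0 y; positivity)]
      linarith
    rw [h5, hc]
    have h6 := hXr y
    have h7 : (0 : ℝ) < ‖D.den y (u l y)‖ ^ 2 := by have := hden0 y; positivity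
    have h8 : 0 ≤ 1 - X y := by linarith
    gcongr
  have hup : ∀ x, 1 - X x / r ^ 2 ≤ 1 := by
    intro x
    have : 0 ≤ X x / r ^ 2 := by have := hX0 x; positivity
    linarith
  have hc' : 0 < 1 - r ^ 2 := by linarith
  have hg : Integrable (fun x => Real.log (1 - X x)) m :=
    klow_int (measurable_const.sub hXm) hc' (fun x => by linarith [hXr x])
      (fun x => by linarith [hX0 x])
  have hhm : Measurable fun x => 1 - X x / r ^ 2 := measurable_const.sub (hXm.div_const _)
  have hh : Integrable (fun x => Real.log (1 - X x / r ^ 2)) m := klow_int hhm hc0 hlow hup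
  have hlog : ∀ x, 2 * Real.log ‖D.den x (u l x)‖ =
      Real.log (1 - X x) - Real.log (1 - X (D.T x) / r ^ 2) := by
    intro x
    have h1 := hkey x
    have h2 : 0 < 1 - X (D.T x) / r ^ 2 := lt_of_lt_of_le hc0 (hlow (D.T x))
    have h3 := hden0 x
    rw [← h1, Real.log_mul (by positivity) h2.ne', Real.log_pow]
    push_cast
    ring
  have hhT : Integrable (fun x => Real.log (1 - X (D.T x) / r ^ 2)) m :=
    hT.integrable_comp_of_integrable hh
  have hLL : 2 * D.LL (u l) = ∫ x, (Real.log (1 - X x) - Real.log (1 - X x / r ^ 2)) ∂m := by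
    unfold Coc.LL
    rw [← integral_const_mul]
    simp only [hlog]
    rw [integral_sub hg hhT, integral_sub hg hh]
    congr 1
    have h3 := integral_map (μ := m) hT.measurable.aemeasurable
      (f := fun x => Real.log (1 - X x / r ^ 2))
      (Real.measurable_log.comp hhm).aestronglyMeasurable
    rw [hT.map_eq] at h3
    exact h3.symm
  have hlr : Real.log r ≤ 0 := Real.log_nonpos hr0.le hl1.le
  have h8 : ∫ x, Real.log (1 + (1 - r) * (X x / (1 - X x))) ∂m ≤ 2 * D.LL (u l) := by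
    rw [hLL]
    refine integral_mono_of_nonneg ?_ (hg.sub hh) ?_
    · filter_upwards with x
      have h1 := hX0 x
      have h2 := hXr x
      have h3 : 0 < 1 - X x := by linarith
      refine Real.log_nonneg ?_
      have h4 : 0 ≤ 1 - r := by linarith
      have : 0 ≤ (1 - r) * (X x / (1 - X x)) := by positivity
      linarith
    · filter_upwards with x
      have h1 := hX0 x
      have h2 := hXr x
      have h3 : 0 < 1 - X x := by linarith
      have h4 : 0 ≤ 1 - r := by linarith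
      have h5 : 0 < 1 - X x / r ^ 2 := lt_of_lt_of_le hc0 (hlow x)
      show Real.log (1 + (1 - r) * (X x / (1 - X x))) ≤
        Real.log (1 - X x) - Real.log (1 - X x / r ^ 2)
      rw [← Real.log_div h3.ne' h5.ne']
      refine Real.log_le_log (by positivity) ?_
      have h6 : (1 - X x) / (1 - X x / r ^ 2) = 1 + (1 / r ^ 2 - 1) * (X x / (1 - X x / r ^ 2)) := by
        rw [div_eq_iff h5.ne', add_mul, one_mul, mul_assoc, div_mul_cancel₀ _ h5.ne']
        field_simp
        ring
      rw [h6]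
      have h7 : (1 - r) ≤ 1 / r ^ 2 - 1 := by
        have : 1 / r ^ 2 - 1 - (1 - r) = (1 - 2 * r ^ 2 + r ^ 3) / r ^ 2 := by
          field_simp
          ring
        have h9 : 0 ≤ (1 - 2 * r ^ 2 + r ^ 3) / r ^ 2 := by
          have : 1 - 2 * r ^ 2 + r ^ 3 = (1 - r) * (1 + r - r ^ 2) := by ring
          rw [this]
          have h10 : 0 ≤ 1 + r - r ^ 2 := by nlinarith
          positivity
        linarith
      have h9 : X x / (1 - X x) ≤ X x / (1 - X x / r ^ 2) := by
        have h11 : X x ≤ X x / r ^ 2 := by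
          rw [le_div_iff₀ (by positivity)]
          nlinarith
        gcongr
      have h10 : 0 ≤ X x / (1 - X x) := by positivity
      have h12 : (1 - r) * (X x / (1 - X x)) ≤ (1 / r ^ 2 - 1) * (X x / (1 - X x / r ^ 2)) :=
        mul_le_mul h7 h9 h10 (by linarith)
      linarith
  have h9 : 2 * (D.LL (u l) - Real.log r / 2) = 2 * D.LL (u l) - Real.log r := by ring
  rw [h9]
  linarith

end Pool.Agent.H728R2.FA
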