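import Pool.Agent.H728R2.FA.Base

open Set Filter Topology MeasureTheory
open scoped ComplexConjugate

namespace Pool.Agent.H728R2.FA

open Pool.Agent.H728R2.OS

namespace KMean

theorem norm_e (θ : Circ) : ‖e θ‖ = 1 := by
  unfold e
  exact Circle.norm_coe _

theorem cont_e : Continuous e := by
  unfold e
  exact continuous_subtype_val.comp AddCircle.continuous_toCircle

theorem norm_re (r : ℝ) (hr : 0 ≤ r) (θ : Circ) : ‖(r : ℂ) * e θ‖ = r := by
  rw [norm_mul, norm_e, mul_one, Complex.norm_real, Real.norm_eq_abs, abs_of_nonneg hr]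

theorem e_coe (t : ℝ) : e ((t : ℝ) : Circ) = Complex.exp (((2 * Real.pi * t : ℝ) : ℂ) * Complex.I) := by
  unfold e
  rw [AddCircle.toCircle_apply_mk, Circle.coe_exp]
  norm_num

/-- The integral over the circle is the circle average. -/
theorem int_eq (f : ℂ → ℝ) (r : ℝ) : ∫ θ : Circ, f (r * e θ) = Real.circleAverage f 0 r := by
  rw [← UnitAddCircle.intervalIntegral_preimage 0 (fun θ : Circ => f (r * e θ)), Real.circleAverage_def]
  have h1 : (fun t : ℝ => f (r * e ((t : ℝ) : Circ))) = fun t : ℝ => f (circleMap 0 r (2 * Real.pi * t)) := by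
    funext t
    rw [e_coe, circleMap, zero_add]
  have h2 : (∫ a in (0:ℝ)..0 + 1, f (r * e ((a : ℝ) : Circ))) =
      ∫ a in (0:ℝ)..1, f (circleMap 0 r (2 * Real.pi * a)) := by
    rw [zero_add]
    exact congrArg (fun g : ℝ → ℝ => ∫ a in (0:ℝ)..1, g a) h1
  rw [h2, intervalIntegral.integral_comp_mul_left (fun t => f (circleMap 0 r t))
    (by positivity : (2 * Real.pi) ≠ 0)]
  simp

end KMean

/-- Mean value of the logarithmic multiplier over a circle. -/
theorem LL_mean {B : Type*} [MeasurableSpace B] {m : Measure B} [IsProbabilityMeasure m]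
    (D : Coc B m) {u : ℂ → B → ℂ} (hu : D.IsSec u)
    (hden : ∀ x w, ‖w‖ ≤ 1 → 1 ≤ D.M ∧ (2 * D.M)⁻¹ ≤ ‖D.den x w‖ ∧ ‖D.den x w‖ ≤ 2 * D.M)
    (r : ℝ) (hr : 0 ≤ r) (hr1 : r < 1) :
    ∫ θ : Circ, D.LL (u (r * e θ)) = ∫ x, Real.log ‖D.a x‖ ∂m := by
  have hnorm : ∀ θ : Circ, ‖(r : ℂ) * e θ‖ < 1 := fun θ => by
    rw [KMean.norm_re r hr]; exact hr1
  have hub : ∀ (l : ℂ) (x : B), ‖l‖ < 1 → ‖u l x‖ ≤ 1 := fun l x hl => (hu.le l x hl).trans hl.le
  -- joint measurability
  have hcont : ∀ x, Continuous fun θ : Circ => u (r * e θ) x := by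
    intro x
    refine (hu.hol x).continuousOn.comp_continuous (continuous_const.mul KMean.cont_e) (fun θ => ?_)
    rw [Metric.mem_ball, dist_zero_right]
    exact hnorm θ
  have hmeas : Measurable (Function.uncurry fun (θ : Circ) (x : B) => u (r * e θ) x) :=
    measurable_uncurry_of_continuous_of_measurable (fun x => hcont x)
      (fun θ => hu.meas _ (hnorm θ))
  have hma : Measurable (fun p : Circ × B => D.a p.2) := D.ma.comp measurable_snd
  have hmb : Measurable (fun p : Circ × B => D.b p.2) := D.mb.comp measurable_snd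
  have hcj : Measurable (fun z : ℂ => conj z) := Complex.continuous_conj.measurable
  have hdm : Measurable (fun p : Circ × B => Real.log ‖D.den p.2 (u (r * e p.1) p.2)‖) := by
    apply Real.measurable_log.comp
    apply Measurable.norm
    unfold Coc.den
    exact ((hcj.comp hmb).mul hmeas).add (hcj.comp hma)
  have hbound : ∀ p : Circ × B, ‖Real.log ‖D.den p.2 (u (r * e p.1) p.2)‖‖ ≤ Real.log (2 * D.M) := by
    intro p
    obtain ⟨h1, h2, h3⟩ := hden p.2 (u (r * e p.1) p.2) (hub _ _ (hnorm p.1))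
    have h4 : (0:ℝ) < (2 * D.M)⁻¹ := by positivity
    have h5 : 0 < ‖D.den p.2 (u (r * e p.1) p.2)‖ := lt_of_lt_of_le h4 h2
    rw [Real.norm_eq_abs, abs_le]
    constructor
    · rw [← Real.log_inv]
      exact Real.log_le_log h4 h2
    · exact Real.log_le_log h5 h3
  have hint : Integrable (Function.uncurry fun (θ : Circ) (x : B) =>
      Real.log ‖D.den x (u (r * e θ) x)‖) ((volume : Measure Circ).prod m) := by
    refine Integrable.of_bound hdm.aestronglyMeasurable (Real.log (2 * D.M)) ?_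
    exact Filter.Eventually.of_forall hbound
  unfold Coc.LL
  rw [integral_integral_swap hint]
  congr 1
  funext x
  rw [KMean.int_eq (fun l => Real.log ‖D.den x (u l x)‖) r]
  have hsub : Metric.closedBall (0:ℂ) |r| ⊆ Metric.ball 0 1 := by
    apply Metric.closedBall_subset_ball
    rw [abs_of_nonneg hr]
    exact hr1
  have hdiff : DifferentiableOn ℂ (fun l => D.den x (u l x)) (Metric.ball 0 1) := by
    unfold Coc.den
    exact ((hu.hol x).const_mul _).add_const _
  have han : AnalyticOnNhd ℂ (fun l => D.den x (u l x)) (Metric.closedBall (0:ℂ) |r|) :=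
    (hdiff.analyticOnNhd Metric.isOpen_ball).mono hsub
  have hne : ∀ l ∈ Metric.closedBall (0:ℂ) |r|, D.den x (u l x) ≠ 0 := by
    intro l hl
    have h6 := hsub hl
    rw [Metric.mem_ball, dist_zero_right] at h6
    obtain ⟨h1, h2, _⟩ := hden x (u l x) (hub _ _ h6)
    have h4 : (0:ℝ) < (2 * D.M)⁻¹ := by positivity
    exact norm_pos_iff.mp (lt_of_lt_of_le h4 h2)
  rw [AnalyticOnNhd.circleAverage_log_norm_of_ne_zero han hne]
  have h0 : u 0 x = 0 := by
    have := hu.le 0 x (by simp)
    simpa using this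
  rw [h0]
  unfold Coc.den
  simp

end Pool.Agent.H728R2.FA
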