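import Pool.Agent.H728R2.FA.Base

open Set Filter Topology MeasureTheory
open scoped ComplexConjugate

namespace Pool.Agent.H728R2.FA

open Pool.Agent.H728R2.OS

namespace KMon

theorem int_log {B : Type*} [MeasurableSpace B] {m : Measure B} [IsProbabilityMeasure m]
    {f : B → ℂ} (hf : Measurable f) (c C : ℝ) (hc : 0 < c) (h1 : ∀ x, c ≤ ‖f x‖)
    (h2 : ∀ x, ‖f x‖ ≤ C) : Integrable (fun x => Real.log ‖f x‖) m := by
  refine Integrable.of_bound (Real.measurable_log.comp hf.norm).aestronglyMeasurable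
    (max |Real.log c| |Real.log C|) (Filter.Eventually.of_forall fun x => ?_)
  have h0 : 0 < ‖f x‖ := lt_of_lt_of_le hc (h1 x)
  have h3 : Real.log c ≤ Real.log ‖f x‖ := Real.log_le_log hc (h1 x)
  have h4 : Real.log ‖f x‖ ≤ Real.log C := Real.log_le_log h0 (h2 x)
  rw [Real.norm_eq_abs]
  exact abs_le_max_abs_abs h3 h4

end KMon

/-- Monotonicity of the Lyapunov exponent along the radii, and the sum of the two exponents. -/
theorem LL_mono {B : Type*} [MeasurableSpace B] {m : Measure B} [IsProbabilityMeasure m]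
    (D : Coc B m) {u v : ℂ → B → ℂ} (hu : D.IsSec u) (hv : D.IsCosec v)
    (hden : ∀ x w, ‖w‖ ≤ 1 → 1 ≤ D.M ∧ (2 * D.M)⁻¹ ≤ ‖D.den x w‖ ∧ ‖D.den x w‖ ≤ 2 * D.M)
    (hdem : ∀ x w, ‖w‖ ≤ 1 → (2 * D.M)⁻¹ ≤ ‖D.dem x w‖ ∧ ‖D.dem x w‖ ≤ 2 * D.M)
    (hrel : ∀ (l : ℂ) (t : ℝ), 1 ≤ t → ‖(t : ℂ) * l‖ < 1 → ∀ x : B,
      1 - u l x * v (t * l) x = D.den x (u l x) * D.dem x (v (t * l) x) *
        (1 - t * u l (D.T x) * v (t * l) (D.T x))) :
    (∀ l : ℂ, ‖l‖ = 1 → ∀ r s : ℝ, 0 < r → r ≤ s → s < 1 →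
      D.LL (u (s * l)) - Real.log s / 2 ≤ D.LL (u (r * l)) - Real.log r / 2) ∧
    ∀ l : ℂ, ‖l‖ < 1 → D.LL (u l) + ∫ x, Real.log ‖D.dem x (v l x)‖ ∂m = 0 := by
  have hcj : Measurable (fun z : ℂ => conj z) := Complex.continuous_conj.measurable
  have hv1 : ∀ l x, ‖l‖ < 1 → ‖v l x‖ ≤ 1 := by
    intro l x hl
    obtain ⟨c, hc, h⟩ := hv.le ‖l‖ (norm_nonneg l) hl
    exact (h l x le_rfl).trans hc.le
  have hM : 0 < (2 * D.M)⁻¹ := by
    by_cases hB : Nonempty B
    · obtain ⟨x⟩ := hB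
      have := (hden x 0 (by simp)).1
      positivity
    · exfalso
      rw [not_nonempty_iff] at hB
      have h1 : (Set.univ : Set B) = ∅ := Set.univ_eq_empty_iff.mpr hB
      have h2 := measure_univ (μ := m)
      rw [h1] at h2
      simp at h2
  have hden' : ∀ l x, ‖l‖ < 1 → (2 * D.M)⁻¹ ≤ ‖D.den x (u l x)‖ ∧ ‖D.den x (u l x)‖ ≤ 2 * D.M :=
    fun l x hl => (hden x _ ((hu.le l x hl).trans hl.le)).2
  have hdem' : ∀ l x, ‖l‖ < 1 → (2 * D.M)⁻¹ ≤ ‖D.dem x (v l x)‖ ∧ ‖D.dem x (v l x)‖ ≤ 2 * D.M :=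
    fun l x hl => hdem x _ (hv1 l x hl)
  have mden : ∀ l, ‖l‖ < 1 → Measurable (fun x => D.den x (u l x)) := by
    intro l hl
    unfold Coc.den
    exact ((hcj.comp D.mb).mul (hu.meas l hl)).add (hcj.comp D.ma)
  have mdem : ∀ l, ‖l‖ < 1 → Measurable (fun x => D.dem x (v l x)) := by
    intro l hl
    unfold Coc.dem
    exact D.ma.add (D.mb.mul (hv.meas l hl))
  have iden : ∀ l, ‖l‖ < 1 → Integrable (fun x => Real.log ‖D.den x (u l x)‖) m := fun l hl =>
    KMon.int_log (mden l hl) _ _ hM (fun x => (hden' l x hl).1) (fun x => (hden' l x hl).2)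
  have idem : ∀ l, ‖l‖ < 1 → Integrable (fun x => Real.log ‖D.dem x (v l x)‖) m := fun l hl =>
    KMon.int_log (mdem l hl) _ _ hM (fun x => (hdem' l x hl).1) (fun x => (hdem' l x hl).2)
  -- the general identity
  have key : ∀ (l : ℂ) (t : ℝ), 1 ≤ t → ‖(t : ℂ) * l‖ < 1 → ‖l‖ < 1 ∧
      Integrable (fun x => Real.log ‖1 - u l x * v (t * l) x‖) m ∧
      Integrable (fun x => Real.log ‖1 - t * u l x * v (t * l) x‖) m ∧
      ∫ x, Real.log ‖1 - u l x * v (t * l) x‖ ∂m = D.LL (u l) +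
        ∫ x, Real.log ‖D.dem x (v (t * l) x)‖ ∂m + ∫ x, Real.log ‖1 - t * u l x * v (t * l) x‖ ∂m ∧
      ∀ x, t * ‖u l x * v (t * l) x‖ ^ 2 ≤ 1 ∧ 1 - u l x * v (t * l) x ≠ 0 ∧
        1 - t * u l x * v (t * l) x ≠ 0 := by
    intro l t ht htl
    have htl' : t * ‖l‖ < 1 := by
      rw [norm_mul, Complex.norm_real, Real.norm_eq_abs, abs_of_nonneg (by linarith)] at htl
      exact htl
    have hl : ‖l‖ < 1 := by
      have : ‖l‖ ≤ t * ‖l‖ := le_mul_of_one_le_left (norm_nonneg l) ht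
      linarith
    have hq : ∀ x, ‖u l x * v (t * l) x‖ ≤ ‖l‖ := by
      intro x
      rw [norm_mul]
      calc ‖u l x‖ * ‖v (t * l) x‖ ≤ ‖l‖ * 1 := by
            gcongr
            · exact hu.le l x hl
            · exact hv1 _ x htl
        _ = ‖l‖ := mul_one _
    have htq : ∀ x, ‖t * u l x * v (t * l) x‖ ≤ t * ‖l‖ := by
      intro x
      rw [mul_assoc, norm_mul, Complex.norm_real, Real.norm_eq_abs, abs_of_nonneg (by linarith)]
      exact mul_le_mul_of_nonneg_left (hq x) (by linarith)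
    have hlow1 : ∀ x, 1 - ‖l‖ ≤ ‖1 - u l x * v (t * l) x‖ := by
      intro x
      have h3 := norm_sub_norm_le (1:ℂ) (u l x * v (t * l) x)
      rw [norm_one] at h3
      linarith [hq x]
    have hlow2 : ∀ x, 1 - t * ‖l‖ ≤ ‖1 - t * u l x * v (t * l) x‖ := by
      intro x
      have h3 := norm_sub_norm_le (1:ℂ) (t * u l x * v (t * l) x)
      rw [norm_one] at h3
      linarith [htq x]
    have hup1 : ∀ x, ‖1 - u l x * v (t * l) x‖ ≤ 2 := by
      intro x
      have h3 := norm_sub_le (1:ℂ) (u l x * v (t * l) x)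
      rw [norm_one] at h3
      linarith [hq x]
    have hup2 : ∀ x, ‖1 - t * u l x * v (t * l) x‖ ≤ 2 := by
      intro x
      have h3 := norm_sub_le (1:ℂ) (t * u l x * v (t * l) x)
      rw [norm_one] at h3
      linarith [htq x]
    have mm1 : Measurable (fun x => 1 - u l x * v (t * l) x) :=
      measurable_const.sub ((hu.meas l hl).mul (hv.meas _ htl))
    have mm2 : Measurable (fun x => 1 - t * u l x * v (t * l) x) :=
      measurable_const.sub (((hu.meas l hl).const_mul _).mul (hv.meas _ htl))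
    have i1 := KMon.int_log (m := m) mm1 _ _ (by linarith : 0 < 1 - ‖l‖) hlow1 hup1
    have i2 := KMon.int_log (m := m) mm2 _ _ (by linarith : 0 < 1 - t * ‖l‖) hlow2 hup2
    have hne1 : ∀ x, 1 - u l x * v (t * l) x ≠ 0 := fun x =>
      norm_pos_iff.mp (lt_of_lt_of_le (by linarith : 0 < 1 - ‖l‖) (hlow1 x))
    have hne2 : ∀ x, 1 - t * u l x * v (t * l) x ≠ 0 := fun x =>
      norm_pos_iff.mp (lt_of_lt_of_le (by linarith : 0 < 1 - t * ‖l‖) (hlow2 x))
    refine ⟨hl, i1, i2, ?_, fun x => ⟨?_, hne1 x, hne2 x⟩⟩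
    · have hT := D.erg.toMeasurePreserving.integral_comp'
        (fun x => Real.log ‖1 - t * u l x * v (t * l) x‖)
      have i3 : Integrable (fun x => Real.log ‖1 - t * u l (D.T x) * v (t * l) (D.T x)‖) m := by
        have := D.erg.toMeasurePreserving.integrable_comp_emb D.T.measurableEmbedding
          (g := fun x => Real.log ‖1 - t * u l x * v (t * l) x‖)
        exact this.mpr i2
      rw [← hT]
      unfold Coc.LL
      have i4 : Integrable (fun x => Real.log ‖D.den x (u l x)‖ +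
          Real.log ‖D.dem x (v (t * l) x)‖) m := (iden l hl).add (idem _ htl)
      rw [← integral_add (iden l hl) (idem _ htl), ← integral_add i4 i3]
      congr 1
      funext x
      rw [hrel l t ht htl x, norm_mul, norm_mul, Real.log_mul, Real.log_mul]
      · exact (lt_of_lt_of_le hM (hden' l x hl).1).ne'
      · exact (lt_of_lt_of_le hM (hdem' _ x htl).1).ne'
      · exact mul_ne_zero (lt_of_lt_of_le hM (hden' l x hl).1).ne'
          (lt_of_lt_of_le hM (hdem' _ x htl).1).ne'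
      · exact norm_ne_zero_iff.mpr (hne2 (D.T x))
    · have h5 : ‖u l x * v (t * l) x‖ ^ 2 ≤ ‖l‖ ^ 2 := by
        gcongr
        exact hq x
      have h6 : 0 ≤ ‖l‖ := norm_nonneg l
      nlinarith [mul_nonneg (by linarith : (0:ℝ) ≤ t) (sub_nonneg.mpr h5)]
  have second : ∀ l : ℂ, ‖l‖ < 1 → D.LL (u l) + ∫ x, Real.log ‖D.dem x (v l x)‖ ∂m = 0 := by
    intro l hl
    have h1 := key l 1 le_rfl (by simpa using hl)
    obtain ⟨_, i1, i2, h2, _⟩ := h1
    simp only [Complex.ofReal_one, one_mul] at h2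
    linarith
  refine ⟨?_, second⟩
  intro l hl r s hr hrs hs
  have ht : 1 ≤ s / r := by rw [le_div_iff₀ hr]; linarith
  have hts : ((s / r : ℝ) : ℂ) * ((r : ℂ) * l) = (s : ℂ) * l := by
    rw [← mul_assoc, ← Complex.ofReal_mul, div_mul_cancel₀ _ hr.ne']
  have hsl : ‖(s : ℂ) * l‖ < 1 := by
    rw [norm_mul, hl, mul_one, Complex.norm_real, Real.norm_eq_abs, abs_of_pos (by linarith)]
    exact hs
  obtain ⟨hrl, i1, i2, h2, h3⟩ := key ((r : ℂ) * l) (s / r) ht (by rw [hts]; exact hsl)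
  rw [hts] at i1 i2 h2 h3
  have h4 := second ((s : ℂ) * l) hsl
  have h5 : ∫ x, Real.log ‖1 - ((s / r : ℝ) : ℂ) * u (r * l) x * v (s * l) x‖ ∂m ≤
      ∫ x, (Real.log ‖1 - u (r * l) x * v (s * l) x‖ + Real.log (s / r) / 2) ∂m := by
    apply integral_mono i2 (i1.add (integrable_const _))
    intro x
    obtain ⟨ha, hb, hc⟩ := h3 x
    have hb' : 0 < ‖1 - u (r * l) x * v (s * l) x‖ := norm_pos_iff.mpr hb
    have hc' : 0 < ‖1 - ((s / r : ℝ) : ℂ) * u (r * l) x * v (s * l) x‖ := norm_pos_iff.mpr hc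
    have hsq : ‖1 - ((s / r : ℝ) : ℂ) * u (r * l) x * v (s * l) x‖ ^ 2 ≤
        (s / r) * ‖1 - u (r * l) x * v (s * l) x‖ ^ 2 := by
      have e1 : ((s / r : ℝ) : ℂ) * u (r * l) x * v (s * l) x =
          ((s / r : ℝ) : ℂ) * (u (r * l) x * v (s * l) x) := by ring
      rw [e1]
      set q := u (r * l) x * v (s * l) x with hq
      rw [← Complex.normSq_eq_norm_sq, ← Complex.normSq_eq_norm_sq]
      rw [← Complex.normSq_eq_norm_sq] at ha
      simp only [Complex.normSq_apply, Complex.sub_re, Complex.sub_im, Complex.one_re,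
        Complex.one_im, Complex.mul_re, Complex.mul_im, Complex.ofReal_re, Complex.ofReal_im] at ha ⊢
      nlinarith [mul_nonneg (sub_nonneg.mpr ht) (sub_nonneg.mpr ha)]
    have hlog := Real.log_le_log (by positivity) hsq
    rw [Real.log_pow, Real.log_mul (by positivity) (by positivity), Real.log_pow] at hlog
    simp only [Nat.cast_ofNat] at hlog
    show Real.log ‖1 - ((s / r : ℝ) : ℂ) * u (r * l) x * v (s * l) x‖ ≤
      Real.log ‖1 - u (r * l) x * v (s * l) x‖ + Real.log (s / r) / 2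
    linarith
  rw [integral_add i1 (integrable_const _), integral_const] at h5
  simp only [probReal_univ, one_smul] at h5
  rw [Real.log_div (by linarith) hr.ne'] at h5
  linarith

end Pool.Agent.H728R2.FA
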