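import Pool.Agent.H728R2.FA.Base

open Set Filter Topology MeasureTheory
open scoped ComplexConjugate

namespace Pool.Agent.H728R2.FA

open Pool.Agent.H728R2.OS

namespace KOTaux

variable {B : Type*} [MeasurableSpace B] {m : Measure B} (D : Coc B m)

theorem norm_e (y : Circ) : ‖e y‖ = 1 := by
  unfold e
  exact Circle.norm_coe _

theorem cont_e : Continuous (e : Circ → ℂ) := by
  unfold e
  exact continuous_induced_dom.comp AddCircle.continuous_toCircle

theorem meas_den {α : Type*} [MeasurableSpace α] {p : α → B} {w : α → ℂ} (hp : Measurable p)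
    (hw : Measurable w) : Measurable fun x => D.den (p x) (w x) := by
  unfold Coc.den
  exact (((Complex.continuous_conj.measurable.comp D.mb).comp hp).mul hw).add
    ((Complex.continuous_conj.measurable.comp D.ma).comp hp)

variable (hden : ∀ x w, ‖w‖ ≤ 1 → 1 ≤ D.M ∧ (2 * D.M)⁻¹ ≤ ‖D.den x w‖ ∧ ‖D.den x w‖ ≤ 2 * D.M)

include hden

theorem den_pos {x : B} {w : ℂ} (hw : ‖w‖ ≤ 1) : 0 < ‖D.den x w‖ := by
  obtain ⟨h1, h2, h3⟩ := hden x w hw
  exact lt_of_lt_of_le (by positivity) h2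

theorem logden_abs {x : B} {w : ℂ} (hw : ‖w‖ ≤ 1) :
    ‖Real.log ‖D.den x w‖‖ ≤ Real.log (2 * D.M) := by
  obtain ⟨h1, h2, h3⟩ := hden x w hw
  have hp := den_pos D hden (x := x) hw
  rw [Real.norm_eq_abs, abs_le]
  constructor
  · have := Real.log_le_log (by positivity) h2
    rw [Real.log_inv] at this
    linarith
  · exact Real.log_le_log hp h3

theorem LL_tendsto [IsProbabilityMeasure m] (w : ℕ → B → ℂ) (w0 : B → ℂ)
    (hw : ∀ j, Measurable (w j)) (hb : ∀ j x, ‖w j x‖ ≤ 1) (hb0 : ∀ x, ‖w0 x‖ ≤ 1)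
    (h : ∀ᵐ x ∂m, Tendsto (fun j => w j x) atTop (𝓝 (w0 x))) :
    Tendsto (fun j => D.LL (w j)) atTop (𝓝 (D.LL w0)) := by
  unfold Coc.LL
  refine tendsto_integral_of_dominated_convergence (fun _ => Real.log (2 * D.M)) ?_
    (integrable_const _) ?_ ?_
  · intro j
    exact (Real.measurable_log.comp (meas_den D measurable_id (hw j)).norm).aestronglyMeasurable
  · intro j
    exact Eventually.of_forall fun x => logden_abs D hden (hb j x)
  · filter_upwards [h] with x hx
    have h1 : Tendsto (fun j => D.den x (w j x)) atTop (𝓝 (D.den x (w0 x))) := by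
      unfold Coc.den
      exact (hx.const_mul _).add_const _
    exact ((Real.continuousAt_log (den_pos D hden (hb0 x)).ne').tendsto).comp h1.norm

theorem LL_abs [IsProbabilityMeasure m] (w : B → ℂ) (hb : ∀ x, ‖w x‖ ≤ 1) :
    ‖D.LL w‖ ≤ Real.log (2 * D.M) := by
  unfold Coc.LL
  have := norm_integral_le_of_norm_le_const (μ := m) (f := fun x => Real.log ‖D.den x (w x)‖)
    (C := Real.log (2 * D.M)) (Eventually.of_forall fun x => logden_abs D hden (hb x))
  simpa using this

omit hden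

theorem LL_meas [IsProbabilityMeasure m] (w : Circ → B → ℂ) (hw : Measurable (Function.uncurry w)) :
    Measurable fun θ => D.LL (w θ) := by
  unfold Coc.LL
  have h1 : StronglyMeasurable (Function.uncurry fun (θ : Circ) (x : B) =>
      Real.log ‖D.den x (w θ x)‖) := by
    have h2 : Measurable fun p : Circ × B => D.den p.2 (w p.1 p.2) :=
      meas_den D measurable_snd hw
    exact (Real.measurable_log.comp h2.norm).stronglyMeasurable
  exact h1.integral_prod_right.measurable

theorem joint_u {u : ℂ → B → ℂ} (hu : D.IsSec u) {r : ℝ} (hr0 : 0 < r) (hr1 : r < 1) :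
    Measurable (Function.uncurry fun (θ : Circ) (x : B) => u (r * e θ) x) := by
  have hb : ∀ θ : Circ, ‖(r : ℂ) * e θ‖ < 1 := by
    intro θ
    rw [norm_mul, norm_e, mul_one, Complex.norm_real, Real.norm_eq_abs, abs_of_pos hr0]
    exact hr1
  refine measurable_uncurry_of_continuous_of_measurable (fun x => ?_) (fun θ => hu.meas _ (hb θ))
  have h1 : ContinuousOn (fun l => u l x) (Metric.ball 0 1) := (hu.hol x).continuousOn
  exact h1.comp_continuous (continuous_const.mul cont_e) fun θ => by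
    rw [mem_ball_zero_iff]
    exact hb θ

theorem log_lower {s : ℝ} (h0 : 0 ≤ s) (h1 : s ≤ 1) : s / 2 ≤ Real.log (1 + s) := by
  have h2 := Real.one_sub_inv_le_log_of_pos (x := 1 + s) (by linarith)
  refine le_trans ?_ h2
  have h3 : 1 - (1 + s)⁻¹ = s / (1 + s) := by
    field_simp
    ring
  rw [h3]
  exact div_le_div_of_nonneg_left h0 (by linarith) (by linarith)

/-- the last step: exponent bounds imply that the limit lies in the open disc -/
theorem last [IsProbabilityMeasure m] (r : ℕ → ℝ) (hr : ∀ j, 0 < r j ∧ r j < 1)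
    (hr1 : Tendsto r atTop (𝓝 1)) (w : ℕ → B → ℂ) (w0 : B → ℂ) (hw : ∀ j, Measurable (w j))
    (hw0 : Measurable w0)
    (hb : ∀ j x, ‖w j x‖ ≤ r j) (hb0 : ∀ x, ‖w0 x‖ ≤ 1)
    (h : ∀ᵐ x ∂m, Tendsto (fun j => w j x) atTop (𝓝 (w0 x))) (C : ℝ)
    (hf : ∃ᶠ j in atTop,
      ∫ x, Real.log (1 + (1 - r j) * (‖w j x‖ ^ 2 / (1 - ‖w j x‖ ^ 2))) ∂m ≤ 2 * (C * (1 - r j))) :
    ∀ᵐ x ∂m, ‖w0 x‖ < 1 := by
  set E : Set B := {x | ‖w0 x‖ = 1} with hE
  have hEm : MeasurableSet E := hw0.norm (measurableSet_singleton 1)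
  have hsq : ∀ j x, 0 < 1 - ‖w j x‖ ^ 2 := by
    intro j x
    have h1 := hb j x
    have h2 := (hr j).2
    have h3 := norm_nonneg (w j x)
    nlinarith
  have hY0 : ∀ j x, 0 ≤ ‖w j x‖ ^ 2 / (1 - ‖w j x‖ ^ 2) := fun j x =>
    div_nonneg (sq_nonneg _) (hsq j x).le
  have hYm : ∀ j, Measurable fun x => ‖w j x‖ ^ 2 / (1 - ‖w j x‖ ^ 2) := fun j =>
    ((hw j).norm.pow_const 2).div (measurable_const.sub ((hw j).norm.pow_const 2))
  have hYb : ∀ j x, ‖w j x‖ ^ 2 / (1 - ‖w j x‖ ^ 2) ≤ 1 / (1 - r j ^ 2) := by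
    intro j x
    have h1 := hb j x
    have h2 := (hr j).2
    have h2' := (hr j).1
    have h3 := norm_nonneg (w j x)
    have h4 : 0 < 1 - r j ^ 2 := by nlinarith
    exact div_le_div₀ (by norm_num) (by nlinarith) h4 (by nlinarith)
  -- bound with truncation
  have key : ∀ K : ℕ, 1 ≤ K → (K : ℝ) * m.real E ≤ 4 * C := by
    intro K hK
    have hKpos : (1 : ℝ) ≤ K := by exact_mod_cast hK
    have hev : ∀ᶠ j in atTop, (1 - r j) * K ≤ 1 := by
      have : Tendsto (fun j => (1 - r j) * K) atTop (𝓝 ((1 - 1) * K)) :=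
        (tendsto_const_nhds.sub hr1).mul_const _
      rw [sub_self, zero_mul] at this
      exact (this.eventually (ge_mem_nhds (by norm_num : (0 : ℝ) < 1)))
    set Gk : ℕ → B → ℝ := fun j x => min (‖w j x‖ ^ 2 / (1 - ‖w j x‖ ^ 2)) K with hG
    have hGm : ∀ j, Measurable (Gk j) := fun j => (hYm j).min measurable_const
    have hG0 : ∀ j x, 0 ≤ Gk j x := fun j x => le_min (hY0 j x) (by linarith)
    have hGK : ∀ j x, Gk j x ≤ K := fun j x => min_le_right _ _
    have hGi : ∀ j, Integrable (Gk j) m := fun j =>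
      Integrable.of_bound (hGm j).aestronglyMeasurable (K : ℝ)
        (Eventually.of_forall fun x => by
          rw [Real.norm_eq_abs, abs_of_nonneg (hG0 j x)]
          exact hGK j x)
    have hfr : ∃ᶠ j in atTop, ∫ x in E, Gk j x ∂m ≤ 4 * C := by
      refine (hf.and_eventually hev).mono fun j hj => ?_
      obtain ⟨hj1, hj2⟩ := hj
      have hrj : 0 < 1 - r j := by
        have := (hr j).2
        linarith
      have hLm : Measurable fun x =>
          Real.log (1 + (1 - r j) * (‖w j x‖ ^ 2 / (1 - ‖w j x‖ ^ 2))) :=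
        Real.measurable_log.comp (measurable_const.add ((hYm j).const_mul _))
      have hLi : Integrable (fun x =>
          Real.log (1 + (1 - r j) * (‖w j x‖ ^ 2 / (1 - ‖w j x‖ ^ 2)))) m := by
        refine Integrable.of_bound hLm.aestronglyMeasurable
          ((1 - r j) * (1 / (1 - r j ^ 2))) (Eventually.of_forall fun x => ?_)
        have h1 : 0 ≤ (1 - r j) * (‖w j x‖ ^ 2 / (1 - ‖w j x‖ ^ 2)) := mul_nonneg hrj.le (hY0 j x)
        rw [Real.norm_eq_abs, abs_of_nonneg (Real.log_nonneg (by linarith))]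
        have h2 := Real.log_le_sub_one_of_pos
          (x := 1 + (1 - r j) * (‖w j x‖ ^ 2 / (1 - ‖w j x‖ ^ 2))) (by linarith)
        have h3 := mul_le_mul_of_nonneg_left (hYb j x) hrj.le
        linarith
      have hle : ∫ x, (1 - r j) / 2 * Gk j x ∂m ≤ 2 * (C * (1 - r j)) := by
        refine le_trans (integral_mono ((hGi j).const_mul _) hLi fun x => ?_) hj1
        have h1 : 0 ≤ (1 - r j) * Gk j x := mul_nonneg hrj.le (hG0 j x)
        have h2 : (1 - r j) * Gk j x ≤ 1 :=
          (mul_le_mul_of_nonneg_left (hGK j x) hrj.le).trans hj2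
        have h3 := log_lower h1 h2
        have h4 : Real.log (1 + (1 - r j) * Gk j x) ≤
            Real.log (1 + (1 - r j) * (‖w j x‖ ^ 2 / (1 - ‖w j x‖ ^ 2))) := by
          apply Real.log_le_log (by linarith)
          have := mul_le_mul_of_nonneg_left (min_le_left (‖w j x‖ ^ 2 / (1 - ‖w j x‖ ^ 2)) (K : ℝ))
            hrj.le
          linarith
        show (1 - r j) / 2 * Gk j x ≤ _
        linarith
      rw [integral_const_mul] at hle
      have hle2 : ∫ x, Gk j x ∂m ≤ 4 * C := by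
        by_contra hcon
        push Not at hcon
        have : (1 - r j) / 2 * (4 * C) < (1 - r j) / 2 * ∫ x, Gk j x ∂m :=
          mul_lt_mul_of_pos_left hcon (by linarith)
        linarith
      exact (setIntegral_le_integral (hGi j) (Eventually.of_forall (hG0 j))).trans hle2
    have hlim : Tendsto (fun j => ∫ x in E, Gk j x ∂m) atTop (𝓝 (∫ _ in E, (K : ℝ) ∂m)) := by
      refine tendsto_integral_of_dominated_convergence (fun _ => (K : ℝ)) ?_
        (integrable_const _) ?_ ?_
      · intro j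
        exact (hGm j).aestronglyMeasurable
      · intro j
        exact Eventually.of_forall fun x => by
          rw [Real.norm_eq_abs, abs_of_nonneg (hG0 j x)]
          exact hGK j x
      · rw [ae_restrict_iff' hEm]
        filter_upwards [h] with x hx hxE
        have hn : Tendsto (fun j => ‖w j x‖ ^ 2) atTop (𝓝 1) := by
          have := (hx.norm).pow 2
          rw [show ‖w0 x‖ = 1 from hxE, one_pow] at this
          exact this
        have hlt : (K : ℝ) / (K + 1) < 1 := by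
          rw [div_lt_one (by linarith)]
          linarith
        have hev2 := hn.eventually (lt_mem_nhds hlt)
        refine tendsto_const_nhds.congr' ?_
        filter_upwards [hev2] with j hj
        simp only [hG]
        rw [min_eq_right]
        rw [le_div_iff₀ (hsq j x)]
        rw [div_lt_iff₀ (by linarith)] at hj
        nlinarith
    have hfin := le_of_tendsto_of_frequently hlim hfr
    rw [setIntegral_const, smul_eq_mul, mul_comm] at hfin
    exact hfin
  have hE0 : m.real E = 0 := by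
    by_contra hne
    have hpos : 0 < m.real E := lt_of_le_of_ne measureReal_nonneg (Ne.symm hne)
    obtain ⟨K, hK⟩ := exists_nat_gt (4 * C / m.real E)
    have h1 := key (K + 1) (by omega)
    rw [div_lt_iff₀ hpos] at hK
    push_cast at h1
    nlinarith
  have hE1 : m E = 0 := (measureReal_eq_zero_iff (measure_ne_top m E)).1 hE0
  have hae : ∀ᵐ x ∂m, x ∉ E := measure_eq_zero_iff_ae_notMem.1 hE1
  filter_upwards [hae] with x hx
  exact lt_of_le_of_ne (hb0 x) hx

end KOTaux

/-- Kotani's theorem: for almost every `θ` with exponent zero the boundary section lies inside the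
disc. -/
theorem kotani {B : Type*} [MeasurableSpace B] {m : Measure B} [IsProbabilityMeasure m]
    (D : Coc B m) {u : ℂ → B → ℂ} (hu : D.IsSec u) (r : ℕ → ℝ) (hr : ∀ j, 0 < r j ∧ r j < 1)
    (hr1 : Tendsto r atTop (𝓝 1)) (U : Circ → B → ℂ) (mU : Measurable (Function.uncurry U))
    (bU : ∀ θ x, ‖U θ x‖ ≤ 1)
    (hU : ∀ᵐ p : Circ × B ∂(volume.prod m),
      Tendsto (fun j => u (r j * e p.1) p.2) atTop (𝓝 (U p.1 p.2)))
    (hden : ∀ x w, ‖w‖ ≤ 1 → 1 ≤ D.M ∧ (2 * D.M)⁻¹ ≤ ‖D.den x w‖ ∧ ‖D.den x w‖ ≤ 2 * D.M)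
    (hmon : ∀ l : ℂ, ‖l‖ = 1 → ∀ r s : ℝ, 0 < r → r ≤ s → s < 1 →
      D.LL (u (s * l)) - Real.log s / 2 ≤ D.LL (u (r * l)) - Real.log r / 2)
    (hlow : ∀ l : ℂ, l ≠ 0 → ‖l‖ < 1 →
      ∫ x, Real.log (1 + (1 - ‖l‖) * (‖u l x‖ ^ 2 / (1 - ‖u l x‖ ^ 2))) ∂m ≤
        2 * (D.LL (u l) - Real.log ‖l‖ / 2))
    (hmean : ∀ r : ℝ, 0 ≤ r → r < 1 →
      ∫ θ : Circ, D.LL (u (r * e θ)) = ∫ x, Real.log ‖D.a x‖ ∂m) :
    ∀ᵐ θ : Circ, 0 ≤ D.LL (U θ) ∧ (D.LL (U θ) = 0 → ∀ᵐ x ∂m, ‖U θ x‖ < 1) := by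
  have : IsProbabilityMeasure (volume : Measure Circ) := ⟨UnitAddCircle.measure_univ⟩
  have hle : ∀ (j : ℕ) (θ : Circ), ‖(r j : ℂ) * e θ‖ = r j := by
    intro j θ
    rw [norm_mul, KOTaux.norm_e, mul_one, Complex.norm_real, Real.norm_eq_abs,
      abs_of_pos (hr j).1]
  have hub : ∀ j θ x, ‖u (r j * e θ) x‖ ≤ r j := by
    intro j θ x
    have := hu.le (r j * e θ) x (by rw [hle]; exact (hr j).2)
    rwa [hle] at this
  have hub1 : ∀ j θ x, ‖u (r j * e θ) x‖ ≤ 1 := fun j θ x => (hub j θ x).trans (hr j).2.le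
  have hum : ∀ j θ, Measurable (u (r j * e θ)) := fun j θ =>
    hu.meas _ (by rw [hle]; exact (hr j).2)
  -- convergence of the exponents
  have hlim0 : ∀ᵐ θ : Circ, ∀ᵐ x ∂m, Tendsto (fun j => u (r j * e θ) x) atTop (𝓝 (U θ x)) :=
    Measure.ae_ae_of_ae_prod hU
  have hlimLL : ∀ᵐ θ : Circ, Tendsto (fun j => D.LL (u (r j * e θ))) atTop (𝓝 (D.LL (U θ))) := by
    filter_upwards [hlim0] with θ hθ
    exact KOTaux.LL_tendsto D hden (fun j => u (r j * e θ)) (U θ) (fun j => hum j θ)
      (fun j x => hub1 j θ x) (fun x => bU θ x) hθ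
  have hlogr : Tendsto (fun j => Real.log (r j) / 2) atTop (𝓝 0) := by
    have h1 := ((Real.continuousAt_log one_ne_zero).tendsto.comp hr1).div_const 2
    rw [Real.log_one, zero_div] at h1
    exact h1
  have hlimL : ∀ᵐ θ : Circ, Tendsto (fun j => D.LL (u (r j * e θ)) - Real.log (r j) / 2) atTop
      (𝓝 (D.LL (U θ))) := by
    filter_upwards [hlimLL] with θ hθ
    have := hθ.sub hlogr
    rwa [sub_zero] at this
  have hlow' : ∀ j θ, ∫ x, Real.log (1 + (1 - r j) * (‖u (r j * e θ) x‖ ^ 2 /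
      (1 - ‖u (r j * e θ) x‖ ^ 2))) ∂m ≤
      2 * (D.LL (u (r j * e θ)) - Real.log (r j) / 2) := by
    intro j θ
    have hne : (r j : ℂ) * e θ ≠ 0 := by
      rw [← norm_pos_iff, hle]
      exact (hr j).1
    have := hlow (r j * e θ) hne (by rw [hle]; exact (hr j).2)
    rwa [hle] at this
  have hL0 : ∀ j θ, 0 ≤ D.LL (u (r j * e θ)) - Real.log (r j) / 2 := by
    intro j θ
    have h1 := hlow' j θ
    have h2 : 0 ≤ ∫ x, Real.log (1 + (1 - r j) * (‖u (r j * e θ) x‖ ^ 2 /
      (1 - ‖u (r j * e θ) x‖ ^ 2))) ∂m := by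
      refine integral_nonneg fun x => Real.log_nonneg ?_
      have h3 := hub j θ x
      have h4 := (hr j).2
      have h5 := norm_nonneg (u (r j * e θ) x)
      have h6 : 0 < 1 - ‖u (r j * e θ) x‖ ^ 2 := by nlinarith
      have h7 : 0 ≤ (1 - r j) * (‖u (r j * e θ) x‖ ^ 2 / (1 - ‖u (r j * e θ) x‖ ^ 2)) :=
        mul_nonneg (by linarith) (div_nonneg (sq_nonneg _) h6.le)
      linarith
    linarith
  -- the limit is below
  have hbelow : ∀ᵐ θ : Circ, ∀ j, D.LL (U θ) ≤ D.LL (u (r j * e θ)) - Real.log (r j) / 2 := by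
    filter_upwards [hlimL] with θ hθ j
    refine le_of_tendsto hθ ?_
    have hev : ∀ᶠ k in atTop, r j ≤ r k := by
      have := hr1.eventually (lt_mem_nhds (hr j).2)
      exact this.mono fun k hk => hk.le
    filter_upwards [hev] with k hk
    exact hmon (e θ) (KOTaux.norm_e θ) (r j) (r k) (hr j).1 hk (hr k).2
  -- measurability and integrals
  have hm1 : ∀ j, Measurable fun θ : Circ => D.LL (u (r j * e θ)) := fun j =>
    KOTaux.LL_meas D (fun θ => u (r j * e θ)) (KOTaux.joint_u D hu (hr j).1 (hr j).2)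
  have hm2 : Measurable fun θ : Circ => D.LL (U θ) := KOTaux.LL_meas D U mU
  have hi1 : ∀ j, Integrable (fun θ : Circ => D.LL (u (r j * e θ))) := fun j =>
    Integrable.of_bound (hm1 j).aestronglyMeasurable (Real.log (2 * D.M))
      (Eventually.of_forall fun θ => KOTaux.LL_abs D hden _ (hub1 j θ))
  have hi2 : Integrable (fun θ : Circ => D.LL (U θ)) :=
    Integrable.of_bound hm2.aestronglyMeasurable (Real.log (2 * D.M))
      (Eventually.of_forall fun θ => KOTaux.LL_abs D hden _ (bU θ))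
  have hintU : ∫ θ : Circ, D.LL (U θ) = ∫ x, Real.log ‖D.a x‖ ∂m := by
    have h1 : Tendsto (fun j => ∫ θ : Circ, D.LL (u (r j * e θ))) atTop
        (𝓝 (∫ θ : Circ, D.LL (U θ))) := by
      refine tendsto_integral_of_dominated_convergence (fun _ => Real.log (2 * D.M))
        (fun j => (hm1 j).aestronglyMeasurable) (integrable_const _)
        (fun j => Eventually.of_forall fun θ => KOTaux.LL_abs D hden _ (hub1 j θ)) hlimLL
    have h2 : ∀ j, ∫ θ : Circ, D.LL (u (r j * e θ)) = ∫ x, Real.log ‖D.a x‖ ∂m := fun j =>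
      hmean (r j) (hr j).1.le (hr j).2
    simp only [h2] at h1
    exact tendsto_nhds_unique h1 tendsto_const_nhds |>.symm ▸ rfl
  set Fn : ℕ → Circ → ENNReal := fun j θ =>
    ENNReal.ofReal ((D.LL (u (r j * e θ)) - Real.log (r j) / 2 - D.LL (U θ)) / (1 - r j)) with hFn
  have hFm : ∀ j, Measurable (Fn j) := fun j =>
    ((((hm1 j).sub_const _).sub hm2).div_const _).ennreal_ofReal
  have hFi : ∀ j, ∫⁻ θ, Fn j θ = ENNReal.ofReal ((-(Real.log (r j) / 2)) / (1 - r j)) := by
    intro j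
    have hrj : 0 < 1 - r j := by
      have := (hr j).2
      linarith
    have hint : Integrable fun θ : Circ =>
        (D.LL (u (r j * e θ)) - Real.log (r j) / 2 - D.LL (U θ)) / (1 - r j) :=
      (((hi1 j).sub (integrable_const _)).sub hi2).div_const _
    have hnn : 0 ≤ᵐ[volume] fun θ : Circ =>
        (D.LL (u (r j * e θ)) - Real.log (r j) / 2 - D.LL (U θ)) / (1 - r j) := by
      filter_upwards [hbelow] with θ hθ
      exact div_nonneg (by linarith [hθ j]) hrj.le
    rw [hFn, ← ofReal_integral_eq_lintegral_ofReal hint hnn]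
    congr 1
    have hs1 : ∫ θ : Circ, (D.LL (u (r j * e θ)) - Real.log (r j) / 2 - D.LL (U θ)) =
        (∫ θ : Circ, (D.LL (u (r j * e θ)) - Real.log (r j) / 2)) - ∫ θ : Circ, D.LL (U θ) :=
      integral_sub ((hi1 j).sub (integrable_const _)) hi2
    have hs2 : ∫ θ : Circ, (D.LL (u (r j * e θ)) - Real.log (r j) / 2) =
        (∫ θ : Circ, D.LL (u (r j * e θ))) - ∫ _ : Circ, Real.log (r j) / 2 :=
      integral_sub (hi1 j) (integrable_const _)
    rw [integral_div, hs1, hs2, hintU, hmean (r j) (hr j).1.le (hr j).2]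
    simp
  have hliminf : liminf (fun j => ∫⁻ θ, Fn j θ) atTop ≤ 1 := by
    refine Filter.liminf_le_of_frequently_le' (Eventually.frequently ?_)
    have hev : ∀ᶠ j in atTop, 1 / 2 < r j := hr1.eventually (lt_mem_nhds (by norm_num))
    filter_upwards [hev] with j hj
    rw [hFi j]
    rw [← ENNReal.ofReal_one]
    apply ENNReal.ofReal_le_ofReal
    have hrj : 0 < 1 - r j := by
      have := (hr j).2
      linarith
    rw [div_le_one hrj]
    have h1 := Real.log_le_sub_one_of_pos (x := (r j)⁻¹) (inv_pos.2 (hr j).1)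
    rw [Real.log_inv] at h1
    have h2 : (r j)⁻¹ - 1 ≤ 2 * (1 - r j) := by
      have h3 : (r j)⁻¹ - 1 = (1 - r j) / r j := by
        field_simp [(hr j).1.ne']
      rw [h3, div_le_iff₀ (hr j).1]
      nlinarith
    linarith
  have hfatou : ∫⁻ θ, liminf (fun j => Fn j θ) atTop ≠ ⊤ :=
    ne_top_of_le_ne_top ENNReal.one_ne_top ((lintegral_liminf_le hFm).trans hliminf)
  have hfin := ae_lt_top (Measurable.liminf hFm) hfatou
  filter_upwards [hlim0, hlimL, hfin, hbelow] with θ h0 h1 h2 h3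
  refine ⟨ge_of_tendsto' h1 fun j => hL0 j θ, fun hz => ?_⟩
  obtain ⟨C, hC1, hC2⟩ := ENNReal.lt_iff_exists_nnreal_btwn.1 h2
  have hfr := Filter.frequently_lt_of_liminf_lt (by isBoundedDefault) hC1
  refine KOTaux.last (m := m) r hr hr1 (fun j => u (r j * e θ)) (U θ) (fun j => hum j θ)
    (mU.comp measurable_prodMk_left) (fun j x => hub j θ x) (fun x => bU θ x) h0 (C : ℝ) ?_
  refine hfr.mono fun j hj => ?_
  have hrj : 0 < 1 - r j := by
    have := (hr j).2
    linarith
  refine (hlow' j θ).trans ?_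
  have h4 : (D.LL (u (r j * e θ)) - Real.log (r j) / 2 - D.LL (U θ)) / (1 - r j) ≤ C := by
    have h5 : ENNReal.ofReal ((D.LL (u (r j * e θ)) - Real.log (r j) / 2 - D.LL (U θ)) /
        (1 - r j)) ≤ ENNReal.ofReal (C : ℝ) := by
      rw [ENNReal.ofReal_coe_nnreal]
      exact hj.le
    exact (ENNReal.ofReal_le_ofReal_iff C.2).1 h5
  rw [hz, sub_zero, div_le_iff₀ hrj] at h4
  linarith

end Pool.Agent.H728R2.FA
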