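import Pool.Agent.H728R2.FA.Base

open Set Filter Topology MeasureTheory
open scoped ComplexConjugate

namespace Pool.Agent.H728R2.FA

open Pool.Agent.H728R2.OS

namespace PKFAux

theorem norm_e (y : Circ) : ‖e y‖ = 1 := by
  unfold e
  exact Circle.norm_coe _

theorem cont_e : Continuous e := by
  unfold e
  exact continuous_subtype_val.comp AddCircle.continuous_toCircle

theorem conj_e (y : Circ) : conj (e y) = (e y)⁻¹ := by
  rw [Complex.inv_def, Complex.normSq_eq_norm_sq, norm_e]
  simp

theorem PK_cont (z : ℂ) (hz : ‖z‖ < 1) : Continuous (fun y : Circ => PK z y) := by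
  unfold PK
  refine Continuous.div continuous_const ?_ ?_
  · exact ((cont_e.sub continuous_const).norm).pow 2
  · intro y
    have h1 : 0 < ‖e y - z‖ := by
      have := norm_sub_norm_le (e y) z
      rw [norm_e] at this
      linarith
    positivity

theorem circleMap_e (t : ℝ) : circleMap 0 1 (2 * Real.pi * t) = e (t : UnitAddCircle) := by
  unfold e circleMap
  rw [AddCircle.toCircle_apply_mk, Circle.coe_exp]
  push_cast
  simp

/-- Averages over the unit circle are integrals over `ℝ/ℤ`. -/
theorem avg_eq {E : Type*} [NormedAddCommGroup E] [NormedSpace ℝ E] (g : ℂ → E) :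
    Real.circleAverage g 0 1 = ∫ y : Circ, g (e y) := by
  rw [Real.circleAverage_def]
  have h1 : (∫ θ in (0 : ℝ)..2 * Real.pi, g (circleMap 0 1 θ)) =
      (2 * Real.pi) • ∫ t in (0 : ℝ)..1, g (circleMap 0 1 (2 * Real.pi * t)) := by
    have hpi : (2 * Real.pi) ≠ 0 := by positivity
    rw [intervalIntegral.integral_comp_mul_left (fun θ => g (circleMap 0 1 θ)) hpi]
    rw [smul_smul, mul_inv_cancel₀ hpi, one_smul]
    simp
  rw [h1, smul_smul, inv_mul_cancel₀ (by positivity), one_smul]
  have h2 := UnitAddCircle.intervalIntegral_preimage 0 (fun y : UnitAddCircle => g (e y))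
  rw [zero_add] at h2
  rw [← h2]
  refine intervalIntegral.integral_congr fun t _ => ?_
  simp only [circleMap_e]

/-- The Poisson integral formula. -/
theorem poisson (z : ℂ) (hz : ‖z‖ < 1) (f : ℂ → ℂ) (hf : DiffContOnCl ℂ f (Metric.ball 0 1)) :
    ∫ y : Circ, f (e y) * (PK z y : ℂ) = f z := by
  have hw : z ∈ Metric.ball (0 : ℂ) 1 := by simpa using hz
  have h := hf.circleAverage_poissonKernel_smul hw
  rw [avg_eq] at h
  rw [← h]
  refine integral_congr_ae (Eventually.of_forall fun y => ?_)
  simp only [Pi.smul_apply', poissonKernel_def, PK, sub_zero, norm_e, Complex.real_smul]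
  push_cast
  ring

end PKFAux

open PKFAux

/-- Bounds and measurability of the Poisson kernel. -/
theorem PK_bounds (z : ℂ) (hz : ‖z‖ < 1) (y : Circ) :
    (1 - ‖z‖) / (1 + ‖z‖) ≤ PK z y ∧ PK z y ≤ (1 + ‖z‖) / (1 - ‖z‖) := by
  have h1 : 1 - ‖z‖ ≤ ‖e y - z‖ := by
    have := norm_sub_norm_le (e y) z
    rwa [norm_e] at this
  have h2 : ‖e y - z‖ ≤ 1 + ‖z‖ := by
    have := norm_sub_le (e y) z
    rwa [norm_e] at this
  have h0 : 0 ≤ ‖z‖ := norm_nonneg z
  have h3 : 0 < ‖e y - z‖ := by linarith
  unfold PK
  have e1 : 1 - ‖z‖ ^ 2 = (1 - ‖z‖) * (1 + ‖z‖) := by ring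
  rw [e1]
  constructor
  · rw [div_le_div_iff₀ (by linarith) (by positivity)]
    have : ‖e y - z‖ ^ 2 ≤ (1 + ‖z‖) ^ 2 := by gcongr
    nlinarith
  · rw [div_le_div_iff₀ (by positivity) (by linarith)]
    have : (1 - ‖z‖) ^ 2 ≤ ‖e y - z‖ ^ 2 := by
      have h4 : 0 ≤ 1 - ‖z‖ := by linarith
      gcongr
    nlinarith

theorem PK_measurable : Measurable (fun p : ℂ × Circ => PK p.1 p.2) := by
  unfold PK
  have h1 : Measurable (fun p : ℂ × Circ => e p.2) := cont_e.measurable.comp measurable_snd
  fun_prop

/-- The Poisson formula for monomials. -/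
theorem PK_moment (z : ℂ) (hz : ‖z‖ < 1) (j : ℤ) :
    ∫ y : Circ, e y ^ j * (PK z y : ℂ) = HH j z := by
  have hp : ∀ k : ℕ, ∫ y : Circ, e y ^ k * (PK z y : ℂ) = z ^ k := fun k =>
    poisson z hz (fun w => w ^ k) ((differentiable_id.pow k).diffContOnCl)
  unfold HH
  split_ifs with h
  · obtain ⟨k, rfl⟩ := Int.eq_ofNat_of_zero_le h
    simpa using hp k
  · obtain ⟨k, hk⟩ := Int.eq_ofNat_of_zero_le (show 0 ≤ -j by omega)
    have hj : j = -(k : ℤ) := by omega
    subst hj
    simp only [neg_neg, Int.toNat_natCast]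
    have h2 := congrArg conj (hp k)
    rw [← integral_conj, map_pow] at h2
    rw [← h2]
    refine integral_congr_ae (Eventually.of_forall fun y => ?_)
    simp only [map_mul, map_pow, Complex.conj_ofReal, conj_e, zpow_neg, zpow_natCast, inv_pow]

namespace PKFAux

theorem e_inj : Function.Injective e := by
  intro x y h
  unfold e at h
  exact AddCircle.injective_toCircle one_ne_zero (Subtype.ext h)

/-- A map whose composition with `e` is continuous is continuous. -/
theorem cont_of_e (g : Circ → Circ) (h : Continuous fun y => e (g y)) : Continuous g := by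
  have he : IsEmbedding (e : Circ → ℂ) :=
    (Continuous.isClosedEmbedding cont_e e_inj).isEmbedding
  exact he.continuous_iff.mpr h

/-- Two finite measures on the circle with the same moments are equal. -/
theorem ext_moment (μ ν : Measure Circ) [IsFiniteMeasure μ] [IsFiniteMeasure ν]
    (h : ∀ j : ℤ, ∫ y, e y ^ j ∂μ = ∫ y, e y ^ j ∂ν) : μ = ν := by
  have key : ∀ f : C(Circ, ℂ), ∫ y, f y ∂μ = ∫ y, f y ∂ν := by
    intro f
    have hi : ∀ (ρ : Measure Circ) [IsFiniteMeasure ρ] (f : C(Circ, ℂ)), Integrable (fun y => f y) ρ := by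
      intro ρ _ f
      exact f.continuous.integrable_of_hasCompactSupport (HasCompactSupport.of_compactSpace f)
    let S : Submodule ℂ C(Circ, ℂ) :=
      { carrier := {f | ∫ y, f y ∂μ = ∫ y, f y ∂ν}
        add_mem' := by
          intro f g hf hg
          simp only [mem_ofPred_eq, ContinuousMap.add_apply] at *
          rw [integral_add (hi μ f) (hi μ g), integral_add (hi ν f) (hi ν g), hf, hg]
        zero_mem' := by simp
        smul_mem' := by
          intro c f hf
          simp only [mem_ofPred_eq, ContinuousMap.smul_apply, smul_eq_mul] at *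
          rw [integral_const_mul, integral_const_mul, hf] }
    have hcont : ∀ (ρ : Measure Circ) [IsFiniteMeasure ρ],
        Continuous (fun f : C(Circ, ℂ) => ∫ y, f y ∂ρ) := by
      intro ρ _
      rw [Metric.continuous_iff]
      intro f ε hε
      refine ⟨ε / (ρ.real univ + 1), by positivity, fun g hg => ?_⟩
      rw [dist_eq_norm, ← integral_sub (hi ρ g) (hi ρ f)]
      have h1 : ∀ y, ‖g y - f y‖ ≤ dist g f := by
        intro y
        rw [← dist_eq_norm]
        exact ContinuousMap.dist_apply_le_dist y
      have h2 : ‖∫ y, (g y - f y) ∂ρ‖ ≤ dist g f * ρ.real univ :=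
        norm_integral_le_of_norm_le_const (Eventually.of_forall h1)
      have h3 : 0 ≤ ρ.real univ := measureReal_nonneg
      calc ‖∫ y, (g y - f y) ∂ρ‖ ≤ dist g f * ρ.real univ := h2
        _ ≤ dist g f * (ρ.real univ + 1) := by
          have : 0 ≤ dist g f := dist_nonneg
          nlinarith
        _ < ε / (ρ.real univ + 1) * (ρ.real univ + 1) := by
          have : 0 < ρ.real univ + 1 := by linarith
          exact mul_lt_mul_of_pos_right hg this
        _ = ε := by field_simp
    have hclosed : IsClosed (S : Set C(Circ, ℂ)) := isClosed_eq (hcont μ) (hcont ν)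
    have hsub : Submodule.span ℂ (range (fourier : ℤ → C(Circ, ℂ))) ≤ S := by
      rw [Submodule.span_le]
      rintro _ ⟨n, rfl⟩
      change ∫ y, fourier n y ∂μ = ∫ y, fourier n y ∂ν
      have hn : ∀ y : Circ, fourier n y = e y ^ n := by
        intro y
        rw [fourier_apply]
        unfold e
        rw [AddCircle.toCircle_zsmul, Circle.coe_zpow]
      simp only [hn]
      exact h n
    have htop : (Submodule.span ℂ (range (fourier : ℤ → C(Circ, ℂ)))).topologicalClosure ≤ S :=
      Submodule.topologicalClosure_minimal _ hsub hclosed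
    rw [span_fourier_closure_eq_top] at htop
    exact htop (Submodule.mem_top (x := f))
  refine ext_of_forall_integral_eq_of_IsFiniteMeasure fun f => ?_
  have h1 := key ⟨fun y => ((f y : ℝ) : ℂ), Complex.continuous_ofReal.comp f.continuous⟩
  simp only [ContinuousMap.coe_mk] at h1
  rw [integral_complex_ofReal, integral_complex_ofReal] at h1
  exact_mod_cast h1

end PKFAux

/-- Moebius maps of the circle transport Poisson measures. -/
theorem PK_transport (l a b : ℂ) (hl : ‖l‖ = 1) (hab : ‖a‖ ^ 2 - ‖b‖ ^ 2 = 1) (g : Circ → Circ)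
    (hg : ∀ y, e (g y) = l * (a * e y + b) / (conj b * e y + conj a)) (z : ℂ) (hz : ‖z‖ < 1)
    (h : Circ → ℝ) (mh : Measurable h) (bh : ∃ C, ∀ y, |h y| ≤ C) :
    ‖l * (a * z + b) / (conj b * z + conj a)‖ < 1 ∧
    ∫ y : Circ, h (g y) * PK z y =
      ∫ y : Circ, h y * PK (l * (a * z + b) / (conj b * z + conj a)) y := by
  have hba : ‖b‖ < ‖a‖ := by
    have h0 := norm_nonneg a
    have h1 := norm_nonneg b
    by_contra hc
    push Not at hc
    nlinarith
  have hden : ∀ w : ℂ, ‖w‖ ≤ 1 → conj b * w + conj a ≠ 0 := by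
    intro w hw h0
    have h1 : ‖conj a‖ = ‖conj b * w‖ := by
      have : conj a = -(conj b * w) := by linear_combination h0
      rw [this, norm_neg]
    rw [norm_mul, Complex.norm_conj, Complex.norm_conj] at h1
    have := norm_nonneg b
    nlinarith
  set φ : ℂ → ℂ := fun w => l * (a * w + b) / (conj b * w + conj a) with hφ
  have hφz : ‖φ z‖ < 1 := by
    have hd := hden z hz.le
    have hd' : 0 < ‖conj b * z + conj a‖ := norm_pos_iff.mpr hd
    rw [hφ]
    simp only
    rw [norm_div, norm_mul, hl, one_mul, div_lt_one hd']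
    have h1 : ‖a * z + b‖ ^ 2 < ‖conj b * z + conj a‖ ^ 2 := by
      have e1 : ‖conj b * z + conj a‖ ^ 2 - ‖a * z + b‖ ^ 2 =
          (‖a‖ ^ 2 - ‖b‖ ^ 2) * (1 - ‖z‖ ^ 2) := by
        rw [← Complex.normSq_eq_norm_sq, ← Complex.normSq_eq_norm_sq, ← Complex.normSq_eq_norm_sq,
          ← Complex.normSq_eq_norm_sq, ← Complex.normSq_eq_norm_sq]
        simp only [Complex.normSq_apply, Complex.add_re, Complex.add_im, Complex.mul_re,
          Complex.mul_im, Complex.conj_re, Complex.conj_im]
        ring
      have h2 : ‖z‖ ^ 2 < 1 := by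
        have := norm_nonneg z
        nlinarith
      rw [hab, one_mul] at e1
      linarith
    exact lt_of_pow_lt_pow_left₀ 2 hd'.le h1
  refine ⟨hφz, ?_⟩
  change _ = ∫ y : Circ, h y * PK (φ z) y
  have hdc : ∀ k : ℕ, DiffContOnCl ℂ (fun w => φ w ^ k) (Metric.ball 0 1) := by
    intro k
    apply DifferentiableOn.diffContOnCl
    rw [closure_ball (0 : ℂ) one_ne_zero]
    intro w hw
    have hw' : conj b * w + conj a ≠ 0 := hden w (by simpa using hw)
    apply DifferentiableAt.differentiableWithinAt
    apply DifferentiableAt.pow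
    rw [hφ]
    exact DifferentiableAt.div (c := fun w => l * (a * w + b))
      (d := fun w => conj b * w + conj a) (by fun_prop) (by fun_prop) hw'
  have hgc : Continuous g := by
    apply cont_of_e
    simp only [hg]
    refine Continuous.div ?_ ?_ fun y => hden _ (norm_e y).le
    · exact continuous_const.mul ((continuous_const.mul cont_e).add continuous_const)
    · exact (continuous_const.mul cont_e).add continuous_const
  -- the two measures
  have hnn : ∀ w : ℂ, ‖w‖ < 1 → ∀ y, 0 ≤ PK w y := by
    intro w hw y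
    have := (PK_bounds w hw y).1
    have h0 : 0 ≤ (1 - ‖w‖) / (1 + ‖w‖) := by
      have := norm_nonneg w
      apply div_nonneg <;> linarith
    linarith
  have hint : ∀ w : ℂ, ‖w‖ < 1 → Integrable (fun y => PK w y) (volume : Measure Circ) := by
    intro w hw
    exact (PK_cont w hw).integrable_of_hasCompactSupport (HasCompactSupport.of_compactSpace _)
  let ρ : ℂ → Measure Circ := fun w => (volume : Measure Circ).withDensity
    fun y => ENNReal.ofReal (PK w y)
  have hfin : ∀ w : ℂ, ‖w‖ < 1 → IsFiniteMeasure (ρ w) := by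
    intro w hw
    exact isFiniteMeasure_withDensity_ofReal (hint w hw).2
  have := hfin z hz
  have := hfin (φ z) hφz
  have hρ : ∀ (w : ℂ), ‖w‖ < 1 → ∀ (f : Circ → ℂ), ∫ y, f y ∂(ρ w) =
      ∫ y, f y * (PK w y : ℂ) := by
    intro w hw f
    change ∫ y, f y ∂((volume : Measure Circ).withDensity
      fun y => ENNReal.ofReal (PK w y)) = _
    rw [integral_withDensity_eq_integral_toReal_smul]
    · refine integral_congr_ae (Eventually.of_forall fun y => ?_)
      simp only [ENNReal.toReal_ofReal (hnn w hw y), Complex.real_smul]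
      ring
    · exact (ENNReal.measurable_ofReal.comp (PK_cont w hw).measurable)
    · exact Eventually.of_forall fun y => ENNReal.ofReal_lt_top
  have hρr : ∀ (w : ℂ), ‖w‖ < 1 → ∀ (f : Circ → ℝ), ∫ y, f y ∂(ρ w) =
      ∫ y, f y * PK w y := by
    intro w hw f
    change ∫ y, f y ∂((volume : Measure Circ).withDensity
      fun y => ENNReal.ofReal (PK w y)) = _
    rw [integral_withDensity_eq_integral_toReal_smul]
    · refine integral_congr_ae (Eventually.of_forall fun y => ?_)
      simp only [ENNReal.toReal_ofReal (hnn w hw y), smul_eq_mul]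
      ring
    · exact (ENNReal.measurable_ofReal.comp (PK_cont w hw).measurable)
    · exact Eventually.of_forall fun y => ENNReal.ofReal_lt_top
  have hmeas : Measure.map g (ρ z) = ρ (φ z) := by
    have : IsFiniteMeasure (Measure.map g (ρ z)) := Measure.isFiniteMeasure_map _ _
    apply ext_moment
    have hpos : ∀ k : ℕ, ∫ y, e y ^ k ∂(Measure.map g (ρ z)) = ∫ y, e y ^ k ∂(ρ (φ z)) := by
      intro k
      have hck : Continuous fun y : Circ => e y ^ k := cont_e.pow k
      rw [integral_map hgc.aemeasurable hck.aestronglyMeasurable, hρ z hz, hρ (φ z) hφz]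
      have h1 := poisson z hz (fun w => φ w ^ k) (hdc k)
      have h2 := poisson (φ z) hφz (fun w => w ^ k) ((differentiable_id.pow k).diffContOnCl)
      rw [h2, ← h1]
      refine integral_congr_ae (Eventually.of_forall fun y => ?_)
      simp only [hg, hφ]
    intro j
    obtain ⟨k, rfl | rfl⟩ := j.eq_nat_or_neg
    · simpa using hpos k
    · have h2 := congrArg conj (hpos k)
      rw [← integral_conj, ← integral_conj] at h2
      simpa only [map_pow, conj_e, inv_pow, zpow_neg, zpow_natCast] using h2
  rw [← hρr (φ z) hφz h, ← hmeas, integral_map hgc.aemeasurable mh.aestronglyMeasurable,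
    hρr z hz (fun y => h (g y))]

end Pool.Agent.H728R2.FA
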