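import Pool.Agent.H728R2.FA.Base

open Set Filter Topology MeasureTheory
open scoped ComplexConjugate

namespace Pool.Agent.H728R2.FA

open Pool.Agent.H728R2.OS

private theorem REL_ab {B : Type*} [MeasurableSpace B] {m : Measure B} (D : Coc B m) (x : B) :
    1 ≤ D.M ∧ ‖D.b x‖ < ‖D.a x‖ ∧ (2 * D.M)⁻¹ ≤ ‖D.a x‖ - ‖D.b x‖ ∧
      ‖D.a x‖ + ‖D.b x‖ ≤ 2 * D.M := by
  have h1 := D.det x
  have h2 := D.bd x
  have h3 := norm_nonneg (D.a x)
  have h4 := norm_nonneg (D.b x)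
  have h5 : 1 ≤ ‖D.a x‖ := by nlinarith
  have h6 : ‖D.b x‖ < ‖D.a x‖ := by nlinarith
  have hM : 1 ≤ D.M := h5.trans h2
  refine ⟨hM, h6, ?_, by linarith⟩
  rw [inv_eq_one_div, div_le_iff₀ (by linarith)]
  have h7 : (‖D.a x‖ - ‖D.b x‖) * (‖D.a x‖ + ‖D.b x‖) = 1 := by linarith [h1]
  have h8 : ‖D.a x‖ + ‖D.b x‖ ≤ 2 * D.M := by linarith
  have h9 : 0 ≤ ‖D.a x‖ - ‖D.b x‖ := by linarith
  nlinarith [mul_le_mul_of_nonneg_left h8 h9]

/-- Bounds for the multiplier `den`. -/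
theorem den_bounds {B : Type*} [MeasurableSpace B] {m : Measure B} (D : Coc B m) (x : B) (w : ℂ)
    (hw : ‖w‖ ≤ 1) : 1 ≤ D.M ∧ (2 * D.M)⁻¹ ≤ ‖D.den x w‖ ∧ ‖D.den x w‖ ≤ 2 * D.M := by
  obtain ⟨h1, h2, h3, h4⟩ := REL_ab D x
  have h5 : ‖conj (D.b x) * w‖ ≤ ‖D.b x‖ := by
    rw [norm_mul, RCLike.norm_conj]
    exact mul_le_of_le_one_right (norm_nonneg _) hw
  have h6 : ‖conj (D.a x)‖ = ‖D.a x‖ := RCLike.norm_conj _
  refine ⟨h1, ?_, ?_⟩
  · have h7 : ‖conj (D.a x)‖ - ‖conj (D.b x) * w‖ ≤ ‖D.den x w‖ := by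
      unfold Coc.den
      rw [add_comm]
      have h8 := norm_sub_norm_le (conj (D.a x)) (-(conj (D.b x) * w))
      rwa [norm_neg, sub_neg_eq_add] at h8
    rw [h6] at h7
    linarith
  · have h7 : ‖D.den x w‖ ≤ ‖conj (D.b x) * w‖ + ‖conj (D.a x)‖ := norm_add_le _ _
    rw [h6] at h7
    linarith

/-- Bounds for the multiplier `dem`. -/
theorem dem_bounds {B : Type*} [MeasurableSpace B] {m : Measure B} (D : Coc B m) (x : B) (w : ℂ)
    (hw : ‖w‖ ≤ 1) : (2 * D.M)⁻¹ ≤ ‖D.dem x w‖ ∧ ‖D.dem x w‖ ≤ 2 * D.M := by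
  obtain ⟨h1, h2, h3, h4⟩ := REL_ab D x
  have h5 : ‖D.b x * w‖ ≤ ‖D.b x‖ := by
    rw [norm_mul]
    exact mul_le_of_le_one_right (norm_nonneg _) hw
  constructor
  · have h7 : ‖D.a x‖ - ‖D.b x * w‖ ≤ ‖D.dem x w‖ := by
      unfold Coc.dem
      have h8 := norm_sub_norm_le (D.a x) (-(D.b x * w))
      rwa [norm_neg, sub_neg_eq_add] at h8
    linarith
  · have h7 : ‖D.dem x w‖ ≤ ‖D.a x‖ + ‖D.b x * w‖ := norm_add_le _ _
    linarith

private theorem REL_den_ne {B : Type*} [MeasurableSpace B] {m : Measure B} (D : Coc B m) (x : B)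
    (w : ℂ) (hw : ‖w‖ ≤ 1) : D.den x w ≠ 0 := by
  obtain ⟨h1, h2, -⟩ := den_bounds D x w hw
  intro h
  rw [h, norm_zero] at h2
  have h3 : 0 < (2 * D.M)⁻¹ := by positivity
  linarith

/-- The Hermitian form. -/
theorem den_sq {B : Type*} [MeasurableSpace B] {m : Measure B} (D : Coc B m) (l : ℂ) (hl : l ≠ 0)
    (x : B) (w : ℂ) (hw : ‖w‖ ≤ 1) :
    ‖D.den x w‖ ^ 2 * (1 - ‖D.G l x w‖ ^ 2 / ‖l‖ ^ 2) = 1 - ‖w‖ ^ 2 := by
  have h1 := REL_den_ne D x w hw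
  have h2 : ‖D.den x w‖ ≠ 0 := norm_ne_zero_iff.2 h1
  have h3 : ‖l‖ ≠ 0 := norm_ne_zero_iff.2 hl
  have h4 : ‖D.G l x w‖ = ‖l‖ * ‖D.a x * w + D.b x‖ / ‖D.den x w‖ := by
    unfold Coc.G
    rw [norm_div, norm_mul]
  have h5 : ‖D.den x w‖ ^ 2 * (1 - ‖D.G l x w‖ ^ 2 / ‖l‖ ^ 2) =
      ‖D.den x w‖ ^ 2 - ‖D.a x * w + D.b x‖ ^ 2 := by
    rw [h4]
    field_simp
  rw [h5]
  have hd := D.det x
  rw [← Complex.normSq_eq_norm_sq, ← Complex.normSq_eq_norm_sq] at hd ⊢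
  rw [← Complex.normSq_eq_norm_sq]
  unfold Coc.den
  simp only [Complex.normSq_apply, Complex.add_re, Complex.add_im, Complex.mul_re, Complex.mul_im,
    Complex.conj_re, Complex.conj_im] at hd ⊢
  linear_combination (1 - (w.re * w.re + w.im * w.im)) * hd

/-- The determinant relation for two parameters. -/
theorem det_rel {B : Type*} [MeasurableSpace B] {m : Measure B} (D : Coc B m) {u v : ℂ → B → ℂ}
    (hu : D.IsSec u) (hv : D.IsCosec v) (l : ℂ) (t : ℝ) (ht : 1 ≤ t) (hl : ‖(t : ℂ) * l‖ < 1)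
    (x : B) :
    1 - u l x * v (t * l) x = D.den x (u l x) * D.dem x (v (t * l) x) *
      (1 - t * u l (D.T x) * v (t * l) (D.T x)) := by
  have hl' : ‖l‖ < 1 := by
    rw [norm_mul, Complex.norm_real, Real.norm_eq_abs, abs_of_nonneg (by linarith)] at hl
    nlinarith [norm_nonneg l]
  have h1 : ‖u l x‖ ≤ 1 := (hu.le l x hl').trans hl'.le
  have h2 := REL_den_ne D x (u l x) h1
  have h3 := hu.inv l x hl'
  have h4 : D.den x (u l x) * u l (D.T x) = l * (D.a x * u l x + D.b x) := by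
    rw [h3]
    unfold Coc.G
    field_simp
  obtain ⟨c, hc, hvc⟩ := hv.le ‖(t : ℂ) * l‖ (norm_nonneg _) hl
  have h5 : ‖v (t * l) (D.T x)‖ ≤ 1 := (hvc (t * l) (D.T x) le_rfl).trans hc.le
  have h6 := hv.inv (t * l) x hl
  obtain ⟨-, hab, -⟩ := REL_ab D x
  have h7 : -(D.b x * (t * l * v (t * l) (D.T x))) + conj (D.a x) ≠ 0 := by
    intro h
    have h8 : conj (D.a x) = D.b x * (t * l * v (t * l) (D.T x)) := by linear_combination h
    have h9 : ‖D.a x‖ = ‖D.b x * (t * l * v (t * l) (D.T x))‖ := by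
      rw [← h8, RCLike.norm_conj]
    have h10 : ‖D.b x * (t * l * v (t * l) (D.T x))‖ ≤ ‖D.b x‖ := by
      rw [norm_mul]
      refine mul_le_of_le_one_right (norm_nonneg _) ?_
      rw [norm_mul]
      exact mul_le_one₀ hl.le (norm_nonneg _) h5
    linarith
  have h8 : v (t * l) x * (-(D.b x * (t * l * v (t * l) (D.T x))) + conj (D.a x)) =
      D.a x * (t * l * v (t * l) (D.T x)) - conj (D.b x) := by
    rw [h6]
    exact div_mul_cancel₀ _ h7
  have hdet : D.a x * conj (D.a x) - D.b x * conj (D.b x) = 1 := by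
    rw [Complex.mul_conj', Complex.mul_conj']
    have := D.det x
    exact_mod_cast this
  have h9 : D.dem x (v (t * l) x) * (t * l * v (t * l) (D.T x)) =
      conj (D.a x) * v (t * l) x + conj (D.b x) := by
    unfold Coc.dem
    linear_combination (-1 : ℂ) * h8
  have h10 : D.den x (u l x) * D.dem x (v (t * l) x) *
      (1 - t * u l (D.T x) * v (t * l) (D.T x)) =
      D.den x (u l x) * D.dem x (v (t * l) x) -
        (D.a x * u l x + D.b x) * (D.dem x (v (t * l) x) * (t * l * v (t * l) (D.T x))) := by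
    linear_combination (-(t : ℂ) * (D.dem x (v (t * l) x)) * v (t * l) (D.T x)) * h4
  rw [h10, h9]
  unfold Coc.den Coc.dem
  linear_combination (-(1 - u l x * v (t * l) x)) * hdet

end Pool.Agent.H728R2.FA
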