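import Pool.Agent.H728R2.FA.Base

open Set Filter Topology MeasureTheory
open scoped ComplexConjugate

namespace Pool.Agent.H728R2.FA

open Pool.Agent.H728R2.OS

private theorem RL_vol : (volume : Measure Circ) = AddCircle.haarAddCircle := by
  rw [AddCircle.volume_eq_smul_haarAddCircle]
  simp

private theorem RL_e (θ : Circ) (k : ℤ) : (fourier k θ : ℂ) = e θ ^ k := by
  rw [fourier_apply, AddCircle.toCircle_zsmul, Circle.coe_zpow]
  rfl

private def RL_Q (P : Lp ℂ 1 (AddCircle.haarAddCircle (T := (1:ℝ)))) : Prop :=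
  ∃ N : ℕ, ∀ n : ℕ, N ≤ n → ∀ H : Circ → ℂ, Measurable H → (∀ θ, ‖H θ‖ ≤ 2) →
    (∀ k : ℤ, k < n → ∫ θ : Circ, e θ ^ (-k) * H θ = 0) → ∫ θ : Circ, P θ * H θ = 0

private theorem RL_int (P : Lp ℂ 1 (AddCircle.haarAddCircle (T := (1:ℝ)))) (H : Circ → ℂ)
    (hm : Measurable H) (hb : ∀ θ, ‖H θ‖ ≤ 2) : Integrable (fun θ : Circ => P θ * H θ) := by
  rw [RL_vol]
  have h1 : Integrable P (AddCircle.haarAddCircle (T := (1:ℝ))) := L1.integrable_coeFn P
  exact h1.mul_bdd (c := 2) hm.aestronglyMeasurable (Eventually.of_forall hb)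

private theorem RL_base (j : ℤ) : RL_Q (@fourierLp (1:ℝ) _ 1 _ j) := by
  refine ⟨(-j).toNat + 1, fun n hn H hm hb hk => ?_⟩
  have h1 := hk (-j) (by omega)
  rw [← h1]
  refine integral_congr_ae ?_
  rw [RL_vol]
  filter_upwards [coeFn_fourierLp 1 j] with θ hθ
  rw [hθ, RL_e, neg_neg]

private theorem RL_span (P : Lp ℂ 1 (AddCircle.haarAddCircle (T := (1:ℝ))))
    (hP : P ∈ Submodule.span ℂ (range (@fourierLp (1:ℝ) _ 1 _))) : RL_Q P := by
  induction hP using Submodule.span_induction with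
  | mem x hx =>
    obtain ⟨j, rfl⟩ := hx
    exact RL_base j
  | zero =>
    refine ⟨0, fun n hn H hm hb hk => ?_⟩
    have h1 : ∫ θ : Circ, (0 : Lp ℂ 1 (AddCircle.haarAddCircle (T := (1:ℝ)))) θ * H θ =
        ∫ _θ : Circ, (0:ℂ) := by
      refine integral_congr_ae ?_
      rw [RL_vol]
      filter_upwards [Lp.coeFn_zero ℂ 1 (AddCircle.haarAddCircle (T := (1:ℝ)))] with θ hθ
      rw [hθ]
      simp
    rw [h1]
    simp
  | add x y _ _ hx hy =>
    obtain ⟨N1, h1⟩ := hx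
    obtain ⟨N2, h2⟩ := hy
    refine ⟨max N1 N2, fun n hn H hm hb hk => ?_⟩
    have h3 : ∫ θ : Circ, (x + y) θ * H θ = ∫ θ : Circ, (x θ * H θ + y θ * H θ) := by
      refine integral_congr_ae ?_
      rw [RL_vol]
      filter_upwards [Lp.coeFn_add x y] with θ hθ
      rw [hθ]
      simp only [Pi.add_apply]
      ring
    rw [h3, integral_add (RL_int x H hm hb) (RL_int y H hm hb),
      h1 n (le_trans (le_max_left _ _) hn) H hm hb hk,
      h2 n (le_trans (le_max_right _ _) hn) H hm hb hk, add_zero]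
  | smul c x _ hx =>
    obtain ⟨N1, h1⟩ := hx
    refine ⟨N1, fun n hn H hm hb hk => ?_⟩
    have h3 : ∫ θ : Circ, (c • x) θ * H θ = ∫ θ : Circ, c * (x θ * H θ) := by
      refine integral_congr_ae ?_
      rw [RL_vol]
      filter_upwards [Lp.coeFn_smul c x] with θ hθ
      rw [hθ]
      simp only [Pi.smul_apply, smul_eq_mul]
      ring
    rw [h3, integral_const_mul, h1 n hn H hm hb hk, mul_zero]

/-- Uniform Riemann-Lebesgue lemma for bounded functions without low Fourier coefficients. -/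
theorem riemann_lebesgue (φ : Circ → ℂ) (hφ : Measurable φ) (C : ℝ) (hC : ∀ θ, ‖φ θ‖ ≤ C)
    (ε : ℝ) (hε : 0 < ε) : ∃ N : ℕ, ∀ n : ℕ, N ≤ n → ∀ H : Circ → ℂ, Measurable H →
      (∀ θ, ‖H θ‖ ≤ 2) → (∀ k : ℤ, k < n → ∫ θ : Circ, e θ ^ (-k) * H θ = 0) →
      ‖∫ θ : Circ, φ θ * H θ‖ ≤ ε := by
  have hφi : Integrable φ (AddCircle.haarAddCircle (T := (1:ℝ))) :=
    Integrable.of_bound hφ.aestronglyMeasurable C (Eventually.of_forall hC)
  have hcl := span_fourierLp_closure_eq_top (T := (1:ℝ)) (p := 1) (by simp)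
  have hmem : hφi.toL1 φ ∈ closure ((Submodule.span ℂ (range (@fourierLp (1:ℝ) _ 1 _)) :
      Submodule ℂ (Lp ℂ 1 (AddCircle.haarAddCircle (T := (1:ℝ))))) : Set _) := by
    rw [← Submodule.topologicalClosure_coe, hcl]
    trivial
  obtain ⟨P, hP, hd⟩ := Metric.mem_closure_iff.1 hmem (ε / 2) (half_pos hε)
  obtain ⟨N, hN⟩ := RL_span P hP
  refine ⟨N, fun n hn H hm hb hk => ?_⟩
  have h1 := hN n hn H hm hb hk
  have h2 : Integrable (fun θ : Circ => φ θ * H θ) := by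
    rw [RL_vol]
    exact hφi.mul_bdd (c := 2) hm.aestronglyMeasurable (Eventually.of_forall hb)
  have h3 : ∫ θ : Circ, φ θ * H θ = ∫ θ : Circ, (φ θ * H θ - P θ * H θ) := by
    rw [integral_sub h2 (RL_int P H hm hb), h1, sub_zero]
  rw [h3]
  have h4 : dist (hφi.toL1 φ) P = ∫ θ : Circ, ‖φ θ - P θ‖ := by
    rw [dist_eq_norm, L1.norm_eq_integral_norm, RL_vol]
    refine integral_congr_ae ?_
    filter_upwards [Lp.coeFn_sub (hφi.toL1 φ) P, hφi.coeFn_toL1] with θ h5 h6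
    rw [h5, Pi.sub_apply, h6]
  have h5 : Integrable (fun θ : Circ => φ θ - P θ) := by
    rw [RL_vol]
    exact hφi.sub (L1.integrable_coeFn P)
  calc ‖∫ θ : Circ, (φ θ * H θ - P θ * H θ)‖ ≤ ∫ θ : Circ, ‖φ θ - P θ‖ * 2 := by
        refine norm_integral_le_of_norm_le (h5.norm.mul_const 2) (Eventually.of_forall fun θ => ?_)
        rw [← sub_mul, norm_mul]
        exact mul_le_mul_of_nonneg_left (hb θ) (norm_nonneg _)
    _ = dist (hφi.toL1 φ) P * 2 := by rw [integral_mul_const, h4]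
    _ ≤ ε := by linarith

end Pool.Agent.H728R2.FA
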