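import Pool.Agent.H728R2.FA.Base

open Set Filter Topology MeasureTheory
open scoped ComplexConjugate

namespace Pool.Agent.H728R2.FA

open Pool.Agent.H728R2.OS

private theorem sec_id (a b w : ℂ) :
    ‖conj b * w + conj a‖ ^ 2 - ‖a * w + b‖ ^ 2 = (‖a‖ ^ 2 - ‖b‖ ^ 2) * (1 - ‖w‖ ^ 2) := by
  simp only [Complex.sq_norm, Complex.normSq_apply]
  simp
  ring

private theorem sec_ne (a b w : ℂ) (h : ‖a‖ ^ 2 - ‖b‖ ^ 2 = 1) (hw : ‖w‖ ≤ 1) :
    conj b * w + conj a ≠ 0 := by
  intro h0
  have h1 : ‖a‖ = ‖b‖ * ‖w‖ := by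
    have : conj a = -(conj b * w) := by linear_combination h0
    calc ‖a‖ = ‖conj a‖ := (RCLike.norm_conj _).symm
      _ = ‖b‖ * ‖w‖ := by rw [this, norm_neg, norm_mul, RCLike.norm_conj]
  have h2 := norm_nonneg b
  have h3 := norm_nonneg w
  have h4 : ‖a‖ ≤ ‖b‖ := by rw [h1]; nlinarith
  nlinarith [norm_nonneg a]

private theorem sec_G_le {B : Type*} [MeasurableSpace B] {m : Measure B} (D : Coc B m)
    (l : ℂ) (x : B) (w : ℂ) (hw : ‖w‖ ≤ 1) : ‖D.G l x w‖ ≤ ‖l‖ := by
  unfold Coc.G Coc.den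
  have hne := sec_ne (D.a x) (D.b x) w (D.det x) hw
  have hid := sec_id (D.a x) (D.b x) w
  rw [D.det x, one_mul] at hid
  rw [norm_div, norm_mul, div_le_iff₀ (norm_pos_iff.mpr hne)]
  have h1 : ‖D.a x * w + D.b x‖ ≤ ‖conj (D.b x) * w + conj (D.a x)‖ := by
    apply le_of_sq_le_sq _ (norm_nonneg _)
    have h3 := norm_nonneg w
    nlinarith
  exact mul_le_mul_of_nonneg_left h1 (norm_nonneg _)

private theorem sec_G_diff {B : Type*} [MeasurableSpace B] {m : Measure B} (D : Coc B m)
    (x : B) (w : ℂ → ℂ) (hw : DifferentiableOn ℂ w (Metric.ball 0 1))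
    (h1 : ∀ l, ‖l‖ < 1 → ‖w l‖ ≤ 1) :
    DifferentiableOn ℂ (fun l => D.G l x (w l)) (Metric.ball 0 1) := by
  unfold Coc.G Coc.den
  refine DifferentiableOn.div (differentiableOn_id.mul ((hw.const_mul _).add_const _))
    ((hw.const_mul _).add_const _) ?_
  intro l hl
  exact sec_ne _ _ _ (D.det x) (h1 l (by simpa using hl))

private theorem sec_it_le {B : Type*} [MeasurableSpace B] {m : Measure B} (D : Coc B m)
    (l : ℂ) (hl : ‖l‖ < 1) (x : B) (w : ℂ) (hw : ‖w‖ ≤ 1) (n : ℕ) : ‖D.it l n x w‖ ≤ 1 := by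
  induction n with
  | zero => simpa [Coc.it] using hw
  | succ n ih => exact (sec_G_le D l _ _ ih).trans hl.le

private theorem sec_it_diff {B : Type*} [MeasurableSpace B] {m : Measure B} (D : Coc B m)
    (x : B) (n : ℕ) :
    DifferentiableOn ℂ (fun l => D.it l n x 0) (Metric.ball 0 1) := by
  induction n with
  | zero => exact differentiableOn_const 0
  | succ n ih =>
    exact sec_G_diff D _ (fun l => D.it l n x 0) ih
      (fun l hl => sec_it_le D l hl x 0 (by simp) n)

private theorem sec_it_succ {B : Type*} [MeasurableSpace B] {m : Measure B} (D : Coc B m)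
    (l : ℂ) (x : B) (w : ℂ) (n : ℕ) :
    D.it l (n + 1) x w = D.it l n (D.T x) (D.G l x w) := by
  induction n with
  | zero => rfl
  | succ n ih =>
    have h1 : D.it l (n + 1 + 1) x w = D.G l (D.T^[n + 1] x) (D.it l (n + 1) x w) := rfl
    rw [h1, ih, Function.iterate_succ_apply]
    rfl

private theorem sec_G_meas {B : Type*} [MeasurableSpace B] {m : Measure B} (D : Coc B m)
    (l : ℂ) (g : B → B) (w : B → ℂ) (hg : Measurable g) (hw : Measurable w) :
    Measurable fun y => D.G l (g y) (w y) := by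
  unfold Coc.G Coc.den
  have ha : Measurable fun y => D.a (g y) := D.ma.comp hg
  have hb : Measurable fun y => D.b (g y) := D.mb.comp hg
  have hca : Measurable fun y => conj (D.a (g y)) := Complex.continuous_conj.measurable.comp ha
  have hcb : Measurable fun y => conj (D.b (g y)) := Complex.continuous_conj.measurable.comp hb
  exact (((ha.mul hw).add hb).const_mul l).div ((hcb.mul hw).add hca)

private theorem sec_it_meas {B : Type*} [MeasurableSpace B] {m : Measure B} (D : Coc B m)
    (l : ℂ) (k : ℕ) : Measurable fun y => D.it l k y 0 := by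
  induction k with
  | zero => exact measurable_const
  | succ k ih =>
    have h1 : (fun y => D.it l (k + 1) y 0) = fun y => D.G l (D.T^[k] y) (D.it l k y 0) := by
      funext y
      rw [Coc.it]
    rw [h1]
    exact sec_G_meas D l _ _ (D.T.measurable.iterate k) ih

/-- Existence of the attracting section. The contraction lemma is a hypothesis. -/
theorem exists_sec {B : Type*} [MeasurableSpace B] {m : Measure B} (D : Coc B m)
    (hdiff : ∀ (w w' : ℂ → ℂ), DifferentiableOn ℂ w (Metric.ball 0 1) →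
      DifferentiableOn ℂ w' (Metric.ball 0 1) → (∀ l, ‖l‖ < 1 → ‖w l‖ ≤ 1) →
      (∀ l, ‖l‖ < 1 → ‖w' l‖ ≤ 1) → ∀ (n : ℕ) (x : B),
      ∃ h : ℂ → ℂ, DifferentiableOn ℂ h (Metric.ball 0 1) ∧ (∀ l, ‖l‖ < 1 → ‖h l‖ ≤ 2) ∧
        ∀ l, ‖l‖ < 1 → D.it l n x (w l) - D.it l n x (w' l) = l ^ n * h l) :
    ∃ u, D.IsSec u := by
  set s : ℕ → ℂ → B → ℂ := fun n l x => D.it l n (D.T.symm^[n] x) 0 with hs
  have hstep : ∀ n l x, s (n + 1) l x =
      D.it l n (D.T.symm^[n] x) (D.G l (D.T.symm^[n + 1] x) 0) := by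
    intro n l x
    simp only [hs]
    rw [sec_it_succ]
    congr 1
    rw [Function.iterate_succ_apply', D.T.apply_symm_apply]
  have hdist : ∀ l x, ‖l‖ < 1 → ∀ n, dist (s n l x) (s (n + 1) l x) ≤ 2 * ‖l‖ ^ n := by
    intro l x hl n
    obtain ⟨h, -, h2, h3⟩ := hdiff (fun _ => 0) (fun l => D.G l (D.T.symm^[n + 1] x) 0)
      (differentiableOn_const 0)
      (sec_G_diff D _ (fun _ => 0) (differentiableOn_const 0) (fun _ _ => by simp))
      (fun _ _ => by simp) (fun l hl => (sec_G_le D l _ 0 (by simp)).trans hl.le) n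
      (D.T.symm^[n] x)
    rw [hstep, dist_eq_norm]
    simp only [hs]
    rw [h3 l hl, norm_mul, norm_pow]
    have := h2 l hl
    have h4 : 0 ≤ ‖l‖ ^ n := by positivity
    nlinarith
  have hlim : ∀ l x, ∃ y, ‖l‖ < 1 → Tendsto (fun n => s n l x) atTop (𝓝 y) := by
    intro l x
    by_cases hl : ‖l‖ < 1
    · have hc : CauchySeq (fun n => s n l x) :=
        cauchySeq_of_le_geometric ‖l‖ 2 hl (hdist l x hl)
      obtain ⟨y, hy⟩ := cauchySeq_tendsto_of_complete hc
      exact ⟨y, fun _ => hy⟩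
    · exact ⟨0, fun h => absurd h hl⟩
  choose u hu using hlim
  refine ⟨u, ?_, ?_, ?_, ?_⟩
  · intro x
    have hloc : TendstoLocallyUniformlyOn (fun n l => s n l x) (fun l => u l x) atTop
        (Metric.ball (0 : ℂ) 1) := by
      rw [Metric.tendstoLocallyUniformlyOn_iff]
      intro ε hε l0 hl0
      have hl0' : ‖l0‖ < 1 := by simpa using hl0
      obtain ⟨r, hr0, hr1⟩ := exists_between hl0'
      have hr00 : 0 ≤ r := (norm_nonneg _).trans hr0.le
      refine ⟨Metric.ball 0 r, mem_nhdsWithin_of_mem_nhds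
        (Metric.isOpen_ball.mem_nhds (by simpa using hr0)), ?_⟩
      have ht : Tendsto (fun n : ℕ => 2 * r ^ n / (1 - r)) atTop (𝓝 0) := by
        have := ((tendsto_pow_atTop_nhds_zero_of_lt_one hr00 hr1).const_mul 2).div_const (1 - r)
        simpa using this
      filter_upwards [ht.eventually (gt_mem_nhds hε)] with n hn l hl
      have hlr : ‖l‖ < r := by simpa using hl
      have hl1 : ‖l‖ < 1 := hlr.trans hr1
      have h1 := dist_le_of_le_geometric_of_tendsto ‖l‖ 2 hl1 (hdist l x hl1) (hu l x hl1) n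
      rw [dist_comm]
      refine lt_of_le_of_lt h1 (lt_of_le_of_lt ?_ hn)
      have h2 : ‖l‖ ^ n ≤ r ^ n := pow_le_pow_left₀ (norm_nonneg _) hlr.le n
      have h3 : 0 ≤ ‖l‖ ^ n := by positivity
      apply div_le_div₀ (by positivity) (by linarith) (by linarith) (by linarith)
    exact hloc.differentiableOn (Eventually.of_forall fun n => sec_it_diff D _ n)
      Metric.isOpen_ball
  · intro l hl
    refine measurable_of_tendsto_metrizable (f := fun n x => s n l x) ?_
      (tendsto_pi_nhds.mpr fun x => hu l x hl)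
    intro n
    exact (sec_it_meas D l n).comp (D.T.symm.measurable.iterate n)
  · intro l x hl
    have h1 := ((hu l x hl).comp (tendsto_add_atTop_nat 1)).norm
    refine le_of_tendsto h1 (Eventually.of_forall fun n => ?_)
    exact sec_G_le D l _ _ (sec_it_le D l hl _ 0 (by simp) n)
  · intro l x hl
    have h1 := (hu l (D.T x) hl).comp (tendsto_add_atTop_nat 1)
    have h2 : ∀ n, s (n + 1) l (D.T x) = D.G l x (s n l x) := by
      intro n
      have h3 : D.T.symm^[n + 1] (D.T x) = D.T.symm^[n] x := by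
        rw [Function.iterate_succ_apply, D.T.symm_apply_apply]
      have h4 : D.T^[n] (D.T.symm^[n] x) = x :=
        (Function.LeftInverse.iterate D.T.apply_symm_apply n) x
      simp only [hs]
      rw [h3]
      show D.G l (D.T^[n] (D.T.symm^[n] x)) _ = _
      rw [h4]
    have hule : ‖u l x‖ ≤ 1 := by
      refine le_of_tendsto (hu l x hl).norm (Eventually.of_forall fun n => ?_)
      exact sec_it_le D l hl _ 0 (by simp) n
    have hcont : ContinuousAt (fun w => D.G l x w) (u l x) := by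
      unfold Coc.G Coc.den
      refine ContinuousAt.div ?_ ?_ (sec_ne _ _ _ (D.det x) hule)
      · fun_prop
      · fun_prop
    have h5 : Tendsto (fun n => s (n + 1) l (D.T x)) atTop (𝓝 (D.G l x (u l x))) := by
      simp_rw [h2]
      exact hcont.tendsto.comp (hu l x hl)
    exact tendsto_nhds_unique h1 h5

end Pool.Agent.H728R2.FA
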