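import Pool.Agent.H728R2.FA.Base

open Set Filter Topology MeasureTheory
open scoped ComplexConjugate

namespace Pool.Agent.H728R2.FA

open Pool.Agent.H728R2.OS

private theorem SEL_den_ne {a b z : ℂ} (h : ‖a‖ ^ 2 - ‖b‖ ^ 2 = 1) (hz : ‖z‖ = 1) :
    conj b * z + conj a ≠ 0 := by
  intro h0
  have h1 : conj a = -(conj b * z) := by linear_combination h0
  have h2 : ‖a‖ = ‖b‖ := by
    have h3 := congrArg norm h1
    rwa [norm_neg, norm_mul, hz, mul_one, RCLike.norm_conj, RCLike.norm_conj] at h3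
  rw [h2] at h
  linarith

private theorem SEL_e0 : e (0 : Circ) = 1 := by
  unfold e
  rw [AddCircle.toCircle_zero]
  rfl

private theorem SEL_e1 : e ((1 / 2 : ℝ) : Circ) = -1 := by
  unfold e
  rw [AddCircle.toCircle_apply_mk, Circle.coe_exp]
  have h : ((2 * Real.pi / 1 * (1 / 2) : ℝ) : ℂ) * Complex.I = Real.pi * Complex.I := by
    push_cast
    ring
  rw [h, Complex.exp_pi_mul_I]

private theorem SEL_e2 : e ((1 / 4 : ℝ) : Circ) = Complex.I := by
  unfold e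
  rw [AddCircle.toCircle_apply_mk, Circle.coe_exp]
  have h : ((2 * Real.pi / 1 * (1 / 4) : ℝ) : ℂ) * Complex.I = Real.pi / 2 * Complex.I := by
    push_cast
    ring
  rw [h, Complex.exp_pi_div_two_mul_I]

private theorem SEL_norm_e (y : Circ) : ‖e y‖ = 1 := by
  unfold e
  exact Circle.norm_coe _

/-- differences of values of a Moebius map -/
private theorem SEL_diff {A B C D z w : ℂ} (hdet : A * D - B * C = 1) (hz : C * z + D ≠ 0)
    (hw : C * w + D ≠ 0) :
    (A * z + B) / (C * z + D) - (A * w + B) / (C * w + D) =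
      (z - w) / ((C * z + D) * (C * w + D)) := by
  rw [div_sub_div _ _ hz hw]
  congr 1
  linear_combination (z - w) * hdet

private theorem SEL_alg {a b w1 w2 w3 κ : ℂ} (h : ‖a‖ ^ 2 - ‖b‖ ^ 2 = 1)
    (h1 : w1 = (a * 1 + b) / (conj b * 1 + conj a))
    (h2 : w2 = (a * (-1) + b) / (conj b * (-1) + conj a))
    (h3 : w3 = (a * Complex.I + b) / (conj b * Complex.I + conj a))
    (hκ : κ = -Complex.I * (w3 - w1) / (w3 - w2)) :
    w3 - w2 ≠ 0 ∧ 2 * κ * (w1 - w2) ≠ 0 ∧ 1 + κ ≠ 0 ∧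
      (1 + κ) ^ 2 / (2 * κ * (w1 - w2)) = conj a ^ 2 ∧
      (w1 + κ * w2) / (1 + κ) = b / conj a := by
  have hdet : a * conj a - b * conj b = 1 := by
    rw [Complex.mul_conj, Complex.mul_conj, Complex.normSq_eq_norm_sq, Complex.normSq_eq_norm_sq,
      ← Complex.ofReal_sub, h, Complex.ofReal_one]
  have d1 := SEL_den_ne h (z := 1) (by simp)
  have d2 := SEL_den_ne h (z := -1) (by simp)
  have d3 := SEL_den_ne h (z := Complex.I) (by simp)
  have d0 : conj a ≠ 0 := by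
    intro h0
    have : a = 0 := by
      have := congrArg conj h0
      simpa using this
    rw [this, norm_zero] at h
    nlinarith [sq_nonneg ‖b‖]
  have e31 := SEL_diff hdet d3 d1
  have e32 := SEL_diff hdet d3 d2
  have e12 := SEL_diff hdet d1 d2
  rw [← h3, ← h1] at e31
  rw [← h3, ← h2] at e32
  rw [← h1, ← h2] at e12
  have hI1 : Complex.I - -1 ≠ 0 := by
    intro h0
    have := congrArg Complex.re h0
    simp at this
  have hne32 : w3 - w2 ≠ 0 := by
    rw [e32]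
    exact div_ne_zero hI1 (mul_ne_zero d3 d2)
  obtain ⟨P, hP⟩ : ∃ P, P = conj b * 1 + conj a := ⟨_, rfl⟩
  obtain ⟨Q, hQ⟩ : ∃ Q, Q = conj b * (-1) + conj a := ⟨_, rfl⟩
  obtain ⟨Z, hZ⟩ : ∃ Z, Z = conj b * Complex.I + conj a := ⟨_, rfl⟩
  obtain ⟨A', hA'⟩ : ∃ A', A' = conj a := ⟨_, rfl⟩
  rw [← hP] at d1 e31 e12 h1
  rw [← hQ] at d2 e32 e12 h2
  rw [← hZ] at d3 e31 e32 h3
  have hPQ : P + Q = 2 * A' := by rw [hP, hQ, hA']; ring
  rw [← hA'] at d0 ⊢
  have hκ2 : κ = Q / P := by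
    rw [hκ, div_eq_div_iff hne32 d1, e31, e32]
    have hI : Complex.I * Complex.I = -1 := Complex.I_mul_I
    field_simp
    linear_combination (-1 : ℂ) * hI
  have h1κ : 1 + κ = 2 * A' / P := by
    rw [hκ2, ← hPQ]
    field_simp
  have h2κ : 2 * κ * (w1 - w2) = 4 / P ^ 2 := by
    rw [hκ2, e12]
    field_simp
    norm_num
  refine ⟨hne32, ?_, ?_, ?_, ?_⟩
  · rw [h2κ]
    exact div_ne_zero (by norm_num) (pow_ne_zero 2 d1)
  · rw [h1κ]
    exact div_ne_zero (mul_ne_zero (by norm_num) d0) d1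
  · rw [h2κ, h1κ]
    field_simp
    norm_num
  · rw [h1κ, hκ2, h1, h2]
    field_simp
    ring

/-- Measurable Moebius coefficients of a continuous family of projective maps. -/
theorem exists_coeff {B : Type*} [MetricSpace B] [CompactSpace B] [MeasurableSpace B]
    [BorelSpace B] (f : B × Circ → B × Circ) (hf : Continuous f)
    (hmob : ∀ x, ∃ a b : ℂ, ‖a‖ ^ 2 - ‖b‖ ^ 2 = 1 ∧
      ∀ y, e (f (x, y)).2 = (a * e y + b) / (conj b * e y + conj a)) :
    ∃ a b : B → ℂ, Measurable a ∧ Measurable b ∧ (∀ x, ‖a x‖ ^ 2 - ‖b x‖ ^ 2 = 1) ∧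
      (∃ M : ℝ, ∀ x, ‖a x‖ ≤ M) ∧
      ∀ x y, e (f (x, y)).2 = (a x * e y + b x) / (conj (b x) * e y + conj (a x)) := by
  have hecont : Continuous e := by
    unfold e
    exact continuous_subtype_val.comp AddCircle.continuous_toCircle
  have hval : ∀ y : Circ, Continuous (fun x : B => e (f (x, y)).2) := by
    intro y
    exact hecont.comp (continuous_snd.comp (hf.comp (by fun_prop)))
  obtain ⟨w1, hw1⟩ : ∃ w1 : B → ℂ, w1 = fun x => e (f (x, 0)).2 := ⟨_, rfl⟩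
  obtain ⟨w2, hw2⟩ : ∃ w2 : B → ℂ, w2 = fun x => e (f (x, ((1 / 2 : ℝ) : Circ))).2 := ⟨_, rfl⟩
  obtain ⟨w3, hw3⟩ : ∃ w3 : B → ℂ, w3 = fun x => e (f (x, ((1 / 4 : ℝ) : Circ))).2 := ⟨_, rfl⟩
  have c1 : Continuous w1 := by rw [hw1]; exact hval _
  have c2 : Continuous w2 := by rw [hw2]; exact hval _
  have c3 : Continuous w3 := by rw [hw3]; exact hval _
  obtain ⟨κ, hκ⟩ : ∃ κ : B → ℂ, κ = fun x => -Complex.I * (w3 x - w1 x) / (w3 x - w2 x) :=
    ⟨_, rfl⟩
  -- the algebra at every point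
  have key : ∀ x, ∃ a b : ℂ, ‖a‖ ^ 2 - ‖b‖ ^ 2 = 1 ∧
      (∀ y, e (f (x, y)).2 = (a * e y + b) / (conj b * e y + conj a)) ∧
      w3 x - w2 x ≠ 0 ∧ 2 * κ x * (w1 x - w2 x) ≠ 0 ∧ 1 + κ x ≠ 0 ∧
      (1 + κ x) ^ 2 / (2 * κ x * (w1 x - w2 x)) = conj a ^ 2 ∧
      (w1 x + κ x * w2 x) / (1 + κ x) = b / conj a := by
    intro x
    obtain ⟨a, b, h, hy⟩ := hmob x
    refine ⟨a, b, h, hy, ?_⟩
    refine SEL_alg (w3 := w3 x) h ?_ ?_ ?_ (by rw [hκ])
    · rw [hw1]
      simp only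
      rw [hy, SEL_e0]
    · rw [hw2]
      simp only
      rw [hy, SEL_e1]
    · rw [hw3]
      simp only
      rw [hy, SEL_e2]
  have cκ : Continuous κ := by
    rw [hκ]
    refine Continuous.div (by fun_prop) (by fun_prop) ?_
    intro x
    obtain ⟨a, b, _, _, h, _⟩ := key x
    exact h
  obtain ⟨s, hs⟩ : ∃ s : B → ℂ, s = fun x => (1 + κ x) ^ 2 / (2 * κ x * (w1 x - w2 x)) := ⟨_, rfl⟩
  have cs : Continuous s := by
    rw [hs]
    refine Continuous.div (by fun_prop) (by fun_prop) ?_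
    intro x
    obtain ⟨a, b, _, _, _, h, _⟩ := key x
    exact h
  obtain ⟨α, hα⟩ : ∃ α : B → ℂ, α = fun x => Complex.exp (Complex.log (s x) / 2) := ⟨_, rfl⟩
  have mα : Measurable α := by
    rw [hα]
    exact ((Complex.measurable_log.comp cs.measurable).div_const 2).cexp
  have ha0 : ∀ {a b : ℂ}, ‖a‖ ^ 2 - ‖b‖ ^ 2 = 1 → conj a ≠ 0 := by
    intro a b h h0
    have : a = 0 := by
      have := congrArg conj h0
      simpa using this
    rw [this, norm_zero] at h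
    nlinarith [sq_nonneg ‖b‖]
  have hsq : ∀ x, α x ^ 2 = s x := by
    intro x
    obtain ⟨a, b, h, _, _, _, _, h4, _⟩ := key x
    have hs0 : s x ≠ 0 := by
      rw [hs]
      simp only
      rw [h4]
      exact pow_ne_zero 2 (ha0 h)
    rw [hα]
    simp only
    rw [← Complex.exp_nat_mul]
    have : ((2 : ℕ) : ℂ) * (Complex.log (s x) / 2) = Complex.log (s x) := by
      push_cast
      ring
    rw [this, Complex.exp_log hs0]
  obtain ⟨b', hb'⟩ : ∃ b' : B → ℂ, b' = fun x => (w1 x + κ x * w2 x) / (1 + κ x) * α x :=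
    ⟨_, rfl⟩
  have main : ∀ x, ∃ a b σ : ℂ, ‖a‖ ^ 2 - ‖b‖ ^ 2 = 1 ∧
      (∀ y, e (f (x, y)).2 = (a * e y + b) / (conj b * e y + conj a)) ∧
      (σ = 1 ∨ σ = -1) ∧ conj (α x) = σ * a ∧ b' x = σ * b := by
    intro x
    obtain ⟨a, b, h, hy, _, _, _, h4, h5⟩ := key x
    have hsx : α x ^ 2 = conj a ^ 2 := by
      rw [hsq, hs]
      exact h4
    have hane := ha0 h
    rcases sq_eq_sq_iff_eq_or_eq_neg.1 hsx with h6 | h6
    · refine ⟨a, b, 1, h, hy, Or.inl rfl, ?_, ?_⟩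
      · rw [h6]; simp
      · rw [hb']
        simp only
        rw [h5, h6]
        field_simp
    · refine ⟨a, b, -1, h, hy, Or.inr rfl, ?_, ?_⟩
      · rw [h6]; simp
      · rw [hb']
        simp only
        rw [h5, h6]
        field_simp
  have hnσ : ∀ {σ : ℂ}, (σ = 1 ∨ σ = -1) → ‖σ‖ = 1 := by
    rintro σ (rfl | rfl) <;> simp
  have hdet : ∀ x, ‖conj (α x)‖ ^ 2 - ‖b' x‖ ^ 2 = 1 := by
    intro x
    obtain ⟨a, b, σ, h, _, hσ, h1, h2⟩ := main x
    rw [h1, h2, norm_mul, norm_mul, hnσ hσ, one_mul, one_mul, h]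
  refine ⟨fun x => conj (α x), b', ?_, ?_, hdet, ?_, ?_⟩
  · exact Complex.continuous_conj.measurable.comp mα
  · rw [hb']
    refine Measurable.mul ?_ mα
    exact (c1.measurable.add (cκ.measurable.mul c2.measurable)).div
      (measurable_const.add cκ.measurable)
  · obtain ⟨C, hC⟩ := isCompact_univ.exists_bound_of_continuousOn (f := s) cs.continuousOn
    refine ⟨C, fun x => ?_⟩
    have h1 := hC x (mem_univ x)
    have h2 := hdet x
    rw [← hsq, norm_pow] at h1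
    rw [RCLike.norm_conj] at h2 ⊢
    have h3 : 1 ≤ ‖α x‖ ^ 2 := by nlinarith [sq_nonneg ‖b' x‖]
    have h4 : 1 ≤ ‖α x‖ := by
      by_contra hlt
      push Not at hlt
      nlinarith [norm_nonneg (α x)]
    nlinarith [norm_nonneg (α x)]
  · intro x y
    obtain ⟨a, b, σ, h, hy, hσ, h1, h2⟩ := main x
    have hσc : conj σ = σ := by
      rcases hσ with rfl | rfl <;> simp
    have hσ0 : σ ≠ 0 := by
      rcases hσ with rfl | rfl <;> simp
    simp only
    rw [h1, h2, map_mul, map_mul, hσc, hy]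
    have e1 : σ * a * e y + σ * b = σ * (a * e y + b) := by ring
    have e2 : σ * conj b * e y + σ * conj a = σ * (conj b * e y + conj a) := by ring
    rw [e1, e2, mul_div_mul_left _ _ hσ0]

end Pool.Agent.H728R2.FA
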