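import Pool.Agent.H728R2.FA.Base

open Set Filter Topology MeasureTheory
open scoped ComplexConjugate

namespace Pool.Agent.H728R2.FA

open Pool.Agent.H728R2.OS

/-- If almost every point visits every nonempty open set infinitely often then the whole space is
the only attractor. -/
theorem oneAttractor_of_visits {X : Type*} [TopologicalSpace X] [SecondCountableTopology X]
    [MeasurableSpace X] (μ : Measure X) (hμ : μ ≠ 0) (f : X ≃ₜ X)
    (h : ∀ U : Set X, IsOpen U → U.Nonempty → ∀ᵐ p ∂μ, ∃ᶠ n in atTop, f^[n] p ∈ U) :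
    OneAttractor μ f := by
  have hb := TopologicalSpace.isBasis_countableBasis X
  have h1 : ∀ᵐ p ∂μ, ∀ U ∈ TopologicalSpace.countableBasis X, ∃ᶠ n in atTop, f^[n] p ∈ U := by
    rw [ae_ball_iff (TopologicalSpace.countable_countableBasis X)]
    intro U hU
    exact h U (TopologicalSpace.isOpen_of_mem_countableBasis hU)
      (TopologicalSpace.nonempty_of_mem_countableBasis hU)
  have h2 : ∀ p, (∀ U ∈ TopologicalSpace.countableBasis X, ∃ᶠ n in atTop, f^[n] p ∈ U) →
      omegaLim f p = univ := by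
    intro p hp
    rw [eq_univ_iff_forall]
    intro q V hV N
    obtain ⟨U, hU, hqU, hUV⟩ := hb.mem_nhds_iff.1 hV
    obtain ⟨n, hn, hn2⟩ := (Filter.frequently_atTop.1 (hp U hU)) N
    exact ⟨n, hn, hUV hn2⟩
  have h3 : ∀ᵐ p ∂μ, omegaLim f p = univ := h1.mono h2
  have hne : (ae μ).NeBot := ae_neBot.2 hμ
  obtain ⟨p, hp⟩ := h3.exists
  refine ⟨univ, isClosed_univ, ⟨?_, ⟨p, mem_univ p, ?_⟩, ?_⟩, h3⟩
  · rw [image_univ]
    exact f.surjective.range_eq
  · intro q _
    rw [mem_closure_iff_nhds]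
    intro V hV
    have hq : q ∈ omegaLim f p := by rw [hp]; exact mem_univ q
    obtain ⟨n, _, hn⟩ := hq V hV 0
    exact ⟨f^[n] p, hn, n, rfl⟩
  · have h4 : {p | omegaLim (⇑f) p ⊆ univ} = univ := by
      ext p
      simp
    rw [h4]
    exact Measure.measure_univ_pos.2 hμ

end Pool.Agent.H728R2.FA
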