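import Pool.Agent.H728R2.FA.Base

open Set Filter Topology MeasureTheory
open scoped ComplexConjugate

namespace Pool.Agent.H728R2.FA

open Pool.Agent.H728R2.OS

private theorem toph_e_cont : Continuous (e : Circ → ℂ) :=
  continuous_subtype_val.comp AddCircle.continuous_toCircle

private theorem toph_e_inj : Function.Injective (e : Circ → ℂ) :=
  Subtype.val_injective.comp (AddCircle.injective_toCircle one_ne_zero)

private theorem toph_e_norm (y : Circ) : ‖e y‖ = 1 := Circle.norm_coe _

private theorem toph_e_dist (ε : ℝ) (hε : 0 < ε) :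
    ∃ δ : ℝ, 0 < δ ∧ ∀ y y' : Circ, ‖e y - e y'‖ < δ → dist y y' < ε := by
  by_cases hne : ({p : Circ × Circ | ε ≤ dist p.1 p.2}).Nonempty
  · have hK : IsCompact {p : Circ × Circ | ε ≤ dist p.1 p.2} :=
      (isClosed_le continuous_const continuous_dist).isCompact
    obtain ⟨p, hp, hmin⟩ := hK.exists_isMinOn hne
      (f := fun p : Circ × Circ => ‖e p.1 - e p.2‖)
      (((toph_e_cont.comp continuous_fst).sub (toph_e_cont.comp continuous_snd)).norm.continuousOn)
    have hpos : 0 < ‖e p.1 - e p.2‖ := by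
      rw [norm_pos_iff, sub_ne_zero]
      intro h
      have h2 := toph_e_inj h
      have h3 : ε ≤ dist p.1 p.2 := hp
      rw [h2, dist_self] at h3
      exact absurd h3 (not_le.2 hε)
    refine ⟨‖e p.1 - e p.2‖, hpos, fun y y' hyy => ?_⟩
    by_contra hc
    have h4 : (y, y') ∈ {p : Circ × Circ | ε ≤ dist p.1 p.2} := not_lt.1 hc
    exact absurd (hmin h4) (not_le.2 hyy)
  · refine ⟨1, one_pos, fun y y' _ => ?_⟩
    by_contra hc
    exact hne ⟨(y, y'), not_lt.1 hc⟩

private theorem toph_omega_subset {X : Type*} [PseudoMetricSpace X] {f : X → X} {p q : X}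
    (h : Tendsto (fun n => dist (f^[n] p) (f^[n] q)) atTop (𝓝 0)) :
    omegaLim f p ⊆ omegaLim f q := by
  intro x hx V hV N
  obtain ⟨ε, hε, hball⟩ := Metric.mem_nhds_iff.1 hV
  obtain ⟨N', hN'⟩ := (Metric.tendsto_atTop.1 h) (ε / 2) (half_pos hε)
  obtain ⟨n, hn, hnb⟩ := hx (Metric.ball x (ε / 2)) (Metric.ball_mem_nhds x (half_pos hε)) (max N N')
  refine ⟨n, (le_max_left _ _).trans hn, hball ?_⟩
  have h1 := hN' n ((le_max_right _ _).trans hn)
  rw [Real.dist_eq, sub_zero, abs_of_nonneg dist_nonneg] at h1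
  have h2 : dist (f^[n] p) x < ε / 2 := hnb
  have h3 := dist_triangle (f^[n] q) (f^[n] p) x
  have h4 := dist_comm (f^[n] q) (f^[n] p)
  show dist (f^[n] q) x < ε
  linarith

private theorem toph_omega_eq {X : Type*} [PseudoMetricSpace X] {f : X → X} {p q : X}
    (h : Tendsto (fun n => dist (f^[n] p) (f^[n] q)) atTop (𝓝 0)) :
    omegaLim f p = omegaLim f q :=
  (toph_omega_subset h).antisymm (toph_omega_subset (by simpa only [dist_comm] using h))

private theorem toph_omega_image {X : Type*} [TopologicalSpace X] (f : X ≃ₜ X) (p : X) :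
    f '' omegaLim f p = omegaLim f p := by
  apply Subset.antisymm
  · rintro _ ⟨q, hq, rfl⟩ V hV N
    obtain ⟨n, hn, hnV⟩ := hq (f ⁻¹' V) (f.continuous.continuousAt hV) N
    refine ⟨n + 1, by omega, ?_⟩
    rw [Function.iterate_succ_apply']
    exact hnV
  · intro q hq
    refine ⟨f.symm q, ?_, f.apply_symm_apply q⟩
    intro V hV N
    have hV' : f.symm ⁻¹' V ∈ 𝓝 q := f.symm.continuous.continuousAt hV
    obtain ⟨n, hn, hnV⟩ := hq _ hV' (N + 1)
    obtain ⟨k, rfl⟩ : ∃ k, n = k + 1 := ⟨n - 1, by omega⟩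
    refine ⟨k, by omega, ?_⟩
    rw [Function.iterate_succ_apply'] at hnV
    simpa using hnV

/-- If almost all orbits are asymptotic to an invariant measurable section then there is exactly
one attractor. -/
theorem oneAttractor_of_section {B : Type*} [MetricSpace B] [CompactSpace B] [MeasurableSpace B]
    [BorelSpace B] {m : Measure B} [IsProbabilityMeasure m] (T : B ≃ₜ B) (erg : Ergodic T m)
    (f : (B × Circ) ≃ₜ (B × Circ)) (hf : ∀ p, (f p).1 = T p.1) (U : B → ℂ) (mU : Measurable U)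
    (μ : Measure (B × Circ)) (hμ : μ ≪ m.prod volume) (hμ0 : μ ≠ 0)
    (hcon : ∀ᵐ x ∂m, ∃ z : ℂ, ∀ y : Circ, e y ≠ z →
      Tendsto (fun n => e (f^[n] (x, y)).2 - U (T^[n] x)) atTop (𝓝 0))
    (hinv : ∀ᵐ x ∂m, ∀ y : Circ, e y = U x → e (f (x, y)).2 = U (T x)) :
    OneAttractor μ f := by
  classical
  have hcons : Conservative T m := erg.toMeasurePreserving.conservative
  -- first coordinates of iterates
  have hfst : ∀ (n : ℕ) (p : B × Circ), (f^[n] p).1 = T^[n] p.1 := by
    intro n
    induction n with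
    | zero => intro p; rfl
    | succ n ih =>
      intro p
      rw [Function.iterate_succ_apply', Function.iterate_succ_apply', hf, ih]
  -- two different points of the circle
  have htwo : ∀ z : ℂ, ∃ y : Circ, e y ≠ z := by
    intro z
    by_contra hc
    push Not at hc
    have h1 : e (0 : Circ) = e ((1 / 2 : ℝ) : UnitAddCircle) := (hc 0).trans (hc _).symm
    have h2 := toph_e_inj h1
    have h3 : ((1 / 2 : ℝ) : UnitAddCircle) = 0 := h2.symm
    rw [AddCircle.coe_eq_zero_iff] at h3
    obtain ⟨k, hk⟩ := h3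
    have h4 : (k : ℝ) * 2 = 1 := by
      simp at hk
      linarith
    have h5 : (k * 2 : ℤ) = 1 := by exact_mod_cast h4
    omega
  -- the norm of `U` is one
  have hnorm : ∀ᵐ x ∂m, ‖U x‖ = 1 := by
    have h1 : ∀ k : ℕ, ∀ᵐ x ∂m, ¬ (1 / ((k : ℝ) + 1) ≤ |‖U x‖ - 1|) := by
      intro k
      have hS : MeasurableSet {x : B | 1 / ((k : ℝ) + 1) ≤ |‖U x‖ - 1|} :=
        measurableSet_le measurable_const ((mU.norm.sub_const 1).abs)
      filter_upwards [hcons.ae_mem_imp_frequently_image_mem hS.nullMeasurableSet, hcon]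
        with x hx hz hmem
      obtain ⟨z, hz⟩ := hz
      obtain ⟨y, hy⟩ := htwo z
      have h2 := hz y hy
      have h3 : Tendsto (fun n => |‖U (T^[n] x)‖ - 1|) atTop (𝓝 0) := by
        refine squeeze_zero (fun n => abs_nonneg _) (fun n => ?_) (tendsto_norm_zero.comp h2)
        have h4 := abs_norm_sub_norm_le (U (T^[n] x)) (e (f^[n] (x, y)).2)
        rw [toph_e_norm, norm_sub_rev] at h4
        exact h4
      have h5 : ∀ᶠ n in atTop, |‖U (T^[n] x)‖ - 1| < 1 / ((k : ℝ) + 1) :=
        h3.eventually (gt_mem_nhds (by positivity))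
      obtain ⟨n, hn1, hn2⟩ := ((hx hmem).and_eventually h5).exists
      exact absurd hn1 (not_le.2 hn2)
    filter_upwards [ae_all_iff.2 h1] with x hx
    by_contra hc
    have h2 : 0 < |‖U x‖ - 1| := abs_pos.2 (sub_ne_zero.2 hc)
    obtain ⟨k, hk⟩ := exists_nat_one_div_lt h2
    exact hx k hk.le
  -- the section
  set s : B → Circ := fun x => ((Complex.arg (U x) / (2 * Real.pi) : ℝ) : UnitAddCircle) with hs
  have ms : Measurable s := by
    have h1 : Measurable (fun t : ℝ => (t : UnitAddCircle)) :=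
      (AddCircle.continuous_mk' 1).measurable
    exact h1.comp ((Complex.measurable_arg.comp mU).div_const _)
  have hsU : ∀ x, ‖U x‖ = 1 → e (s x) = U x := by
    intro x hx
    have h1 : e (s x) = Complex.exp (Complex.arg (U x) * Complex.I) := by
      show ((AddCircle.toCircle ((Complex.arg (U x) / (2 * Real.pi) : ℝ) : UnitAddCircle) : Circle) : ℂ) = _
      rw [AddCircle.toCircle_apply_mk, Circle.coe_exp]
      congr 2
      have : (2 * Real.pi / 1 * (Complex.arg (U x) / (2 * Real.pi)) : ℝ) = Complex.arg (U x) := by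
        field_simp
      rw [this]
    rw [h1]
    have h2 := Complex.norm_mul_exp_arg_mul_I (U x)
    rwa [hx, Complex.ofReal_one, one_mul] at h2
  -- invariance of properties which hold almost everywhere
  have hall : ∀ {p : B → Prop}, (∀ᵐ x ∂m, p x) → ∀ᵐ x ∂m, ∀ n : ℕ, p (T^[n] x) := by
    intro p hp
    rw [ae_all_iff]
    intro n
    exact (erg.toMeasurePreserving.quasiMeasurePreserving.iterate n).ae hp
  have hstep : ∀ᵐ x ∂m, ∀ n : ℕ, f^[n] (x, s x) = (T^[n] x, s (T^[n] x)) := by
    filter_upwards [hall hnorm, hall hinv] with x h1 h2 n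
    induction n with
    | zero => rfl
    | succ n ih =>
      rw [Function.iterate_succ_apply', ih, Function.iterate_succ_apply']
      refine Prod.ext (hf _) ?_
      apply toph_e_inj
      rw [h2 n _ (hsU _ (h1 n))]
      have h3 := h1 (n + 1)
      rw [Function.iterate_succ_apply'] at h3
      exact (hsU _ h3).symm
  -- asymptotic orbits
  have hasym : ∀ᵐ x ∂m, ∀ y : Circ,
      Tendsto (fun n => e (f^[n] (x, y)).2 - U (T^[n] x)) atTop (𝓝 0) →
      omegaLim f (x, y) = omegaLim f (x, s x) := by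
    filter_upwards [hall hnorm, hstep] with x h1 h2 y hy
    apply toph_omega_eq
    rw [Metric.tendsto_atTop]
    intro ε hε
    obtain ⟨δ, hδ, hd⟩ := toph_e_dist ε hε
    obtain ⟨N, hN⟩ := (Metric.tendsto_atTop.1 hy) δ hδ
    refine ⟨N, fun n hn => ?_⟩
    have h3 := hN n hn
    rw [dist_zero_right] at h3
    have h4 : dist (f^[n] (x, y)) (f^[n] (x, s x)) = dist (f^[n] (x, y)).2 (s (T^[n] x)) := by
      rw [Prod.dist_eq, hfst, hfst, h2 n]
      simp
    rw [Real.dist_eq, sub_zero, abs_of_nonneg dist_nonneg, h4]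
    apply hd
    rw [hsU _ (h1 n)]
    exact h3
  -- basis
  set 𝓑 := TopologicalSpace.countableBasis (B × Circ) with h𝓑
  have hBc : 𝓑.Countable := TopologicalSpace.countable_countableBasis _
  have hBb : TopologicalSpace.IsTopologicalBasis 𝓑 := TopologicalSpace.isBasis_countableBasis _
  have mg : Measurable (fun x : B => ((x, s x) : B × Circ)) := measurable_id.prodMk ms
  have mT : Measurable T := T.continuous.measurable
  let A : Set (B × Circ) → Set B := fun W => {x | ∃ᶠ n in atTop, ((T^[n] x, s (T^[n] x)) : B × Circ) ∈ W}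
  have hA : ∀ W ∈ 𝓑, (A W =ᵐ[m] (∅ : Set B) ∨ A W =ᵐ[m] (univ : Set B)) := by
    intro W hW
    have hWo : IsOpen W := hBb.isOpen hW
    apply erg.toPreErgodic.ae_empty_or_univ
    · have : A W = limsup (fun n => {x | ((T^[n] x, s (T^[n] x)) : B × Circ) ∈ W}) atTop := by
        ext x
        simp only [A, mem_ofPred_eq, mem_limsup_iff_frequently_mem]
      rw [this]
      refine MeasurableSet.measurableSet_limsup fun n => ?_
      exact (mg.comp (mT.iterate n)) hWo.measurableSet
    · ext x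
      simp only [A, mem_preimage, mem_ofPred_eq]
      have h1 : ∀ n : ℕ, T^[n] (T x) = T^[n + 1] x := fun n => (Function.iterate_succ_apply T n x).symm
      simp only [h1]
      constructor
      · intro h
        rw [frequently_atTop] at h ⊢
        intro a
        obtain ⟨b, hb, hb2⟩ := h a
        exact ⟨b + 1, by omega, hb2⟩
      · intro h
        rw [frequently_atTop] at h ⊢
        intro a
        obtain ⟨b, hb, hb2⟩ := h (a + 1)
        obtain ⟨k, rfl⟩ : ∃ k, b = k + 1 := ⟨b - 1, by omega⟩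
        exact ⟨k, by omega, hb2⟩
  let Λ : Set (B × Circ) := {q | ∀ W ∈ 𝓑, q ∈ W → A W =ᵐ[m] (univ : Set B)}
  have hΛc : IsClosed Λ := by
    rw [← isOpen_compl_iff]
    have : Λᶜ = ⋃ W ∈ {W ∈ 𝓑 | ¬ (A W =ᵐ[m] (univ : Set B))}, W := by
      ext q
      simp only [Λ, mem_compl_iff, mem_ofPred_eq, not_forall, mem_iUnion, exists_prop]
      constructor
      · rintro ⟨W, h1, h2, h3⟩; exact ⟨W, ⟨h1, h3⟩, h2⟩
      · rintro ⟨W, ⟨h1, h3⟩, h2⟩; exact ⟨W, h1, h2, h3⟩
    rw [this]
    exact isOpen_biUnion fun W hW => hBb.isOpen hW.1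
  have hgen : ∀ᵐ x ∂m, ∀ W ∈ 𝓑, (x ∈ A W ↔ A W =ᵐ[m] (univ : Set B)) := by
    rw [ae_ball_iff hBc]
    intro W hW
    by_cases hu : A W =ᵐ[m] (univ : Set B)
    · have h1 : ∀ᵐ x ∂m, x ∈ A W := by
        have := ae_eq_univ.1 hu
        rwa [ae_iff]
      filter_upwards [h1] with x hx
      exact iff_of_true hx hu
    · rcases hA W hW with h | h
      · have h1 : ∀ᵐ x ∂m, x ∉ A W := measure_eq_zero_iff_ae_notMem.1 (ae_eq_empty.1 h)
        filter_upwards [h1] with x hx
        exact iff_of_false hx hu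
      · exact absurd h hu
  have hO : ∀ᵐ x ∂m, omegaLim f (x, s x) = Λ := by
    filter_upwards [hgen, hstep] with x h1 h2
    ext q
    constructor
    · intro hq W hW hqW
      rw [← h1 W hW]
      show ∃ᶠ n in atTop, ((T^[n] x, s (T^[n] x)) : B × Circ) ∈ W
      rw [frequently_atTop]
      intro N
      obtain ⟨n, hn, hnW⟩ := hq W ((hBb.isOpen hW).mem_nhds hqW) N
      rw [h2 n] at hnW
      exact ⟨n, hn, hnW⟩
    · intro hq V hV N
      obtain ⟨W, hW, hqW, hWV⟩ := hBb.mem_nhds_iff.1 hV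
      have h3 : x ∈ A W := (h1 W hW).2 (hq W hW hqW)
      have h4 : ∃ᶠ n in atTop, ((T^[n] x, s (T^[n] x)) : B × Circ) ∈ W := h3
      rw [frequently_atTop] at h4
      obtain ⟨n, hn, hnW⟩ := h4 N
      refine ⟨n, hn, hWV ?_⟩
      rw [h2 n]
      exact hnW
  -- recurrence
  have hrec : ∀ᵐ x ∂m, ((x, s x) : B × Circ) ∈ omegaLim f (x, s x) := by
    have h1 : ∀ᵐ x ∂m, ∀ W ∈ 𝓑, ((x, s x) : B × Circ) ∈ W →
        ∃ᶠ n in atTop, ((T^[n] x, s (T^[n] x)) : B × Circ) ∈ W := by
      rw [ae_ball_iff hBc]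
      intro W hW
      have hS : MeasurableSet {x : B | ((x, s x) : B × Circ) ∈ W} :=
        mg (hBb.isOpen hW).measurableSet
      exact hcons.ae_mem_imp_frequently_image_mem hS.nullMeasurableSet
    filter_upwards [h1, hstep] with x h1 h2 V hV N
    obtain ⟨W, hW, hqW, hWV⟩ := hBb.mem_nhds_iff.1 hV
    obtain ⟨n, hn, hnW⟩ := (frequently_atTop.1 (h1 W hW hqW)) N
    refine ⟨n, hn, hWV ?_⟩
    rw [h2 n]
    exact hnW
  -- almost every point
  have hae : ∀ᵐ p ∂(m.prod (volume : Measure Circ)), omegaLim f p = Λ := by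
    have hC : MeasurableSet {p : B × Circ |
        Tendsto (fun n => e (f^[n] p).2 - U (T^[n] p.1)) atTop (𝓝 0)} := by
      apply measurableSet_tendsto
      intro n
      refine Measurable.sub ?_ ?_
      · exact (toph_e_cont.measurable.comp measurable_snd).comp (f.continuous.measurable.iterate n)
      · exact (mU.comp (mT.iterate n)).comp measurable_fst
    have h1 : ∀ᵐ p ∂(m.prod (volume : Measure Circ)), p ∈ {p : B × Circ |
        Tendsto (fun n => e (f^[n] p).2 - U (T^[n] p.1)) atTop (𝓝 0)} := by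
      rw [Measure.ae_prod_mem_iff_ae_ae_mem hC]
      filter_upwards [hcon] with x hx
      obtain ⟨z, hz⟩ := hx
      have h2 : ∀ᵐ y ∂(volume : Measure Circ), e y ≠ z := by
        by_cases hex : ∃ y0 : Circ, e y0 = z
        · obtain ⟨y0, hy0⟩ := hex
          have h3 : ∀ᵐ y ∂(volume : Measure Circ), y ≠ y0 := by
            rw [ae_iff]
            have : {a : Circ | ¬ a ≠ y0} = {y0} := by ext a; simp
            rw [this]
            have h5 := AddCircle.volume_closedBall (T := 1) (x := y0) 0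
            rw [Metric.closedBall_zero] at h5
            rw [h5]; simp
          filter_upwards [h3] with y hy h4
          exact hy (toph_e_inj (h4.trans hy0.symm))
        · exact Eventually.of_forall fun y hy => hex ⟨y, hy⟩
      filter_upwards [h2] with y hy
      exact hz y hy
    have h2 : ∀ᵐ p ∂(m.prod (volume : Measure Circ)), (∀ y : Circ,
        Tendsto (fun n => e (f^[n] (p.1, y)).2 - U (T^[n] p.1)) atTop (𝓝 0) →
        omegaLim f (p.1, y) = omegaLim f (p.1, s p.1)) :=
      Measure.quasiMeasurePreserving_fst.ae hasym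
    have h3 : ∀ᵐ p ∂(m.prod (volume : Measure Circ)), omegaLim f (p.1, s p.1) = Λ :=
      Measure.quasiMeasurePreserving_fst.ae (p := fun x => omegaLim f (x, s x) = Λ) hO
    filter_upwards [h1, h2, h3] with p h1 h2 h3
    rw [← h3, ← h2 p.2 h1]
  have haeμ : ∀ᵐ p ∂μ, omegaLim f p = Λ := hμ.ae_le hae
  obtain ⟨x0, hx1, hx2⟩ := (hO.and hrec).exists
  refine ⟨Λ, hΛc, ⟨?_, ⟨(x0, s x0), ?_, ?_⟩, ?_⟩, haeμ⟩
  · rw [← hx1]; exact toph_omega_image f _
  · rw [← hx1]; exact hx2
  · rw [← hx1]
    intro q hq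
    rw [mem_closure_iff_nhds]
    intro V hV
    obtain ⟨n, _, hnV⟩ := hq V hV 0
    exact ⟨_, hnV, n, rfl⟩
  · rw [pos_iff_ne_zero]
    intro h0
    apply hμ0
    rw [← Measure.measure_univ_eq_zero]
    have h1 : μ {p | ¬ omegaLim f p = Λ} = 0 := ae_iff.1 haeμ
    refine measure_mono_null (fun p _ => ?_) (measure_union_null h0 h1)
    by_cases hp : omegaLim f p = Λ
    · exact Or.inl hp.subset
    · exact Or.inr hp

end Pool.Agent.H728R2.FA
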