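import Pool.Agent.H728R2.FA.Base

open Set Filter Topology MeasureTheory
open scoped ComplexConjugate

namespace Pool.Agent.H728R2.FA

open Pool.Agent.H728R2.OS

namespace WALL

variable {B : Type*} [MeasurableSpace B]

/-- A class of functions closed under linear combinations and bounded pointwise limits which
contains the trigonometric monomials. -/
structure MClass (Good : (Circ × (B × Circ) → ℂ) → Prop) : Prop where
  add : ∀ f g, Good f → Good g → Good (fun p => f p + g p)
  smul : ∀ (c : ℂ) f, Good f → Good (fun p => c * f p)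
  lim : ∀ (f : ℕ → Circ × (B × Circ) → ℂ) (g : Circ × (B × Circ) → ℂ) (C : ℝ),
    (∀ k, Good (f k)) → (∀ k p, ‖f k p‖ ≤ C) →
    (∀ p, Tendsto (fun k => f k p) atTop (𝓝 (g p))) → Good g
  base : ∀ (S : Set Circ) (R : Set B) (j : ℤ), MeasurableSet S → MeasurableSet R →
    Good (fun p => S.indicator 1 p.1 * R.indicator 1 p.2.1 * e p.2.2 ^ j)

lemma fourier_eq (j : ℤ) (y : Circ) : (fourier j : C(Circ, ℂ)) y = e y ^ j := by
  rw [fourier_apply, AddCircle.toCircle_zsmul]
  simp [e]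

lemma ind_norm_le {α : Type*} (S : Set α) (x : α) : ‖S.indicator (1 : α → ℂ) x‖ ≤ 1 := by
  by_cases h : x ∈ S <;> simp [h]

variable {Good : (Circ × (B × Circ) → ℂ) → Prop} (G : MClass Good)

include G

lemma cont (S : Set Circ) (R : Set B) (hS : MeasurableSet S) (hR : MeasurableSet R)
    (g : C(Circ, ℂ)) : Good (fun p => S.indicator 1 p.1 * R.indicator 1 p.2.1 * g p.2.2) := by
  let W : Submodule ℂ C(Circ, ℂ) :=
    { carrier := {g | Good (fun p => S.indicator 1 p.1 * R.indicator 1 p.2.1 * g p.2.2)}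
      add_mem' := by
        intro a b ha hb
        have := G.add _ _ ha hb
        change Good _
        convert this using 2 with p
        simp only [ContinuousMap.add_apply]
        ring
      zero_mem' := by
        have := G.smul 0 _ (G.base S R 0 hS hR)
        change Good _
        convert this using 2 with p
        simp
      smul_mem' := by
        intro c a ha
        have := G.smul c _ ha
        change Good _
        convert this using 2 with p
        simp only [ContinuousMap.smul_apply, smul_eq_mul]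
        ring }
  have hcl : IsClosed (W : Set C(Circ, ℂ)) := by
    apply IsSeqClosed.isClosed
    intro a b ha hab
    have hb := (Metric.isBounded_range_of_tendsto a hab)
    obtain ⟨C, hC⟩ := hb.exists_norm_le
    refine G.lim (fun k p => S.indicator 1 p.1 * R.indicator 1 p.2.1 * a k p.2.2) _ C
      (fun k => ha k) ?_ ?_
    · intro k p
      rw [norm_mul, norm_mul]
      have h1 : ‖a k p.2.2‖ ≤ C := ((a k).norm_coe_le_norm _).trans (hC _ ⟨k, rfl⟩)
      calc _ ≤ 1 * 1 * C := by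
            gcongr
            · exact ind_norm_le _ _
            · exact ind_norm_le _ _
        _ = C := by ring
    · intro p
      apply Tendsto.const_mul
      exact ((ContinuousEvalConst.continuous_eval_const p.2.2).tendsto b).comp hab
  have hspan : Submodule.span ℂ (range (fourier (T := (1 : ℝ)))) ≤ W := by
    rw [Submodule.span_le]
    rintro _ ⟨j, rfl⟩
    change Good _
    have := G.base S R j hS hR
    convert this using 2 with p
    rw [fourier_eq]
  have htop : (⊤ : Submodule ℂ C(Circ, ℂ)) ≤ W := by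
    have h1 : (Submodule.span ℂ (range (fourier (T := (1 : ℝ))))).topologicalClosure = ⊤ :=
      span_fourier_closure_eq_top (T := (1 : ℝ))
    rw [← h1]
    exact Submodule.topologicalClosure_minimal _ hspan hcl
  exact htop (Submodule.mem_top (x := g))

lemma clos (S : Set Circ) (R : Set B) (hS : MeasurableSet S) (hR : MeasurableSet R)
    (K : Set Circ) (hK : IsClosed K) :
    Good (fun p => S.indicator 1 p.1 * R.indicator 1 p.2.1 * K.indicator 1 p.2.2) := by
  have hδ : ∀ n : ℕ, (0 : ℝ) < 1 / ((n : ℝ) + 1) := fun n => Nat.one_div_pos_of_nat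
  have key := thickenedIndicator_tendsto_indicator_closure hδ
    tendsto_one_div_add_atTop_nhds_zero_nat K
  rw [hK.closure_eq, tendsto_pi_nhds] at key
  let a : ℕ → C(Circ, ℂ) := fun n =>
    ⟨fun y => (((thickenedIndicator (hδ n) K y : NNReal) : ℝ) : ℂ), by fun_prop⟩
  refine G.lim (fun k p => S.indicator 1 p.1 * R.indicator 1 p.2.1 * a k p.2.2) _ 1
    (fun k => cont G S R hS hR (a k)) ?_ ?_
  · intro k p
    rw [norm_mul, norm_mul]
    have h1 : ‖a k p.2.2‖ ≤ 1 := by
      change ‖(((thickenedIndicator (hδ k) K p.2.2 : NNReal) : ℝ) : ℂ)‖ ≤ 1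
      rw [Complex.norm_real, NNReal.norm_eq]
      exact_mod_cast thickenedIndicator_le_one (hδ k) K _
    calc ‖S.indicator (1 : Circ → ℂ) p.1‖ * ‖R.indicator (1 : B → ℂ) p.2.1‖ * ‖a k p.2.2‖
        ≤ 1 * 1 * 1 := by
          gcongr
          · exact ind_norm_le _ _
          · exact ind_norm_le _ _
      _ = 1 := by norm_num
  · intro p
    apply Tendsto.const_mul
    have h1 := key p.2.2
    have h2 : Continuous fun t : NNReal => (((t : ℝ)) : ℂ) := by fun_prop
    have h3 := (h2.tendsto _).comp h1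
    have h4 : ((((K.indicator (fun _ => (1 : NNReal)) p.2.2 : NNReal) : ℝ)) : ℂ) =
        K.indicator 1 p.2.2 := by
      by_cases h : p.2.2 ∈ K <;> simp [h]
    rw [h4] at h3
    exact h3

lemma gs_diff {A A' : Set (Circ × (B × Circ))} (hAA : A ⊆ A')
    (h : Good (fun p => A.indicator 1 p)) (h' : Good (fun p => A'.indicator 1 p)) :
    Good (fun p => (A' \ A).indicator 1 p) := by
  have := G.add _ _ h' (G.smul (-1) _ h)
  convert this using 2 with p
  by_cases h1 : p ∈ A
  · have h2 := hAA h1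
    simp [h1, h2]
  · by_cases h2 : p ∈ A' <;> simp [h1, h2]

lemma gs_empty : Good (fun p => (∅ : Set (Circ × (B × Circ))).indicator 1 p) := by
  have := G.smul 0 _ (G.base ∅ ∅ 0 MeasurableSet.empty MeasurableSet.empty)
  convert this using 2 with p
  simp

lemma gs_union {A A' : Set (Circ × (B × Circ))} (hAA : Disjoint A A')
    (h : Good (fun p => A.indicator 1 p)) (h' : Good (fun p => A'.indicator 1 p)) :
    Good (fun p => (A ∪ A').indicator 1 p) := by
  have := G.add _ _ h h'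
  convert this using 2 with p
  rw [indicator_union_of_disjoint hAA]

lemma gs_iUnion {A : ℕ → Set (Circ × (B × Circ))} (hd : Pairwise (Function.onFun Disjoint A))
    (h : ∀ i, Good (fun p => (A i).indicator 1 p)) :
    Good (fun p => (⋃ i, A i).indicator 1 p) := by
  have hfin : ∀ n : ℕ, Good (fun p => (⋃ i ∈ Finset.range n, A i).indicator 1 p) := by
    intro n
    induction n with
    | zero =>
      simpa using gs_empty G
    | succ n ih =>
      have e1 : (⋃ i ∈ Finset.range (n + 1), A i) = (⋃ i ∈ Finset.range n, A i) ∪ A n := by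
        ext p
        simp only [Finset.mem_range, mem_iUnion, exists_prop, mem_union]
        constructor
        · rintro ⟨i, hi, hp⟩
          rcases Nat.lt_succ_iff_lt_or_eq.1 hi with h | rfl
          · exact Or.inl ⟨i, h, hp⟩
          · exact Or.inr hp
        · rintro (⟨i, hi, hp⟩ | hp)
          · exact ⟨i, by omega, hp⟩
          · exact ⟨n, by omega, hp⟩
      rw [e1]
      refine gs_union G ?_ ih (h n)
      rw [Set.disjoint_iff]
      rintro p ⟨hp, hq⟩
      simp only [Finset.mem_range, mem_iUnion, exists_prop] at hp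
      obtain ⟨i, hi, hp⟩ := hp
      exact (Set.disjoint_iff.1 (hd (by omega : i ≠ n))) ⟨hp, hq⟩
  refine G.lim _ _ 1 hfin (fun k p => ind_norm_le _ _) ?_
  intro p
  by_cases hp : p ∈ ⋃ i, A i
  · obtain ⟨i, hi⟩ := mem_iUnion.1 hp
    refine tendsto_const_nhds.congr' ?_
    filter_upwards [eventually_gt_atTop i] with n hn
    have : p ∈ ⋃ i ∈ Finset.range n, A i := by
      simp only [Finset.mem_range, mem_iUnion, exists_prop]
      exact ⟨i, hn, hi⟩
    rw [indicator_of_mem hp, indicator_of_mem this]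
  · refine tendsto_const_nhds.congr' ?_
    filter_upwards with n
    have : p ∉ ⋃ i ∈ Finset.range n, A i := by
      simp only [Finset.mem_range, mem_iUnion, exists_prop, not_exists, not_and] at hp ⊢
      exact fun i _ => hp i
    rw [indicator_of_notMem hp, indicator_of_notMem this]

omit G in
lemma prod3_ind (S : Set Circ) (R : Set B) (K : Set Circ) (p : Circ × (B × Circ)) :
    (S ×ˢ (R ×ˢ K)).indicator (1 : Circ × (B × Circ) → ℂ) p =
      S.indicator 1 p.1 * R.indicator 1 p.2.1 * K.indicator 1 p.2.2 := by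
  by_cases h1 : p.1 ∈ S <;> by_cases h2 : p.2.1 ∈ R <;> by_cases h3 : p.2.2 ∈ K <;>
    simp [indicator, h1, h2, h3]

lemma rect1 (S : Set Circ) (R : Set B) (hS : MeasurableSet S) (hR : MeasurableSet R)
    (K : Set Circ) (hK : MeasurableSet K) :
    Good (fun p => (S ×ˢ (R ×ˢ K)).indicator 1 p) := by
  have hgen : (inferInstance : MeasurableSpace Circ) =
      MeasurableSpace.generateFrom {s : Set Circ | IsClosed s} := by
    rw [← borel_eq_generateFrom_isClosed]
    exact BorelSpace.measurable_eq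
  have hcl : ∀ K : Set Circ, IsClosed K → Good (fun p => (S ×ˢ (R ×ˢ K)).indicator 1 p) := by
    intro K hK
    have := clos G S R hS hR K hK
    convert this using 2 with p
    exact prod3_ind _ _ _ _
  induction K, hK using MeasurableSpace.induction_on_inter hgen isPiSystem_isClosed with
  | empty => simpa using gs_empty G
  | basic K hK => exact hcl K hK
  | compl K hK ih =>
    have := gs_diff G (prod_mono subset_rfl (prod_mono subset_rfl (subset_univ K))) ih
      (hcl univ isClosed_univ)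
    convert this using 3 with p
    ext ⟨a, b, c⟩
    simp only [mem_prod, mem_compl_iff, mem_diff, mem_univ]
    tauto
  | iUnion A hd hA ih =>
    have := gs_iUnion G (A := fun i => S ×ˢ (R ×ˢ A i)) ?_ ih
    · convert this using 3 with p
      ext ⟨a, b, c⟩
      simp only [mem_prod, mem_iUnion]
      tauto
    · intro i j hij
      have := hd hij
      rw [Function.onFun, Set.disjoint_iff] at this ⊢
      rintro p ⟨hp, hq⟩
      exact this ⟨hp.2.2, hq.2.2⟩

lemma rect2 (S : Set Circ) (hS : MeasurableSet S) (Q : Set (B × Circ)) (hQ : MeasurableSet Q) :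
    Good (fun p => (S ×ˢ Q).indicator 1 p) := by
  have hu : Good (fun p => (S ×ˢ (univ : Set (B × Circ))).indicator 1 p) := by
    have := rect1 G S univ hS MeasurableSet.univ univ MeasurableSet.univ
    rwa [univ_prod_univ] at this
  induction Q, hQ using MeasurableSpace.induction_on_inter generateFrom_prod.symm
    isPiSystem_prod with
  | empty => simpa using gs_empty G
  | basic K hK =>
    obtain ⟨R, hR, K, hK, rfl⟩ := hK
    exact rect1 G S R hS hR K hK
  | compl K hK ih =>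
    have := gs_diff G (prod_mono subset_rfl (subset_univ K)) ih hu
    convert this using 3 with p
    ext ⟨a, b⟩
    simp only [mem_prod, mem_compl_iff, mem_diff, mem_univ]
    tauto
  | iUnion A hd hA ih =>
    have := gs_iUnion G (A := fun i => S ×ˢ (A i)) ?_ ih
    · convert this using 3 with p
      ext ⟨a, b⟩
      simp only [mem_prod, mem_iUnion]
      tauto
    · intro i j hij
      have := hd hij
      rw [Function.onFun, Set.disjoint_iff] at this ⊢
      rintro p ⟨hp, hq⟩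
      exact this ⟨hp.2, hq.2⟩

lemma rect3 (Q : Set (Circ × (B × Circ))) (hQ : MeasurableSet Q) :
    Good (fun p => Q.indicator 1 p) := by
  have hu : Good (fun p => (univ : Set (Circ × (B × Circ))).indicator 1 p) := by
    have := rect2 G univ MeasurableSet.univ univ MeasurableSet.univ
    rwa [univ_prod_univ] at this
  induction Q, hQ using MeasurableSpace.induction_on_inter generateFrom_prod.symm
    isPiSystem_prod with
  | empty => exact gs_empty G
  | basic K hK =>
    obtain ⟨R, hR, K, hK, rfl⟩ := hK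
    exact rect2 G R hR K hK
  | compl K hK ih =>
    have := gs_diff G (subset_univ K) ih hu
    convert this using 3 with p
    rw [compl_eq_univ_diff]
  | iUnion A hd hA ih => exact gs_iUnion G hd ih

/-- All bounded measurable functions belong to the class. -/
lemma all_bdd (h : Circ × (B × Circ) → ℂ) (hm : Measurable h) (hb : ∃ C, ∀ p, ‖h p‖ ≤ C) :
    Good h := by
  obtain ⟨C, hC⟩ := hb
  have hs : ∀ f : SimpleFunc (Circ × (B × Circ)) ℂ, Good f := by
    intro f
    induction f using SimpleFunc.induction with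
    | const c hs =>
      rename_i s
      have := G.smul c _ (rect3 G s hs)
      convert this using 2 with p
      by_cases hp : p ∈ s <;> simp [hp]
    | add hd hf hg =>
      exact G.add _ _ hf hg
  have hsm := hm.stronglyMeasurable
  exact G.lim (fun k => hsm.approxBounded (max C 0) k) h (max C 0) (fun k => hs _)
    (fun k p => hsm.norm_approxBounded_le (le_max_right _ _) k p)
    (fun p => hsm.tendsto_approxBounded_of_norm_le ((hC p).trans (le_max_left _ _)))

end WALL


namespace WALL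

variable {B : Type*} [MeasurableSpace B] {m : Measure B}

/-- The average over the fibre with respect to the Poisson density. -/
noncomputable def Pi (U : Circ → B → ℂ) (h : Circ × (B × Circ) → ℂ)
    (p : Circ × (B × Circ)) : ℂ :=
  ∫ y : Circ, h (p.1, (p.2.1, y)) * (PK (U p.1 p.2.1) y : ℂ)

/-- The map `(θ, q) ↦ (θ, F θ q)`. -/
def Fh (F : Circ → B × Circ → B × Circ) (p : Circ × (B × Circ)) : Circ × (B × Circ) :=
  (p.1, F p.1 p.2)

/-- The invariant measure. -/
noncomputable def nu (m : Measure B) (U : Circ → B → ℂ) (Θ : Set Circ) :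
    Measure (Circ × (B × Circ)) :=
  ((volume : Measure Circ).prod (m.prod (volume : Measure Circ))).withDensity
    (fun p => ENNReal.ofReal (Θ.indicator 1 p.1 * PK (U p.1 p.2.1) p.2.2))

/-- The class of functions for which the weak convergence holds. -/
def Good (m : Measure B) (F : Circ → B × Circ → B × Circ) (U : Circ → B → ℂ) (Θ : Set Circ)
    (h : Circ × (B × Circ) → ℂ) : Prop :=
  Measurable h ∧ (∃ C, ∀ p, ‖h p‖ ≤ C) ∧
  ∀ (Φ : Circ × (B × Circ) → ℝ), Measurable Φ → (∃ C, ∀ p, |Φ p| ≤ C) → ∀ η : ℝ, 0 < η →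
      (∀ p, Φ p ≠ 0 → p.1 ∈ Θ ∧ ‖U p.1 p.2.1‖ ≤ 1 - η) →
      Tendsto (fun n : ℕ => ∫ p : Circ × (B × Circ), (Φ p : ℂ) *
        (h ((Fh F)^[n] p) - Pi U h ((Fh F)^[n] p))
        ∂((volume : Measure Circ).prod (m.prod (volume : Measure Circ)))) atTop (𝓝 0)

lemma PK_nonneg {z : ℂ} (hz : ‖z‖ ≤ 1) (y : Circ) : 0 ≤ PK z y := by
  unfold PK
  have : ‖z‖ ^ 2 ≤ 1 := pow_le_one₀ (norm_nonneg _) hz
  exact div_nonneg (by linarith) (by positivity)

lemma PK_one {z : ℂ} (hz : ‖z‖ = 1) (y : Circ) : PK z y = 0 := by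
  unfold PK
  simp [hz]

section PKfacts

variable (hPKb : ∀ z : ℂ, ‖z‖ < 1 → ∀ y : Circ,
      (1 - ‖z‖) / (1 + ‖z‖) ≤ PK z y ∧ PK z y ≤ (1 + ‖z‖) / (1 - ‖z‖))
    (hPKm : Measurable (fun p : ℂ × Circ => PK p.1 p.2))
    (hPKj : ∀ z : ℂ, ‖z‖ < 1 → ∀ j : ℤ, ∫ y : Circ, e y ^ j * (PK z y : ℂ) = HH j z)

include hPKb hPKm in
lemma PK_int {z : ℂ} (hz : ‖z‖ ≤ 1) : Integrable (fun y : Circ => PK z y) := by
  rcases hz.lt_or_eq with h | h
  · refine Integrable.of_bound (C := (1 + ‖z‖) / (1 - ‖z‖)) ?_ ?_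
    · exact (hPKm.comp (measurable_const.prodMk measurable_id)).aestronglyMeasurable
    · refine ae_of_all _ fun y => ?_
      rw [Real.norm_of_nonneg (PK_nonneg hz y)]
      exact (hPKb z h y).2
  · simp [PK_one h]

include hPKj in
lemma PK_integral {z : ℂ} (hz : ‖z‖ < 1) : ∫ y : Circ, PK z y = 1 := by
  have h := hPKj z hz 0
  simp only [zpow_zero, one_mul, HH, le_refl, if_true, Int.toNat_zero, pow_zero] at h
  rw [integral_complex_ofReal] at h
  exact_mod_cast h

include hPKj in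
lemma PK_integral_le {z : ℂ} (hz : ‖z‖ ≤ 1) : ∫ y : Circ, PK z y ≤ 1 := by
  rcases hz.lt_or_eq with h | h
  · exact (PK_integral hPKj h).le
  · simp [PK_one h]

include hPKb hPKm in
lemma PK_mul_int {z : ℂ} (hz : ‖z‖ ≤ 1) {f : Circ → ℂ} (hf : Measurable f) {C : ℝ}
    (hC : ∀ y, ‖f y‖ ≤ C) : Integrable (fun y : Circ => f y * (PK z y : ℂ)) := by
  have h1 : Integrable (fun y : Circ => ((PK z y : ℝ) : ℂ)) := (PK_int hPKb hPKm hz).ofReal
  exact h1.bdd_mul (c := C) hf.aestronglyMeasurable (ae_of_all _ hC)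

variable {U : Circ → B → ℂ} (mU : Measurable (Function.uncurry U)) (bU : ∀ θ x, ‖U θ x‖ ≤ 1)

include hPKb hPKm hPKj bU in
lemma Pi_le {h : Circ × (B × Circ) → ℂ} {C : ℝ}
    (hC : ∀ p, ‖h p‖ ≤ C) (p : Circ × (B × Circ)) : ‖Pi U h p‖ ≤ C := by
  have hC0 : 0 ≤ C := (norm_nonneg _).trans (hC p)
  unfold Pi
  calc ‖∫ y : Circ, h (p.1, (p.2.1, y)) * (PK (U p.1 p.2.1) y : ℂ)‖
      ≤ ∫ y : Circ, C * PK (U p.1 p.2.1) y := by
        refine norm_integral_le_of_norm_le ((PK_int hPKb hPKm (bU _ _)).const_mul C) ?_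
        refine ae_of_all _ fun y => ?_
        rw [norm_mul, Complex.norm_real, Real.norm_of_nonneg (PK_nonneg (bU _ _) y)]
        exact mul_le_mul_of_nonneg_right (hC _) (PK_nonneg (bU _ _) y)
    _ = C * ∫ y : Circ, PK (U p.1 p.2.1) y := integral_const_mul _ _
    _ ≤ C * 1 := mul_le_mul_of_nonneg_left (PK_integral_le hPKj (bU _ _)) hC0
    _ = C := mul_one C

include hPKm mU in
lemma Pi_meas {h : Circ × (B × Circ) → ℂ} (hm : Measurable h) : Measurable (Pi U h) := by
  unfold Pi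
  have h1 : Measurable (fun q : (Circ × (B × Circ)) × Circ =>
      h (q.1.1, (q.1.2.1, q.2)) * ((PK (U q.1.1 q.1.2.1) q.2 : ℝ) : ℂ)) := by
    apply Measurable.mul
    · exact hm.comp (by fun_prop)
    · apply Complex.measurable_ofReal.comp
      have h2 : Measurable (fun q : (Circ × (B × Circ)) × Circ => U q.1.1 q.1.2.1) :=
        mU.comp (by fun_prop : Measurable fun q : (Circ × (B × Circ)) × Circ => (q.1.1, q.1.2.1))
      exact hPKm.comp (h2.prodMk measurable_snd)
  exact (h1.stronglyMeasurable.integral_prod_right').measurable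

include hPKb hPKm bU in
lemma Pi_add {f g : Circ × (B × Circ) → ℂ} (hf : Measurable f) (hg : Measurable g)
    {C C' : ℝ} (hC : ∀ p, ‖f p‖ ≤ C) (hC' : ∀ p, ‖g p‖ ≤ C') (p : Circ × (B × Circ)) :
    Pi U (fun p => f p + g p) p = Pi U f p + Pi U g p := by
  unfold Pi
  rw [← integral_add]
  · simp only [add_mul]
  · exact PK_mul_int hPKb hPKm (bU _ _) (hf.comp (by fun_prop)) (fun y => hC _)
  · exact PK_mul_int hPKb hPKm (bU _ _) (hg.comp (by fun_prop)) (fun y => hC' _)

omit [MeasurableSpace B] in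
lemma Pi_smul (c : ℂ) {f : Circ × (B × Circ) → ℂ} (p : Circ × (B × Circ)) :
    Pi U (fun p => c * f p) p = c * Pi U f p := by
  unfold Pi
  rw [← integral_const_mul]
  simp only [mul_assoc]

include hPKb hPKm bU in
lemma Pi_lim {f : ℕ → Circ × (B × Circ) → ℂ} {g : Circ × (B × Circ) → ℂ} {C : ℝ}
    (hf : ∀ k, Measurable (f k)) (hC : ∀ k p, ‖f k p‖ ≤ C)
    (hlim : ∀ p, Tendsto (fun k => f k p) atTop (𝓝 (g p))) (p : Circ × (B × Circ)) :
    Tendsto (fun k => Pi U (f k) p) atTop (𝓝 (Pi U g p)) := by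
  unfold Pi
  apply tendsto_integral_of_dominated_convergence (fun y => C * PK (U p.1 p.2.1) y)
  · intro k
    exact (PK_mul_int hPKb hPKm (bU _ _) ((hf k).comp (by fun_prop)) 
      (fun y => hC k _)).aestronglyMeasurable
  · exact (PK_int hPKb hPKm (bU _ _)).const_mul C
  · intro k
    refine ae_of_all _ fun y => ?_
    rw [norm_mul, Complex.norm_real, Real.norm_of_nonneg (PK_nonneg (bU _ _) y)]
    exact mul_le_mul_of_nonneg_right (hC _ _) (PK_nonneg (bU _ _) y)
  · refine ae_of_all _ fun y => ?_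
    exact (hlim _).mul_const _

end PKfacts

end WALL

namespace WALL

variable {B : Type*} [MeasurableSpace B] {m : Measure B} [IsProbabilityMeasure m]

section nufacts

variable (hPKb : ∀ z : ℂ, ‖z‖ < 1 → ∀ y : Circ,
      (1 - ‖z‖) / (1 + ‖z‖) ≤ PK z y ∧ PK z y ≤ (1 + ‖z‖) / (1 - ‖z‖))
    (hPKm : Measurable (fun p : ℂ × Circ => PK p.1 p.2))
    (hPKj : ∀ z : ℂ, ‖z‖ < 1 → ∀ j : ℤ, ∫ y : Circ, e y ^ j * (PK z y : ℂ) = HH j z)
    {U : Circ → B → ℂ} (mU : Measurable (Function.uncurry U)) (bU : ∀ θ x, ‖U θ x‖ ≤ 1)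
    {Θ : Set Circ} (mΘ : MeasurableSet Θ)

include hPKm mU in
lemma mPKU : Measurable fun p : Circ × (B × Circ) => PK (U p.1 p.2.1) p.2.2 := by
  have h2 : Measurable (fun q : Circ × (B × Circ) => U q.1 q.2.1) :=
    mU.comp (by fun_prop : Measurable fun q : Circ × (B × Circ) => (q.1, q.2.1))
  exact hPKm.comp (h2.prodMk (by fun_prop))

include hPKm mU mΘ in
lemma mdens : Measurable fun p : Circ × (B × Circ) =>
    ENNReal.ofReal (Θ.indicator 1 p.1 * PK (U p.1 p.2.1) p.2.2) := by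
  apply ENNReal.measurable_ofReal.comp
  apply Measurable.mul
  · exact (measurable_one.indicator mΘ).comp measurable_fst
  · exact mPKU hPKm mU

include hPKm mU mΘ in
lemma lint_nu {f : Circ × (B × Circ) → ENNReal} (hf : Measurable f) :
    ∫⁻ p, f p ∂(nu m U Θ) = ∫⁻ θ in Θ, (∫⁻ x, (∫⁻ y : Circ,
      f (θ, (x, y)) * ENNReal.ofReal (PK (U θ x) y)) ∂m) := by
  unfold nu
  rw [lintegral_withDensity_eq_lintegral_mul _ (mdens hPKm mU mΘ) hf]
  rw [lintegral_prod _ ((mdens hPKm mU mΘ).mul hf).aemeasurable]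
  rw [← lintegral_indicator mΘ]
  apply lintegral_congr
  intro θ
  have hm' : Measurable fun y : B × Circ =>
      ((fun p : Circ × (B × Circ) => ENNReal.ofReal (Θ.indicator 1 p.1 * PK (U p.1 p.2.1) p.2.2))
        * f) (θ, y) := ((mdens hPKm mU mΘ).mul hf).comp measurable_prodMk_left
  rw [lintegral_prod _ hm'.aemeasurable]
  by_cases h : θ ∈ Θ
  · rw [indicator_of_mem h]
    apply lintegral_congr
    intro x
    apply lintegral_congr
    intro y
    simp [h, mul_comm]
  · rw [indicator_of_notMem h]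
    simp [h]

include hPKb hPKm hPKj in
lemma lint_PK_le {z : ℂ} (hz : ‖z‖ ≤ 1) :
    ∫⁻ y : Circ, ENNReal.ofReal (PK z y) ≤ 1 := by
  rw [← ofReal_integral_eq_lintegral_ofReal (PK_int hPKb hPKm hz)
    (ae_of_all _ fun y => PK_nonneg hz y)]
  exact ENNReal.ofReal_le_one.2 (PK_integral_le hPKj hz)

include hPKb hPKm hPKj mU mΘ bU in
lemma nu_finite : IsFiniteMeasure (nu m U Θ) := by
  constructor
  have h1 : (nu m U Θ) univ = ∫⁻ p, 1 ∂(nu m U Θ) := by simp
  rw [h1, lint_nu hPKm mU mΘ measurable_const]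
  calc ∫⁻ θ in Θ, (∫⁻ x, (∫⁻ y : Circ, 1 * ENNReal.ofReal (PK (U θ x) y)) ∂m)
      ≤ ∫⁻ θ in Θ, (∫⁻ x, 1 ∂m) := by
        gcongr with θ x
        simp only [one_mul]
        exact lint_PK_le hPKb hPKm hPKj (bU _ _)
    _ ≤ 1 := by
        simp only [lintegral_const, measure_univ, mul_one, one_mul, Measure.restrict_apply_univ]
        refine (measure_mono (subset_univ _)).trans ?_
        rw [AddCircle.measure_univ, ENNReal.ofReal_one]
    _ < ⊤ := ENNReal.one_lt_top

lemma norm_e' (θ : Circ) : ‖e θ‖ = 1 := by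
  unfold e
  exact Circle.norm_coe _

variable (D : Coc B m) {F : Circ → B × Circ → B × Circ} (hF : D.Real F)
  (hΘ : ∀ θ ∈ Θ, ∀ᵐ x ∂m, ‖U θ x‖ < 1)
  (hinv : ∀ θ ∈ Θ, ∀ᵐ x ∂m, U θ (D.T x) = D.G (e θ) x (U θ x))
  (hPKt : ∀ (l a b : ℂ), ‖l‖ = 1 → ‖a‖ ^ 2 - ‖b‖ ^ 2 = 1 → ∀ (g : Circ → Circ),
      (∀ y, e (g y) = l * (a * e y + b) / (conj b * e y + conj a)) → ∀ z : ℂ, ‖z‖ < 1 →
      ∀ h : Circ → ℝ, Measurable h → (∃ C, ∀ y, |h y| ≤ C) →
      ‖l * (a * z + b) / (conj b * z + conj a)‖ < 1 ∧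
      ∫ y : Circ, h (g y) * PK z y =
        ∫ y : Circ, h y * PK (l * (a * z + b) / (conj b * z + conj a)) y)

include hF in
lemma Fh_meas : Measurable (Fh F) := by
  unfold Fh
  exact measurable_fst.prodMk hF.meas

include hF hPKb hPKm hPKt in
lemma inner_eq {θ : Circ} {x : B} (h1 : ‖U θ x‖ < 1)
    (h2 : U θ (D.T x) = D.G (e θ) x (U θ x)) (S : Set (Circ × (B × Circ)))
    (hS : MeasurableSet S) :
    ∫⁻ y : Circ, S.indicator 1 (Fh F (θ, (x, y))) * ENNReal.ofReal (PK (U θ x) y) =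
    ∫⁻ y : Circ, S.indicator 1 (θ, (D.T x, y)) * ENNReal.ofReal (PK (U θ (D.T x)) y) := by
  classical
  set g : Circ → Circ := fun y => (F θ (x, y)).2 with hg
  have hg1 : ∀ y, e (g y) = e θ * (D.a x * e y + D.b x) / (conj (D.b x) * e y + conj (D.a x)) := by
    intro y
    exact hF.snd θ (x, y)
  have hg2 : ∀ y, Fh F (θ, (x, y)) = (θ, (D.T x, g y)) := by
    intro y
    unfold Fh
    have : F θ (x, y) = (D.T x, g y) := Prod.ext (hF.fst θ (x, y)) rfl
    simp only [this]
  set h : Circ → ℝ := fun y => S.indicator 1 (θ, (D.T x, y)) with hh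
  have hhm : Measurable h := (measurable_one.indicator hS).comp (by fun_prop)
  have hhb : ∀ y, ‖h y‖ ≤ 1 := by
    intro y
    by_cases h' : (θ, (D.T x, y)) ∈ S <;> simp [hh, h']
  have hh0 : ∀ y, 0 ≤ h y := by
    intro y
    by_cases h' : (θ, (D.T x, y)) ∈ S <;> simp [hh, h']
  have hgm : Measurable g := by
    have : Measurable fun y : Circ => F θ (x, y) :=
      hF.meas.comp (by fun_prop : Measurable fun y : Circ => (θ, (x, y)))
    exact measurable_snd.comp this
  obtain ⟨h3, h4⟩ := hPKt (e θ) (D.a x) (D.b x) (norm_e' θ) (D.det x) g hg1 (U θ x) h1 h hhm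
    ⟨1, hhb⟩
  have h5 : U θ (D.T x) = e θ * (D.a x * U θ x + D.b x) / (conj (D.b x) * U θ x + conj (D.a x)) := h2
  rw [← h5] at h3 h4
  have e1 : ∀ y, (S.indicator 1 (θ, (D.T x, y)) : ENNReal) = ENNReal.ofReal (h y) := by
    intro y
    by_cases h' : (θ, (D.T x, y)) ∈ S <;> simp [hh, h']
  simp only [hg2, e1]
  simp only [← ENNReal.ofReal_mul (hh0 _)]
  rw [← ofReal_integral_eq_lintegral_ofReal, ← ofReal_integral_eq_lintegral_ofReal, h4]
  · exact (PK_int hPKb hPKm h3.le).bdd_mul (c := 1) hhm.aestronglyMeasurable (ae_of_all _ hhb)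
  · exact ae_of_all _ fun y => mul_nonneg (hh0 _) (PK_nonneg h3.le _)
  · exact (PK_int hPKb hPKm h1.le).bdd_mul (c := 1) (hhm.comp hgm).aestronglyMeasurable
      (ae_of_all _ fun y => hhb _)
  · exact ae_of_all _ fun y => mul_nonneg (hh0 _) (PK_nonneg h1.le _)

include hF hPKb hPKm hPKt hΘ hinv mU mΘ in
lemma mp : MeasurePreserving (Fh F) (nu m U Θ) (nu m U Θ) := by
  refine ⟨Fh_meas D hF, ?_⟩
  ext S hS
  rw [Measure.map_apply (Fh_meas D hF) hS]
  have h1 : (nu m U Θ) (Fh F ⁻¹' S) = ∫⁻ p, S.indicator 1 (Fh F p) ∂(nu m U Θ) := by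
    have : (fun p => S.indicator (1 : Circ × (B × Circ) → ENNReal) (Fh F p)) =
        (Fh F ⁻¹' S).indicator 1 := by
      ext p
      by_cases h : Fh F p ∈ S <;> simp [indicator, h]
    rw [this, lintegral_indicator_one ((Fh_meas D hF) hS)]
  have h2 : (nu m U Θ) S = ∫⁻ p, S.indicator 1 p ∂(nu m U Θ) := by
    rw [lintegral_indicator_one hS]
  have h4 : Measurable fun p => S.indicator (1 : Circ × (B × Circ) → ENNReal) (Fh F p) :=
    (measurable_one.indicator hS).comp (Fh_meas D hF)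
  rw [h1, h2, lint_nu hPKm mU mΘ h4, lint_nu hPKm mU mΘ (measurable_one.indicator hS)]
  apply setLIntegral_congr_fun mΘ
  intro θ hθ
  set J : B → ENNReal := fun x => ∫⁻ y : Circ, S.indicator 1 (θ, (x, y)) *
    ENNReal.ofReal (PK (U θ x) y) with hJ
  have hJm : Measurable J := by
    have : Measurable fun q : B × Circ => S.indicator (1 : Circ × (B × Circ) → ENNReal) (θ, q) *
        ENNReal.ofReal (PK (U θ q.1) q.2) := by
      apply Measurable.mul
      · exact (measurable_one.indicator hS).comp (by fun_prop)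
      · apply ENNReal.measurable_ofReal.comp
        exact (mPKU hPKm mU).comp (by fun_prop : Measurable fun q : B × Circ => (θ, q))
    exact this.lintegral_prod_right'
  have h3 : ∫⁻ x, J (D.T x) ∂m = ∫⁻ x, J x ∂m :=
    D.erg.toMeasurePreserving.lintegral_comp hJm
  change _ = ∫⁻ x, J x ∂m
  rw [← h3]
  apply lintegral_congr_ae
  filter_upwards [hΘ θ hθ, hinv θ hθ] with x hx1 hx2
  exact inner_eq hPKb hPKm D hF hPKt hx1 hx2 S hS

end nufacts

end WALL

namespace WALL

variable {B : Type*} [MeasurableSpace B] {m : Measure B} [IsProbabilityMeasure m]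

instance : IsProbabilityMeasure (volume : Measure Circ) :=
  ⟨by rw [AddCircle.measure_univ, ENNReal.ofReal_one]⟩

lemma Fh_iter (F : Circ → B × Circ → B × Circ) (n : ℕ) (p : Circ × (B × Circ)) :
    (Fh F)^[n] p = (p.1, (F p.1)^[n] p.2) := by
  induction n with
  | zero => rfl
  | succ n ih =>
    rw [Function.iterate_succ_apply', ih, Function.iterate_succ_apply']
    rfl

lemma F_iter_fst (D : Coc B m) {F : Circ → B × Circ → B × Circ} (hF : D.Real F) (θ : Circ)
    (n : ℕ) (q : B × Circ) : ((F θ)^[n] q).1 = D.T^[n] q.1 := by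
  induction n with
  | zero => rfl
  | succ n ih =>
    rw [Function.iterate_succ_apply', Function.iterate_succ_apply', hF.fst, ih]

lemma F_iter_snd (D : Coc B m) {F : Circ → B × Circ → B × Circ} (hF : D.Real F) (θ : Circ)
    (n : ℕ) (q : B × Circ) : e ((F θ)^[n] q).2 = D.it (e θ) n q.1 (e q.2) := by
  induction n with
  | zero => rfl
  | succ n ih =>
    rw [Function.iterate_succ_apply', hF.snd, ih, F_iter_fst D hF]
    rfl

section main

variable (hPKb : ∀ z : ℂ, ‖z‖ < 1 → ∀ y : Circ,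
      (1 - ‖z‖) / (1 + ‖z‖) ≤ PK z y ∧ PK z y ≤ (1 + ‖z‖) / (1 - ‖z‖))
    (hPKm : Measurable (fun p : ℂ × Circ => PK p.1 p.2))
    (hPKj : ∀ z : ℂ, ‖z‖ < 1 → ∀ j : ℤ, ∫ y : Circ, e y ^ j * (PK z y : ℂ) = HH j z)
    {U : Circ → B → ℂ} (mU : Measurable (Function.uncurry U)) (bU : ∀ θ x, ‖U θ x‖ ≤ 1)
    {Θ : Set Circ} (mΘ : MeasurableSet Θ)
    (D : Coc B m) {F : Circ → B × Circ → B × Circ} (hF : D.Real F)
    (hΘ : ∀ θ ∈ Θ, ∀ᵐ x ∂m, ‖U θ x‖ < 1)
    (hinv : ∀ θ ∈ Θ, ∀ᵐ x ∂m, U θ (D.T x) = D.G (e θ) x (U θ x))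
    (hPKt : ∀ (l a b : ℂ), ‖l‖ = 1 → ‖a‖ ^ 2 - ‖b‖ ^ 2 = 1 → ∀ (g : Circ → Circ),
      (∀ y, e (g y) = l * (a * e y + b) / (conj b * e y + conj a)) → ∀ z : ℂ, ‖z‖ < 1 →
      ∀ h : Circ → ℝ, Measurable h → (∃ C, ∀ y, |h y| ≤ C) →
      ‖l * (a * z + b) / (conj b * z + conj a)‖ < 1 ∧
      ∫ y : Circ, h (g y) * PK z y =
        ∫ y : Circ, h y * PK (l * (a * z + b) / (conj b * z + conj a)) y)

include hPKb hPKm mU bU mΘ hF hΘ hinv hPKt in
lemma key_bound (g : Circ × (B × Circ) → ℂ) (hg : Measurable g)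
    (Φ : Circ × (B × Circ) → ℝ) (C : ℝ) (hC : ∀ p, |Φ p| ≤ C) (η : ℝ) (hη : 0 < η)
    (hsupp : ∀ p, Φ p ≠ 0 → p.1 ∈ Θ ∧ ‖U p.1 p.2.1‖ ≤ 1 - η) (n : ℕ) :
    ‖∫ p : Circ × (B × Circ), (Φ p : ℂ) * g ((Fh F)^[n] p)
      ∂((volume : Measure Circ).prod (m.prod (volume : Measure Circ)))‖ₑ ≤
      ENNReal.ofReal (C * (2 / η)) * ∫⁻ p, ‖g p‖ₑ ∂(nu m U Θ) := by
  have hmp := mp hPKb hPKm mU mΘ D hF hΘ hinv hPKt
  have hC0 : ∀ p, Φ p ≠ 0 → 0 ≤ C := fun p _ => (abs_nonneg _).trans (hC p)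
  have hgm : Measurable fun p => ‖g ((Fh F)^[n] p)‖ₑ :=
    (hg.comp ((Fh_meas D hF).iterate n)).enorm
  have e1 : ∫⁻ p, ‖g p‖ₑ ∂(nu m U Θ) = ∫⁻ p, ‖g ((Fh F)^[n] p)‖ₑ ∂(nu m U Θ) :=
    ((hmp.iterate n).lintegral_comp hg.enorm).symm
  rw [e1]
  unfold nu
  rw [lintegral_withDensity_eq_lintegral_mul _ (mdens hPKm mU mΘ) hgm,
    ← lintegral_const_mul _ ((mdens hPKm mU mΘ).mul hgm)]
  refine (enorm_integral_le_lintegral_enorm _).trans (lintegral_mono fun p => ?_)
  simp only [Pi.mul_apply]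
  rw [enorm_mul, ← mul_assoc]
  gcongr
  by_cases hΦ : Φ p = 0
  · simp [hΦ]
  · obtain ⟨h1, h2⟩ := hsupp p hΦ
    have h3 : ‖U p.1 p.2.1‖ < 1 := by linarith
    have hC' := hC0 p hΦ
    have h4 : η / 2 ≤ PK (U p.1 p.2.1) p.2.2 := by
      refine le_trans ?_ (hPKb _ h3 _).1
      rw [div_le_div_iff₀ (by norm_num) (by positivity)]
      nlinarith [norm_nonneg (U p.1 p.2.1)]
    rw [← ofReal_norm_eq_enorm, Complex.norm_real, Real.norm_eq_abs,
      ← ENNReal.ofReal_mul (by positivity)]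
    apply ENNReal.ofReal_le_ofReal
    rw [indicator_of_mem h1, Pi.one_apply, one_mul]
    calc |Φ p| ≤ C := hC p
      _ = C * (2 / η) * (η / 2) := by field_simp
      _ ≤ C * (2 / η) * PK (U p.1 p.2.1) p.2.2 := by gcongr

include hPKb hPKm hPKj mU bU mΘ hF hΘ hinv hPKt in
lemma good_class
    (hW : ∀ (Φ : Circ × (B × Circ) → ℂ), Measurable Φ → (∃ C, ∀ p, ‖Φ p‖ ≤ C) →
      ∀ (ψ : B → ℂ), Measurable ψ → (∃ C, ∀ x, ‖ψ x‖ ≤ C) → ∀ j : ℤ,
      Tendsto (fun n : ℕ => ∫ p : Circ × (B × Circ), Φ p * ψ (D.T^[n] p.2.1) *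
        (D.it (e p.1) n p.2.1 (e p.2.2) ^ j - HH j (U p.1 (D.T^[n] p.2.1)))
          ∂(volume.prod (m.prod volume))) atTop (𝓝 0)) :
    MClass (Good m F U Θ) where
  add := by
    rintro f g ⟨hf, ⟨C, hC⟩, hf'⟩ ⟨hg, ⟨C', hC'⟩, hg'⟩
    refine ⟨hf.add hg, ⟨C + C', fun p => (norm_add_le _ _).trans (add_le_add (hC p) (hC' p))⟩, ?_⟩
    intro Φ hΦ hΦb η hη hs
    have h1 := (hf' Φ hΦ hΦb η hη hs).add (hg' Φ hΦ hΦb η hη hs)
    rw [add_zero] at h1
    refine h1.congr fun n => ?_
    obtain ⟨K, hK⟩ := hΦb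
    have hΦc : Measurable fun p => ((Φ p : ℝ) : ℂ) := Complex.measurable_ofReal.comp hΦ
    have hint : ∀ f : Circ × (B × Circ) → ℂ, Measurable f → (∀ C : ℝ, (∀ p, ‖f p‖ ≤ C) →
        Integrable (fun p => ((Φ p : ℝ) : ℂ) * (f ((Fh F)^[n] p) - Pi U f ((Fh F)^[n] p)))
        ((volume : Measure Circ).prod (m.prod (volume : Measure Circ)))) := by
      intro f hf C hC
      refine Integrable.of_bound (C := K * (C + C)) ?_ (ae_of_all _ fun p => ?_)
      · have h2 := (hf.sub (Pi_meas hPKm mU hf)).comp ((Fh_meas D hF).iterate n)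
        exact (hΦc.mul h2).aestronglyMeasurable
      · rw [norm_mul, Complex.norm_real, Real.norm_eq_abs]
        have h2 : ‖f ((Fh F)^[n] p) - Pi U f ((Fh F)^[n] p)‖ ≤ C + C :=
          (norm_sub_le _ _).trans (add_le_add (hC _) (Pi_le hPKb hPKm hPKj bU hC _))
        have h3 : 0 ≤ K := (abs_nonneg _).trans (hK p)
        gcongr
        exact hK p
    rw [← integral_add (hint f hf C hC) (hint g hg C' hC')]
    apply integral_congr_ae
    refine ae_of_all _ fun p => ?_
    simp only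
    rw [Pi_add hPKb hPKm bU hf hg hC hC']
    ring
  smul := by
    rintro c f ⟨hf, ⟨C, hC⟩, hf'⟩
    refine ⟨hf.const_mul c, ⟨‖c‖ * C, fun p => ?_⟩, ?_⟩
    · rw [norm_mul]
      exact mul_le_mul_of_nonneg_left (hC p) (norm_nonneg _)
    intro Φ hΦ hΦb η hη hs
    have h1 := (hf' Φ hΦ hΦb η hη hs).const_mul c
    rw [mul_zero] at h1
    refine h1.congr fun n => ?_
    rw [← integral_const_mul]
    apply integral_congr_ae
    refine ae_of_all _ fun p => ?_
    simp only
    rw [Pi_smul]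
    ring
  lim := by
    intro f g C hf hfC hlim
    have hfm : ∀ k, Measurable (f k) := fun k => (hf k).1
    have hgm : Measurable g := measurable_of_tendsto_metrizable hfm (tendsto_pi_nhds.2 hlim)
    have hgC : ∀ p, ‖g p‖ ≤ C := fun p =>
      le_of_tendsto (hlim p).norm (Eventually.of_forall fun k => hfC k p)
    refine ⟨hgm, ⟨C, hgC⟩, ?_⟩
    intro Φ hΦ hΦb η hη hs
    obtain ⟨K, hK⟩ := hΦb
    haveI := nu_finite (m := m) hPKb hPKm hPKj mU bU mΘ
    -- the defects
    set L : Circ × (B × Circ) → ℂ := fun p => g p - Pi U g p with hL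
    set Lk : ℕ → Circ × (B × Circ) → ℂ := fun k p => f k p - Pi U (f k) p with hLk
    have hLm : Measurable L := hgm.sub (Pi_meas hPKm mU hgm)
    have hLkm : ∀ k, Measurable (Lk k) := fun k => (hfm k).sub (Pi_meas hPKm mU (hfm k))
    have hLC : ∀ p, ‖L p‖ ≤ C + C := fun p =>
      (norm_sub_le _ _).trans (add_le_add (hgC _) (Pi_le hPKb hPKm hPKj bU hgC _))
    have hLkC : ∀ k p, ‖Lk k p‖ ≤ C + C := fun k p =>
      (norm_sub_le _ _).trans (add_le_add (hfC _ _) (Pi_le hPKb hPKm hPKj bU (hfC k) _))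
    have hLlim : ∀ p, Tendsto (fun k => Lk k p) atTop (𝓝 (L p)) := fun p =>
      (hlim p).sub (Pi_lim hPKb hPKm bU hfm hfC hlim p)
    have hdom : Tendsto (fun k => ∫⁻ p, ‖L p - Lk k p‖ₑ ∂(nu m U Θ)) atTop (𝓝 0) := by
      have h1 : Tendsto (fun k => ∫⁻ p, ‖L p - Lk k p‖ₑ ∂(nu m U Θ)) atTop
          (𝓝 (∫⁻ p, 0 ∂(nu m U Θ))) := by
        apply tendsto_lintegral_of_dominated_convergence
          (fun _ => ENNReal.ofReal ((C + C) + (C + C)))
        · intro k
          exact (hLm.sub (hLkm k)).enorm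
        · intro k
          refine ae_of_all _ fun p => ?_
          simp only
          rw [← ofReal_norm_eq_enorm]
          exact ENNReal.ofReal_le_ofReal ((norm_sub_le _ _).trans (add_le_add (hLC _) (hLkC _ _)))
        · rw [lintegral_const]
          exact ENNReal.mul_ne_top ENNReal.ofReal_ne_top (measure_ne_top _ _)
        · refine ae_of_all _ fun p => ?_
          have h2 : Tendsto (fun k => L p - Lk k p) atTop (𝓝 0) := by
            simpa using (tendsto_const_nhds (x := L p)).sub (hLlim p)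
          simpa using h2.enorm
      simpa using h1
    have hdom2 : Tendsto (fun k => ENNReal.ofReal (K * (2 / η)) *
        ∫⁻ p, ‖L p - Lk k p‖ₑ ∂(nu m U Θ)) atTop (𝓝 0) := by
      simpa using ENNReal.Tendsto.const_mul hdom (Or.inr ENNReal.ofReal_ne_top)
    rw [Metric.tendsto_atTop]
    intro ε hε
    have h3 : ∀ᶠ k in atTop, ENNReal.ofReal (K * (2 / η)) *
        ∫⁻ p, ‖L p - Lk k p‖ₑ ∂(nu m U Θ) < ENNReal.ofReal (ε / 2) :=
      hdom2.eventually (gt_mem_nhds (ENNReal.ofReal_pos.2 (by positivity)))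
    obtain ⟨k, hk⟩ := h3.exists
    have h4 := (hf k).2.2 Φ hΦ ⟨K, hK⟩ η hη hs
    rw [Metric.tendsto_atTop] at h4
    obtain ⟨N, hN⟩ := h4 (ε / 2) (by positivity)
    refine ⟨N, fun n hn => ?_⟩
    have h5 := hN n hn
    rw [dist_zero_right] at h5 ⊢
    have hΦc : Measurable fun p => ((Φ p : ℝ) : ℂ) := Complex.measurable_ofReal.comp hΦ
    have hint : ∀ f : Circ × (B × Circ) → ℂ, Measurable f → ∀ C : ℝ, (∀ p, ‖f p‖ ≤ C) →
        Integrable (fun p => ((Φ p : ℝ) : ℂ) * (f ((Fh F)^[n] p)))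
        ((volume : Measure Circ).prod (m.prod (volume : Measure Circ))) := by
      intro f hf C hC
      refine Integrable.of_bound (C := K * C) ?_ (ae_of_all _ fun p => ?_)
      · exact (hΦc.mul (hf.comp ((Fh_meas D hF).iterate n))).aestronglyMeasurable
      · rw [norm_mul, Complex.norm_real, Real.norm_eq_abs]
        have h3 : 0 ≤ K := (abs_nonneg _).trans (hK p)
        exact mul_le_mul (hK p) (hC _) (norm_nonneg _) h3
    have h6 : ∫ p : Circ × (B × Circ), (Φ p : ℂ) * L ((Fh F)^[n] p)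
        ∂((volume : Measure Circ).prod (m.prod (volume : Measure Circ))) =
        (∫ p : Circ × (B × Circ), (Φ p : ℂ) * (fun q => L q - Lk k q) ((Fh F)^[n] p)
        ∂((volume : Measure Circ).prod (m.prod (volume : Measure Circ)))) +
        ∫ p : Circ × (B × Circ), (Φ p : ℂ) * Lk k ((Fh F)^[n] p)
        ∂((volume : Measure Circ).prod (m.prod (volume : Measure Circ))) := by
      rw [← integral_add (hint (fun q => L q - Lk k q) (hLm.sub (hLkm k)) ((C + C) + (C + C))
        (fun p => (norm_sub_le _ _).trans (add_le_add (hLC _) (hLkC _ _))))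
        (hint (Lk k) (hLkm k) (C + C) (hLkC k))]
      apply integral_congr_ae
      refine ae_of_all _ fun p => ?_
      simp only
      ring
    have h7 := key_bound hPKb hPKm mU bU mΘ D hF hΘ hinv hPKt (fun q => L q - Lk k q)
      (hLm.sub (hLkm k)) Φ K hK η hη hs n
    have h8 := h7.trans_lt hk
    rw [← ofReal_norm_eq_enorm, ENNReal.ofReal_lt_ofReal_iff (by positivity)] at h8
    change ‖∫ p : Circ × (B × Circ), (Φ p : ℂ) * L ((Fh F)^[n] p)
        ∂((volume : Measure Circ).prod (m.prod (volume : Measure Circ)))‖ < ε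
    rw [h6]
    calc _ ≤ _ := norm_add_le _ _
      _ < ε / 2 + ε / 2 := add_lt_add h8 h5
      _ = ε := by ring
  base := by
    intro S R j hS hR
    have hem : Measurable fun p : Circ × (B × Circ) => e p.2.2 ^ j := by
      have h1 : Continuous fun y : Circ => e y ^ j := by
        have : (fun y : Circ => e y ^ j) = (fourier j : C(Circ, ℂ)) := by
          ext y
          rw [fourier_eq]
        rw [this]
        exact (fourier j : C(Circ, ℂ)).continuous
      exact h1.measurable.comp (by fun_prop)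
    have hSm : Measurable fun p : Circ × (B × Circ) => S.indicator (1 : Circ → ℂ) p.1 :=
      (measurable_one.indicator hS).comp measurable_fst
    have hRm' : Measurable (R.indicator (1 : B → ℂ)) := measurable_one.indicator hR
    have hRm : Measurable fun p : Circ × (B × Circ) => R.indicator (1 : B → ℂ) p.2.1 :=
      hRm'.comp (by fun_prop)
    refine ⟨(hSm.mul hRm).mul hem, ⟨1, fun p => ?_⟩, ?_⟩
    · rw [norm_mul, norm_mul, norm_zpow, norm_e', one_zpow, mul_one]
      calc _ ≤ (1 : ℝ) * 1 := by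
            gcongr
            · exact ind_norm_le _ _
            · exact ind_norm_le _ _
        _ = 1 := by norm_num
    intro Φ hΦ hΦb η hη hs
    obtain ⟨K, hK⟩ := hΦb
    have hΦc : Measurable fun p => ((Φ p : ℝ) : ℂ) := Complex.measurable_ofReal.comp hΦ
    have h1 := hW (fun p => (Φ p : ℂ) * S.indicator 1 p.1) (hΦc.mul hSm)
      ⟨K, fun p => by
        rw [norm_mul, Complex.norm_real, Real.norm_eq_abs]
        have h3 : 0 ≤ K := (abs_nonneg _).trans (hK p)
        calc |Φ p| * ‖S.indicator (1 : Circ → ℂ) p.1‖ ≤ K * 1 := by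
              gcongr
              · exact hK p
              · exact ind_norm_le _ _
          _ = K := mul_one K⟩
      (R.indicator 1) hRm' ⟨1, fun x => ind_norm_le _ _⟩ j
    refine h1.congr fun n => ?_
    apply integral_congr_ae
    have hae : ∀ᵐ p ∂((volume : Measure Circ).prod (m.prod (volume : Measure Circ))),
        p.1 ∈ Θ → ‖U p.1 (D.T^[n] p.2.1)‖ < 1 := by
      have hTn : Measurable (D.T^[n]) := D.T.measurable.iterate n
      have hUm : Measurable fun p : Circ × (B × Circ) => ‖U p.1 (D.T^[n] p.2.1)‖ := by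
        have : Measurable fun p : Circ × (B × Circ) => (p.1, D.T^[n] p.2.1) :=
          measurable_fst.prodMk (hTn.comp (by fun_prop))
        exact (mU.comp this).norm
      have hset : MeasurableSet {p : Circ × (B × Circ) |
          p.1 ∈ Θ → ‖U p.1 (D.T^[n] p.2.1)‖ < 1} := by
        have h2 : {p : Circ × (B × Circ) | p.1 ∈ Θ → ‖U p.1 (D.T^[n] p.2.1)‖ < 1} =
            (Prod.fst ⁻¹' Θ)ᶜ ∪ {p | ‖U p.1 (D.T^[n] p.2.1)‖ < 1} := by
          ext p
          simp only [mem_setOf_eq, mem_union, mem_compl_iff, mem_preimage]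
          tauto
        rw [h2]
        exact (measurable_fst mΘ).compl.union (measurableSet_lt hUm measurable_const)
      rw [Measure.ae_prod_iff_ae_ae hset]
      refine ae_of_all _ fun θ => ?_
      by_cases hθ : θ ∈ Θ
      · have h3 : ∀ᵐ x ∂m, ‖U θ (D.T^[n] x)‖ < 1 :=
          (D.erg.toMeasurePreserving.iterate n).quasiMeasurePreserving.ae (hΘ θ hθ)
        have h4 : ∀ᵐ q ∂(m.prod (volume : Measure Circ)), ‖U θ (D.T^[n] q.1)‖ < 1 :=
          Measure.quasiMeasurePreserving_fst.ae h3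
        filter_upwards [h4] with q hq _
        exact hq
      · exact ae_of_all _ fun q h => absurd h hθ
    filter_upwards [hae] with p hp
    by_cases hΦ0 : Φ p = 0
    · simp [hΦ0]
    have hp1 := hp (hs p hΦ0).1
    rw [Fh_iter]
    simp only
    rw [F_iter_fst D hF, F_iter_snd D hF]
    have h5 : Pi U (fun p => S.indicator 1 p.1 * R.indicator 1 p.2.1 * e p.2.2 ^ j)
        (p.1, (F p.1)^[n] p.2) =
        S.indicator 1 p.1 * R.indicator 1 (D.T^[n] p.2.1) * HH j (U p.1 (D.T^[n] p.2.1)) := by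
      unfold Pi
      simp only
      rw [F_iter_fst D hF, ← hPKj _ hp1 j, ← integral_const_mul]
      simp only [mul_assoc]
    rw [h5]
    ring

end main

end WALL

/-- Weak convergence for all bounded functions. -/
theorem weak_all {B : Type*} [MeasurableSpace B] {m : Measure B} [IsProbabilityMeasure m]
    (D : Coc B m) (F : Circ → B × Circ → B × Circ) (hF : D.Real F)
    (U : Circ → B → ℂ) (mU : Measurable (Function.uncurry U)) (bU : ∀ θ x, ‖U θ x‖ ≤ 1)
    (Θ : Set Circ) (mΘ : MeasurableSet Θ) (hΘ : ∀ θ ∈ Θ, ∀ᵐ x ∂m, ‖U θ x‖ < 1)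
    (hinv : ∀ θ ∈ Θ, ∀ᵐ x ∂m, U θ (D.T x) = D.G (e θ) x (U θ x))
    (hPKb : ∀ z : ℂ, ‖z‖ < 1 → ∀ y : Circ,
      (1 - ‖z‖) / (1 + ‖z‖) ≤ PK z y ∧ PK z y ≤ (1 + ‖z‖) / (1 - ‖z‖))
    (hPKm : Measurable (fun p : ℂ × Circ => PK p.1 p.2))
    (hPKj : ∀ z : ℂ, ‖z‖ < 1 → ∀ j : ℤ, ∫ y : Circ, e y ^ j * (PK z y : ℂ) = HH j z)
    (hPKt : ∀ (l a b : ℂ), ‖l‖ = 1 → ‖a‖ ^ 2 - ‖b‖ ^ 2 = 1 → ∀ (g : Circ → Circ),
      (∀ y, e (g y) = l * (a * e y + b) / (conj b * e y + conj a)) → ∀ z : ℂ, ‖z‖ < 1 →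
      ∀ h : Circ → ℝ, Measurable h → (∃ C, ∀ y, |h y| ≤ C) →
      ‖l * (a * z + b) / (conj b * z + conj a)‖ < 1 ∧
      ∫ y : Circ, h (g y) * PK z y =
        ∫ y : Circ, h y * PK (l * (a * z + b) / (conj b * z + conj a)) y)
    (hW : ∀ (Φ : Circ × (B × Circ) → ℂ), Measurable Φ → (∃ C, ∀ p, ‖Φ p‖ ≤ C) →
      ∀ (ψ : B → ℂ), Measurable ψ → (∃ C, ∀ x, ‖ψ x‖ ≤ C) → ∀ j : ℤ,
      Tendsto (fun n : ℕ => ∫ p : Circ × (B × Circ), Φ p * ψ (D.T^[n] p.2.1) *
        (D.it (e p.1) n p.2.1 (e p.2.2) ^ j - HH j (U p.1 (D.T^[n] p.2.1)))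
          ∂(volume.prod (m.prod volume))) atTop (𝓝 0)) :
    ∀ (h : Circ × (B × Circ) → ℝ), Measurable h → (∃ C, ∀ p, |h p| ≤ C) →
      ∀ (Φ : Circ × (B × Circ) → ℝ), Measurable Φ → (∃ C, ∀ p, |Φ p| ≤ C) → ∀ η : ℝ, 0 < η →
      (∀ p, Φ p ≠ 0 → p.1 ∈ Θ ∧ ‖U p.1 p.2.1‖ ≤ 1 - η) →
      Tendsto (fun n : ℕ => ∫ p : Circ × (B × Circ), Φ p * (h (p.1, (F p.1)^[n] p.2) -
        ∫ y : Circ, h (p.1, (D.T^[n] p.2.1, y)) * PK (U p.1 (D.T^[n] p.2.1)) y)
          ∂(volume.prod (m.prod volume))) atTop (𝓝 0) := by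
  intro h hm hb Φ hΦ hΦb η hη hs
  have hcl := WALL.good_class hPKb hPKm hPKj mU bU mΘ D hF hΘ hinv hPKt hW
  have hg := WALL.all_bdd hcl (fun p => (h p : ℂ)) (Complex.measurable_ofReal.comp hm) (by
    obtain ⟨C, hC⟩ := hb
    exact ⟨C, fun p => by rw [Complex.norm_real, Real.norm_eq_abs]; exact hC p⟩)
  have h1 := hg.2.2 Φ hΦ hΦb η hη hs
  have h2 := (Complex.continuous_re.tendsto 0).comp h1
  rw [Complex.zero_re] at h2
  refine h2.congr fun n => ?_
  simp only [Function.comp_apply]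
  have h3 : (fun p : Circ × (B × Circ) => (Φ p : ℂ) * ((h ((WALL.Fh F)^[n] p) : ℂ) -
      WALL.Pi U (fun p => (h p : ℂ)) ((WALL.Fh F)^[n] p))) =
      fun p => ((Φ p * (h (p.1, (F p.1)^[n] p.2) -
        ∫ y : Circ, h (p.1, (D.T^[n] p.2.1, y)) * PK (U p.1 (D.T^[n] p.2.1)) y) : ℝ) : ℂ) := by
    ext p
    rw [WALL.Fh_iter]
    unfold WALL.Pi
    simp only
    rw [WALL.F_iter_fst D hF]
    push_cast
    rw [← integral_complex_ofReal]
    simp only [Complex.ofReal_mul]
  rw [h3, integral_complex_ofReal, Complex.ofReal_re]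

end Pool.Agent.H728R2.FA
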