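import Pool.Agent.H728R2.FA.Base

open Set Filter Topology MeasureTheory
open scoped ComplexConjugate

namespace Pool.Agent.H728R2.FA

open Pool.Agent.H728R2.OS

private theorem wone_ab {B : Type*} [MeasurableSpace B] {m : Measure B} (D : Coc B m) (x : B) :
    ‖D.b x‖ < ‖D.a x‖ := by
  have h := D.det x
  by_contra hcon
  have h1 : ‖D.a x‖ ≤ ‖D.b x‖ := not_lt.mp hcon
  have h2 : ‖D.a x‖ ^ 2 ≤ ‖D.b x‖ ^ 2 := pow_le_pow_left₀ (norm_nonneg _) h1 2
  linarith

private theorem wone_den {B : Type*} [MeasurableSpace B] {m : Measure B} (D : Coc B m) (x : B)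
    {w : ℂ} (hw : ‖w‖ ≤ 1) : D.den x w ≠ 0 := by
  intro h0
  have h1 := wone_ab D x
  have h2 : ‖conj (D.a x)‖ ≤ ‖D.den x w‖ + ‖conj (D.b x) * w‖ := by
    have h3 : conj (D.a x) = D.den x w - conj (D.b x) * w := by
      unfold Coc.den; ring
    calc ‖conj (D.a x)‖ = ‖D.den x w - conj (D.b x) * w‖ := by rw [← h3]
      _ ≤ _ := norm_sub_le _ _
  rw [h0, norm_zero, zero_add, norm_mul, RCLike.norm_conj, RCLike.norm_conj] at h2
  have h4 : ‖D.b x‖ * ‖w‖ ≤ ‖D.b x‖ * 1 := mul_le_mul_of_nonneg_left hw (norm_nonneg _)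
  linarith

private theorem wone_nsq (z : ℂ) : ‖z‖ ^ 2 = z.re ^ 2 + z.im ^ 2 := by
  rw [← Complex.normSq_eq_norm_sq, Complex.normSq_apply]; ring

private theorem wone_den_sq {B : Type*} [MeasurableSpace B] {m : Measure B} (D : Coc B m)
    (x : B) (w : ℂ) : ‖D.den x w‖ ^ 2 - ‖D.a x * w + D.b x‖ ^ 2 = 1 - ‖w‖ ^ 2 := by
  have h2 : ‖D.den x w‖ ^ 2 - ‖D.a x * w + D.b x‖ ^ 2 =
      (‖D.a x‖ ^ 2 - ‖D.b x‖ ^ 2) * (1 - ‖w‖ ^ 2) := by
    unfold Coc.den
    simp only [wone_nsq]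
    simp
    ring
  rw [h2, D.det x, one_mul]

private theorem wone_G {B : Type*} [MeasurableSpace B] {m : Measure B} (D : Coc B m) (l : ℂ)
    (x : B) {w : ℂ} (hw : ‖w‖ ≤ 1) : ‖D.G l x w‖ ≤ ‖l‖ := by
  have hd := norm_pos_iff.mpr (wone_den D x hw)
  have h1 : ‖D.a x * w + D.b x‖ ≤ ‖D.den x w‖ := by
    refine le_of_sq_le_sq ?_ (norm_nonneg _)
    have h2 := wone_den_sq D x w
    have h3 : ‖w‖ ^ 2 ≤ 1 := pow_le_one₀ (norm_nonneg _) hw
    linarith
  unfold Coc.G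
  rw [norm_div, norm_mul, div_le_iff₀ hd]
  exact mul_le_mul_of_nonneg_left h1 (norm_nonneg _)

private theorem wone_G1 {B : Type*} [MeasurableSpace B] {m : Measure B} (D : Coc B m) {l : ℂ}
    (hl : ‖l‖ = 1) (x : B) {w : ℂ} (hw : ‖w‖ = 1) : ‖D.G l x w‖ = 1 := by
  have hd := norm_pos_iff.mpr (wone_den D x hw.le)
  have h1 : ‖D.a x * w + D.b x‖ = ‖D.den x w‖ := by
    have h2 := wone_den_sq D x w
    rw [hw] at h2
    have h3 : ‖D.a x * w + D.b x‖ ^ 2 = ‖D.den x w‖ ^ 2 := by linarith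
    exact (pow_left_inj₀ (norm_nonneg _) (norm_nonneg _) two_ne_zero).mp h3
  unfold Coc.G
  rw [norm_div, norm_mul, hl, one_mul, h1]
  exact div_self hd.ne'

private theorem wone_norm_e (y : Circ) : ‖e y‖ = 1 := Circle.norm_coe _

private theorem wone_cont_e : Continuous e :=
  continuous_subtype_val.comp AddCircle.continuous_toCircle

private theorem wone_mv (F : ℂ → ℂ) (hF : DifferentiableOn ℂ F (Metric.ball 0 1)) (r : ℝ)
    (h0 : 0 < r) (h1 : r < 1) : ∫ θ : Circ, F (r * e θ) = F 0 := by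
  have h2 : DiffContOnCl ℂ F (Metric.ball 0 |r|) := by
    rw [abs_of_pos h0]
    refine DifferentiableOn.diffContOnCl ?_
    rw [closure_ball _ h0.ne']
    exact hF.mono (Metric.closedBall_subset_ball h1)
  have h3 := h2.circleAverage
  rw [Real.circleAverage] at h3
  rw [← UnitAddCircle.intervalIntegral_preimage 0, zero_add]
  have h4 : ∀ a : ℝ, F (r * e (a : Circ)) = (fun t => F (circleMap 0 r t)) (2 * Real.pi * a) := by
    intro a
    show F (r * e (a : Circ)) = F (circleMap 0 r (2 * Real.pi * a))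
    congr 1
    rw [circleMap, zero_add]
    congr 1
    show ((AddCircle.toCircle (a : UnitAddCircle) : Circle) : ℂ) = _
    rw [AddCircle.toCircle_apply_mk, Circle.coe_exp]
    simp
  have h5 : ∫ a : ℝ in (0:ℝ)..1, F (r * e (a : Circ)) =
      ∫ a : ℝ in (0:ℝ)..1, (fun t => F (circleMap 0 r t)) (2 * Real.pi * a) := by
    congr 1
    funext a
    exact h4 a
  rw [h5, intervalIntegral.integral_comp_mul_left (fun t => F (circleMap 0 r t))
    (mul_ne_zero two_ne_zero Real.pi_ne_zero), mul_zero, mul_one]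
  exact h3

private theorem wone_it {B : Type*} [MeasurableSpace B] {m : Measure B} (D : Coc B m) {l : ℂ}
    (hl : ‖l‖ ≤ 1) {w : ℂ} (hw : ‖w‖ ≤ 1) (n : ℕ) (x : B) : ‖D.it l n x w‖ ≤ 1 := by
  induction n with
  | zero => exact hw
  | succ n ih => exact (wone_G D l _ ih).trans hl

private theorem wone_it1 {B : Type*} [MeasurableSpace B] {m : Measure B} (D : Coc B m) {l : ℂ}
    (hl : ‖l‖ = 1) {w : ℂ} (hw : ‖w‖ = 1) (n : ℕ) (x : B) : ‖D.it l n x w‖ = 1 := by
  induction n with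
  | zero => exact hw
  | succ n ih => exact wone_G1 D hl _ ih

private theorem wone_it_cont {B : Type*} [MeasurableSpace B] {m : Measure B} (D : Coc B m) {l : ℂ}
    (hl : ‖l‖ ≤ 1) {w : ℂ} (hw : ‖w‖ ≤ 1) (n : ℕ) (x : B) :
    ContinuousAt (fun l => D.it l n x w) l := by
  induction n with
  | zero => exact continuousAt_const
  | succ n ih =>
    show ContinuousAt (fun l => l * (D.a (D.T^[n] x) * D.it l n x w +
        D.b (D.T^[n] x)) / (conj (D.b (D.T^[n] x)) * D.it l n x w + conj (D.a (D.T^[n] x)))) l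
    refine ContinuousAt.div ?_ ?_ ?_
    · exact continuousAt_id.mul ((continuousAt_const.mul ih).add continuousAt_const)
    · exact (continuousAt_const.mul ih).add continuousAt_const
    · exact wone_den D _ (wone_it D hl hw n x)

private theorem wone_it_meas {B : Type*} [MeasurableSpace B] {m : Measure B} (D : Coc B m)
    (n : ℕ) : Measurable (fun p : Circ × (B × Circ) => D.it (e p.1) n p.2.1 (e p.2.2)) := by
  have hT : ∀ n : ℕ, Measurable (fun p : Circ × (B × Circ) => D.T^[n] p.2.1) := fun n =>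
    (D.T.measurable.iterate n).comp (measurable_fst.comp measurable_snd)
  have he : Measurable e := wone_cont_e.measurable
  induction n with
  | zero => exact he.comp (measurable_snd.comp measurable_snd)
  | succ n ih =>
    show Measurable (fun p : Circ × (B × Circ) => e p.1 * (D.a (D.T^[n] p.2.1) *
      D.it (e p.1) n p.2.1 (e p.2.2) + D.b (D.T^[n] p.2.1)) /
      (conj (D.b (D.T^[n] p.2.1)) * D.it (e p.1) n p.2.1 (e p.2.2) +
        conj (D.a (D.T^[n] p.2.1))))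
    have ha : Measurable (fun p : Circ × (B × Circ) => D.a (D.T^[n] p.2.1)) := D.ma.comp (hT n)
    have hb : Measurable (fun p : Circ × (B × Circ) => D.b (D.T^[n] p.2.1)) := D.mb.comp (hT n)
    have hac : Measurable (fun p : Circ × (B × Circ) => conj (D.a (D.T^[n] p.2.1))) :=
      (Complex.continuous_conj.measurable).comp ha
    have hbc : Measurable (fun p : Circ × (B × Circ) => conj (D.b (D.T^[n] p.2.1))) :=
      (Complex.continuous_conj.measurable).comp hb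
    exact ((he.comp measurable_fst).mul ((ha.mul ih).add hb)).div ((hbc.mul ih).add hac)

private theorem wone_sec {B : Type*} [MeasurableSpace B] {m : Measure B} (D : Coc B m)
    {u : ℂ → B → ℂ} (hu : D.IsSec u) {l : ℂ} (hl : ‖l‖ < 1) (n : ℕ) (x : B) :
    D.it l n x (u l x) = u l (D.T^[n] x) := by
  induction n with
  | zero => rfl
  | succ n ih =>
    show D.G l (D.T^[n] x) (D.it l n x (u l x)) = u l (D.T^[n+1] x)
    rw [ih, Function.iterate_succ_apply', hu.inv l _ hl]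

private theorem wone_pow {B : Type*} [MeasurableSpace B] {m : Measure B} [IsProbabilityMeasure m]
    (D : Coc B m) {u : ℂ → B → ℂ} (hu : D.IsSec u) (r : ℕ → ℝ) (hr : ∀ j, 0 < r j ∧ r j < 1)
    (hr1 : Tendsto r atTop (𝓝 1)) (U : Circ → B → ℂ) (mU : Measurable (Function.uncurry U))
    (bU : ∀ θ x, ‖U θ x‖ ≤ 1)
    (hU : ∀ᵐ p : Circ × B ∂(volume.prod m),
      Tendsto (fun j => u (r j * e p.1) p.2) atTop (𝓝 (U p.1 p.2)))
    (hdiff : ∀ (w w' : ℂ → ℂ), DifferentiableOn ℂ w (Metric.ball 0 1) →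
      DifferentiableOn ℂ w' (Metric.ball 0 1) → (∀ l, ‖l‖ < 1 → ‖w l‖ ≤ 1) →
      (∀ l, ‖l‖ < 1 → ‖w' l‖ ≤ 1) → ∀ (n : ℕ) (x : B),
      ∃ h : ℂ → ℂ, DifferentiableOn ℂ h (Metric.ball 0 1) ∧ (∀ l, ‖l‖ < 1 → ‖h l‖ ≤ 2) ∧
        ∀ l, ‖l‖ < 1 → D.it l n x (w l) - D.it l n x (w' l) = l ^ n * h l)
    (hRL : ∀ (φ : Circ → ℂ), Measurable φ → ∀ C : ℝ, (∀ θ, ‖φ θ‖ ≤ C) → ∀ ε : ℝ, 0 < ε →
      ∃ N : ℕ, ∀ n : ℕ, N ≤ n → ∀ H : Circ → ℂ, Measurable H → (∀ θ, ‖H θ‖ ≤ 2) →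
        (∀ k : ℤ, k < n → ∫ θ : Circ, e θ ^ (-k) * H θ = 0) → ‖∫ θ : Circ, φ θ * H θ‖ ≤ ε)
    (Φ : Circ × (B × Circ) → ℂ) (mΦ : Measurable Φ) (bΦ : ∃ C, ∀ p, ‖Φ p‖ ≤ C)
    (ψ : B → ℂ) (mψ : Measurable ψ) (bψ : ∃ C, ∀ x, ‖ψ x‖ ≤ C) (k : ℕ) :
    Tendsto (fun n : ℕ => ∫ p : Circ × (B × Circ), Φ p * ψ (D.T^[n] p.2.1) *
      (D.it (e p.1) n p.2.1 (e p.2.2) ^ k - U p.1 (D.T^[n] p.2.1) ^ k)
        ∂(volume.prod (m.prod volume))) atTop (𝓝 0) := by
  obtain ⟨CΦ, hCΦ⟩ := bΦ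
  obtain ⟨Cψ, hCψ⟩ := bψ
  have hT : ∀ n : ℕ, Measurable (fun x : B => D.T^[n] x) := fun n => D.T.measurable.iterate n
  -- the good points
  have hgood0 : ∀ᵐ x ∂m, ∀ᵐ θ : Circ, Tendsto (fun j => u (r j * e θ) x) atTop (𝓝 (U θ x)) := by
    have h1 := (Measure.measurePreserving_swap (μ := m) (ν := (volume : Measure Circ))
      ).quasiMeasurePreserving.ae hU
    exact Measure.ae_ae_of_ae_prod h1
  have hgood : ∀ᵐ x ∂m, ∀ n : ℕ, ∀ᵐ θ : Circ,
      Tendsto (fun j => u (r j * e θ) (D.T^[n] x)) atTop (𝓝 (U θ (D.T^[n] x))) := by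
    rw [ae_all_iff]
    intro n
    exact (D.erg.toMeasurePreserving.iterate n).quasiMeasurePreserving.ae hgood0
  have hb : ∀ n (p : Circ × (B × Circ)),
      ‖D.it (e p.1) n p.2.1 (e p.2.2) ^ k - U p.1 (D.T^[n] p.2.1) ^ k‖ ≤ 2 := by
    intro n p
    refine (norm_sub_le _ _).trans ?_
    rw [norm_pow, norm_pow]
    have h1 := pow_le_one₀ (n := k) (norm_nonneg _)
      (wone_it D (wone_norm_e p.1).le (wone_norm_e p.2.2).le n p.2.1)
    have h2 := pow_le_one₀ (n := k) (norm_nonneg _) (bU p.1 (D.T^[n] p.2.1))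
    linarith
  have hm : ∀ n, Measurable (fun p : Circ × (B × Circ) =>
      D.it (e p.1) n p.2.1 (e p.2.2) ^ k - U p.1 (D.T^[n] p.2.1) ^ k) := by
    intro n
    have h1 : Measurable (fun p : Circ × (B × Circ) => U p.1 (D.T^[n] p.2.1)) :=
      mU.comp (measurable_fst.prodMk ((hT n).comp (measurable_fst.comp measurable_snd)))
    exact ((wone_it_meas D n).pow_const k).sub (h1.pow_const k)
  have hmall : ∀ n, Measurable (fun p : Circ × (B × Circ) => Φ p * ψ (D.T^[n] p.2.1) *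
      (D.it (e p.1) n p.2.1 (e p.2.2) ^ k - U p.1 (D.T^[n] p.2.1) ^ k)) := by
    intro n
    exact (mΦ.mul (mψ.comp ((hT n).comp (measurable_fst.comp measurable_snd)))).mul (hm n)
  have hC0 : 0 ≤ |CΦ| * |Cψ| * 2 := by positivity
  have hball : ∀ n (p : Circ × (B × Circ)), ‖Φ p * ψ (D.T^[n] p.2.1) *
      (D.it (e p.1) n p.2.1 (e p.2.2) ^ k - U p.1 (D.T^[n] p.2.1) ^ k)‖ ≤
        |CΦ| * |Cψ| * 2 := by
    intro n p
    rw [norm_mul, norm_mul]
    refine mul_le_mul (mul_le_mul ((hCΦ p).trans (le_abs_self _))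
      ((hCψ _).trans (le_abs_self _)) (norm_nonneg _) (abs_nonneg _)) (hb n p)
      (norm_nonneg _) (by positivity)
  have hint : ∀ n, Integrable (fun p : Circ × (B × Circ) => Φ p * ψ (D.T^[n] p.2.1) *
      (D.it (e p.1) n p.2.1 (e p.2.2) ^ k - U p.1 (D.T^[n] p.2.1) ^ k))
        (volume.prod (m.prod volume)) := by
    intro n
    exact Integrable.of_bound (hmall n).aestronglyMeasurable (|CΦ| * |Cψ| * 2)
      (ae_of_all _ (hball n))
  have hfub : ∀ n : ℕ, ∫ p : Circ × (B × Circ), Φ p * ψ (D.T^[n] p.2.1) *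
      (D.it (e p.1) n p.2.1 (e p.2.2) ^ k - U p.1 (D.T^[n] p.2.1) ^ k)
        ∂(volume.prod (m.prod volume)) = ∫ q : B × Circ, (∫ θ : Circ, Φ (θ, q) *
        ψ (D.T^[n] q.1) * (D.it (e θ) n q.1 (e q.2) ^ k - U θ (D.T^[n] q.1) ^ k))
          ∂(m.prod volume) := fun n => integral_prod_symm _ (hint n)
  simp only [hfub]
  -- the Fourier coefficients
  have hfour : ∀ x, (∀ n : ℕ, ∀ᵐ θ : Circ,
      Tendsto (fun j => u (r j * e θ) (D.T^[n] x)) atTop (𝓝 (U θ (D.T^[n] x)))) →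
      ∀ (y : Circ) (n : ℕ) (k' : ℤ), k' < n → ∫ θ : Circ, e θ ^ (-k') *
        (D.it (e θ) n x (e y) ^ k - U θ (D.T^[n] x) ^ k) = 0 := by
    intro x hx y n k' hk'
    obtain ⟨h, h1, -, h3⟩ := hdiff (fun _ => e y) (fun l => u l x) (differentiableOn_const _)
      (hu.hol x) (fun l _ => (wone_norm_e y).le) (fun l hl => (hu.le l x hl).trans hl.le) n x
    have hitd : DifferentiableOn ℂ (fun l => D.it l n x (e y)) (Metric.ball 0 1) := by
      have h4 : DifferentiableOn ℂ (fun l => u l (D.T^[n] x) + l ^ n * h l)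
          (Metric.ball 0 1) :=
        (hu.hol _).add ((differentiableOn_id.pow n).mul h1)
      refine h4.congr fun l hl => ?_
      have hl' := mem_ball_zero_iff.mp hl
      have h5 := h3 l hl'
      rw [wone_sec D hu hl'] at h5
      show D.it l n x (e y) = u l (D.T^[n] x) + l ^ n * h l
      rw [← h5]; ring
    let g : ℂ → ℂ := fun l => h l * ∑ i ∈ Finset.range k, D.it l n x (e y) ^ i *
      u l (D.T^[n] x) ^ (k - 1 - i)
    have hg : DifferentiableOn ℂ g (Metric.ball 0 1) := by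
      refine h1.mul ?_
      refine DifferentiableOn.fun_sum fun i _ => ?_
      exact (hitd.pow i).mul ((hu.hol _).pow _)
    have hP : ∀ l, ‖l‖ < 1 → D.it l n x (e y) ^ k - u l (D.T^[n] x) ^ k = l ^ n * g l := by
      intro l hl
      have h5 := h3 l hl
      rw [wone_sec D hu hl] at h5
      rw [← geom_sum₂_mul, h5]
      simp only [g]
      ring
    obtain ⟨t, ht⟩ : ∃ t : ℕ, (n : ℤ) - k' = (t + 1 : ℕ) := ⟨((n : ℤ) - k' - 1).toNat, by
      push_cast
      rw [Int.toNat_of_nonneg (by omega)]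
      ring⟩
    have hrn : ∀ (j : ℕ) (θ : Circ), ‖(r j : ℂ) * e θ‖ < 1 := by
      intro j θ
      rw [norm_mul, wone_norm_e, mul_one, Complex.norm_real, Real.norm_eq_abs,
        abs_of_pos (hr j).1]
      exact (hr j).2
    have hzero : ∀ j : ℕ, ∫ θ : Circ, e θ ^ (-k') *
        (D.it (r j * e θ) n x (e y) ^ k - u (r j * e θ) (D.T^[n] x) ^ k) = 0 := by
      intro j
      have hrj : (r j : ℂ) ≠ 0 := by
        exact_mod_cast (hr j).1.ne'
      have h6 : ∀ θ : Circ, e θ ^ (-k') *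
          (D.it (r j * e θ) n x (e y) ^ k - u (r j * e θ) (D.T^[n] x) ^ k) =
          ((r j : ℂ) ^ n * ((r j : ℂ) ^ (t + 1))⁻¹) *
            (fun l => l ^ (t + 1) * g l) (r j * e θ) := by
        intro θ
        rw [hP _ (hrn j θ)]
        have he0 : e θ ≠ 0 := by
          rw [← norm_pos_iff, wone_norm_e]; exact one_pos
        have h7 : e θ ^ (-k') * e θ ^ n = e θ ^ (t + 1) := by
          rw [← zpow_natCast (e θ) n, ← zpow_add₀ he0, ← zpow_natCast (e θ) (t + 1), ← ht]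
          congr 1
          ring
        have h8 : (r j : ℂ) ^ (t + 1) ≠ 0 := pow_ne_zero _ hrj
        simp only [mul_pow]
        rw [← h7]
        field_simp
      simp only [h6]
      rw [integral_const_mul, wone_mv (fun l => l ^ (t + 1) * g l)
        ((differentiableOn_id.pow (t + 1)).mul hg) (r j) (hr j).1 (hr j).2]
      simp
    have hlim : Tendsto (fun j : ℕ => ∫ θ : Circ, e θ ^ (-k') *
        (D.it (r j * e θ) n x (e y) ^ k - u (r j * e θ) (D.T^[n] x) ^ k)) atTop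
        (𝓝 (∫ θ : Circ, e θ ^ (-k') *
        (D.it (e θ) n x (e y) ^ k - U θ (D.T^[n] x) ^ k))) := by
      refine tendsto_integral_of_dominated_convergence (fun _ => (2:ℝ)) ?_
        (integrable_const _) ?_ ?_
      · intro j
        refine Continuous.aestronglyMeasurable ?_
        refine Continuous.mul ?_ ?_
        · refine Continuous.zpow₀ wone_cont_e _ fun θ => Or.inl ?_
          rw [← norm_pos_iff, wone_norm_e]; exact one_pos
        · have hc : Continuous (fun θ : Circ => (r j : ℂ) * e θ) :=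
            continuous_const.mul wone_cont_e
          have hc1 : Continuous (fun θ : Circ => D.it (r j * e θ) n x (e y)) :=
            hitd.continuousOn.comp_continuous hc fun θ => mem_ball_zero_iff.mpr (hrn j θ)
          have hc2 : Continuous (fun θ : Circ => u (r j * e θ) (D.T^[n] x)) :=
            (hu.hol _).continuousOn.comp_continuous hc fun θ => mem_ball_zero_iff.mpr (hrn j θ)
          exact (hc1.pow k).sub (hc2.pow k)
      · intro j
        refine ae_of_all _ fun θ => ?_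
        rw [norm_mul, norm_zpow, wone_norm_e, one_zpow, one_mul]
        refine (norm_sub_le _ _).trans ?_
        rw [norm_pow, norm_pow]
        have h9 := pow_le_one₀ (n := k) (norm_nonneg _)
          (wone_it D (hrn j θ).le (wone_norm_e y).le n x)
        have h10 := pow_le_one₀ (n := k) (norm_nonneg _)
          ((hu.le _ (D.T^[n] x) (hrn j θ)).trans (hrn j θ).le)
        linarith
      · filter_upwards [hx n] with θ hθ
        refine Tendsto.const_mul _ ?_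
        refine Tendsto.sub (Tendsto.pow ?_ k) (hθ.pow k)
        have h11 := (wone_it_cont D (wone_norm_e θ).le (wone_norm_e y).le n x).tendsto
        have h12 : Tendsto (fun j : ℕ => (r j : ℂ) * e θ) atTop (𝓝 (e θ)) := by
          have h13 : Tendsto (fun j : ℕ => (r j : ℂ)) atTop (𝓝 ((1:ℝ):ℂ)) :=
            (Complex.continuous_ofReal.tendsto _).comp hr1
          have h14 := h13.mul_const (e θ)
          rwa [Complex.ofReal_one, one_mul] at h14
        exact h11.comp h12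
    simp only [hzero] at hlim
    exact tendsto_nhds_unique hlim tendsto_const_nhds |>.symm ▸ rfl
  -- pointwise limits
  have hpt : ∀ q : B × Circ, (∀ n : ℕ, ∀ᵐ θ : Circ,
      Tendsto (fun j => u (r j * e θ) (D.T^[n] q.1)) atTop (𝓝 (U θ (D.T^[n] q.1)))) →
      Tendsto (fun n : ℕ => ∫ θ : Circ, Φ (θ, q) *
        ψ (D.T^[n] q.1) * (D.it (e θ) n q.1 (e q.2) ^ k - U θ (D.T^[n] q.1) ^ k)) atTop
        (𝓝 0) := by
    intro q hq
    have h1 : Tendsto (fun n : ℕ => ∫ θ : Circ, Φ (θ, q) *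
        (D.it (e θ) n q.1 (e q.2) ^ k - U θ (D.T^[n] q.1) ^ k)) atTop (𝓝 0) := by
      rw [Metric.tendsto_atTop]
      intro ε hε
      obtain ⟨N, hN⟩ := hRL (fun θ => Φ (θ, q)) (mΦ.comp measurable_prodMk_right) CΦ
        (fun θ => hCΦ _) (ε / 2) (by positivity)
      refine ⟨N, fun n hn => ?_⟩
      rw [dist_zero_right]
      have h2 := hN n hn (fun θ => D.it (e θ) n q.1 (e q.2) ^ k - U θ (D.T^[n] q.1) ^ k)
        ((hm n).comp measurable_prodMk_right) (fun θ => hb n (θ, q))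
        (fun k' hk' => hfour q.1 hq q.2 n k' hk')
      exact lt_of_le_of_lt h2 (by linarith)
    have h3 : ∀ n : ℕ, ∫ θ : Circ, Φ (θ, q) *
        ψ (D.T^[n] q.1) * (D.it (e θ) n q.1 (e q.2) ^ k - U θ (D.T^[n] q.1) ^ k) =
        ψ (D.T^[n] q.1) * ∫ θ : Circ, Φ (θ, q) *
        (D.it (e θ) n q.1 (e q.2) ^ k - U θ (D.T^[n] q.1) ^ k) := by
      intro n
      rw [← integral_const_mul]
      congr 1
      funext θ
      ring
    simp only [h3]
    refine squeeze_zero_norm (a := fun n : ℕ => |Cψ| * ‖∫ θ : Circ, Φ (θ, q) *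
        (D.it (e θ) n q.1 (e q.2) ^ k - U θ (D.T^[n] q.1) ^ k)‖) ?_ ?_
    · intro n
      rw [norm_mul]
      exact mul_le_mul_of_nonneg_right ((hCψ _).trans (le_abs_self _)) (norm_nonneg _)
    · have h4 := h1.norm.const_mul |Cψ|
      rwa [norm_zero, mul_zero] at h4
  have hgoodq : ∀ᵐ q : B × Circ ∂(m.prod volume), ∀ n : ℕ, ∀ᵐ θ : Circ,
      Tendsto (fun j => u (r j * e θ) (D.T^[n] q.1)) atTop (𝓝 (U θ (D.T^[n] q.1))) :=
    (Measure.quasiMeasurePreserving_fst (μ := m) (ν := (volume : Measure Circ))).ae hgood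
  have hfin := tendsto_integral_of_dominated_convergence (μ := m.prod (volume : Measure Circ))
    (F := fun n q => ∫ θ : Circ, Φ (θ, q) *
        ψ (D.T^[n] q.1) * (D.it (e θ) n q.1 (e q.2) ^ k - U θ (D.T^[n] q.1) ^ k))
    (f := fun _ => (0:ℂ)) (fun _ => |CΦ| * |Cψ| * 2 * (volume : Measure Circ).real univ)
    (fun n => (hint n).integral_prod_right.aestronglyMeasurable)
    (integrable_const _) (fun n => ae_of_all _ fun q => ?_) ?_
  · simpa using hfin
  · exact norm_integral_le_of_norm_le_const (ae_of_all _ fun θ => hball n (θ, q))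
  · filter_upwards [hgoodq] with q hq
    exact hpt q hq

/-- Weak convergence for the monomials `e(y)^j`. -/
theorem weak_one {B : Type*} [MeasurableSpace B] {m : Measure B} [IsProbabilityMeasure m]
    (D : Coc B m) {u : ℂ → B → ℂ} (hu : D.IsSec u) (r : ℕ → ℝ) (hr : ∀ j, 0 < r j ∧ r j < 1)
    (hr1 : Tendsto r atTop (𝓝 1)) (U : Circ → B → ℂ) (mU : Measurable (Function.uncurry U))
    (bU : ∀ θ x, ‖U θ x‖ ≤ 1)
    (hU : ∀ᵐ p : Circ × B ∂(volume.prod m),
      Tendsto (fun j => u (r j * e p.1) p.2) atTop (𝓝 (U p.1 p.2)))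
    (hdiff : ∀ (w w' : ℂ → ℂ), DifferentiableOn ℂ w (Metric.ball 0 1) →
      DifferentiableOn ℂ w' (Metric.ball 0 1) → (∀ l, ‖l‖ < 1 → ‖w l‖ ≤ 1) →
      (∀ l, ‖l‖ < 1 → ‖w' l‖ ≤ 1) → ∀ (n : ℕ) (x : B),
      ∃ h : ℂ → ℂ, DifferentiableOn ℂ h (Metric.ball 0 1) ∧ (∀ l, ‖l‖ < 1 → ‖h l‖ ≤ 2) ∧
        ∀ l, ‖l‖ < 1 → D.it l n x (w l) - D.it l n x (w' l) = l ^ n * h l)
    (hRL : ∀ (φ : Circ → ℂ), Measurable φ → ∀ C : ℝ, (∀ θ, ‖φ θ‖ ≤ C) → ∀ ε : ℝ, 0 < ε →
      ∃ N : ℕ, ∀ n : ℕ, N ≤ n → ∀ H : Circ → ℂ, Measurable H → (∀ θ, ‖H θ‖ ≤ 2) →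
        (∀ k : ℤ, k < n → ∫ θ : Circ, e θ ^ (-k) * H θ = 0) → ‖∫ θ : Circ, φ θ * H θ‖ ≤ ε)
    (Φ : Circ × (B × Circ) → ℂ) (mΦ : Measurable Φ) (bΦ : ∃ C, ∀ p, ‖Φ p‖ ≤ C)
    (ψ : B → ℂ) (mψ : Measurable ψ) (bψ : ∃ C, ∀ x, ‖ψ x‖ ≤ C) (j : ℤ) :
    Tendsto (fun n : ℕ => ∫ p : Circ × (B × Circ), Φ p * ψ (D.T^[n] p.2.1) *
      (D.it (e p.1) n p.2.1 (e p.2.2) ^ j - HH j (U p.1 (D.T^[n] p.2.1)))
        ∂(volume.prod (m.prod volume))) atTop (𝓝 0) := by
  by_cases hj : 0 ≤ j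
  · have h1 := wone_pow D hu r hr hr1 U mU bU hU hdiff hRL Φ mΦ bΦ ψ mψ bψ j.toNat
    refine h1.congr fun n => ?_
    congr 1
    funext p
    have h2 : D.it (e p.1) n p.2.1 (e p.2.2) ^ j = D.it (e p.1) n p.2.1 (e p.2.2) ^ j.toNat := by
      rw [← zpow_natCast, Int.toNat_of_nonneg hj]
    rw [h2, HH, if_pos hj]
  · obtain ⟨CΦ, hCΦ⟩ := bΦ
    obtain ⟨Cψ, hCψ⟩ := bψ
    have h1 := wone_pow D hu r hr hr1 U mU bU hU hdiff hRL (fun p => conj (Φ p))
      ((Complex.continuous_conj.measurable).comp mΦ)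
      ⟨CΦ, fun p => by rw [RCLike.norm_conj]; exact hCΦ p⟩ (fun x => conj (ψ x))
      ((Complex.continuous_conj.measurable).comp mψ)
      ⟨Cψ, fun p => by rw [RCLike.norm_conj]; exact hCψ p⟩ (-j).toNat
    have h2 := (Complex.continuous_conj.tendsto _).comp h1
    rw [map_zero] at h2
    refine h2.congr fun n => ?_
    simp only [Function.comp]
    rw [← integral_conj]
    congr 1
    funext p
    have h3 : D.it (e p.1) n p.2.1 (e p.2.2) ^ j =
        conj (D.it (e p.1) n p.2.1 (e p.2.2)) ^ (-j).toNat := by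
      have h4 := wone_it1 D (wone_norm_e p.1) (wone_norm_e p.2.2) n p.2.1
      have h5 : conj (D.it (e p.1) n p.2.1 (e p.2.2)) = (D.it (e p.1) n p.2.1 (e p.2.2))⁻¹ := by
        rw [Complex.inv_def, Complex.normSq_eq_norm_sq, h4]
        simp
      rw [h5, inv_pow, ← zpow_natCast, ← zpow_neg, Int.toNat_of_nonneg (by omega), neg_neg]
    rw [h3, HH, if_neg hj]
    simp

end Pool.Agent.H728R2.FA
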